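import Pool.Agent.H824.DaffA

/-!
# Operators on rings with a monomial basis of degree zero (characteristic two)

`R` has a basis of monomials `ξ ^ v ζ ^ e` of degree zero, `ζ ^ 2 = ∑ x_l y_l`.
-/

set_option autoImplicit false
set_option linter.unusedSectionVars false

namespace Pool.Agent.H17DA

open Pool.Agent.H824 Finset

/-- the indices of the coordinates `x_l`, `y_l` -/
abbrev Sg (m : ℕ) : Type := Fin (m + 1) × Fin 2

variable {m : ℕ}

/-- the exponent of `x_l y_l` -/
def pr (l : Fin (m + 1)) : Sg m → ℤ := fun b => if b.1 = l then 1 else 0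

/-- the exponent of one coordinate -/
def ed (a : Sg m) : Sg m → ℤ := fun b => if b = a then 1 else 0

/-- the other coordinate of a pair -/
def fl (a : Sg m) : Sg m := (a.1, 1 - a.2)

theorem fl_ne (a : Sg m) : fl a ≠ a := by
  obtain ⟨l, e⟩ := a
  intro h
  have h1 : (1 : Fin 2) - e = e := congrArg Prod.snd h
  revert h1
  fin_cases e <;> decide

theorem eq_or_fl (a b : Sg m) (h : b.1 = a.1) : b = a ∨ b = fl a := by
  obtain ⟨l, e⟩ := a
  obtain ⟨l', e'⟩ := b
  simp only at h
  subst h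
  fin_cases e <;> fin_cases e' <;> simp [fl]

theorem sum_pr (l : Fin (m + 1)) : ∑ b, pr l b = 2 := by
  unfold pr
  rw [Fintype.sum_prod_type]
  have h : ∀ x : Fin (m + 1), (∑ y : Fin 2, if ((x, y) : Sg m).1 = l then (1 : ℤ) else 0) =
      if x = l then 2 else 0 := by
    intro x
    simp only
    split_ifs
    · simp
    · simp
  simp only [h]
  simp

theorem sum_ed (a : Sg m) : ∑ b, ed a b = 1 := by
  unfold ed
  simp

/-- exponents without `ζ` -/
def ex0 (w : Sg m → ℤ) (hw : ∑ b, w b = 0) : Expo (Sg m) := ⟨w, 0, by simpa using hw⟩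

/-- exponents with `ζ` -/
def ex1 (w : Sg m → ℤ) (hw : ∑ b, w b = -1) : Expo (Sg m) := ⟨w, 1, by simp [hw]⟩

theorem shift_v (w : Sg m → ℤ) (hw : ∑ b, w b = 0) (i : Expo (Sg m)) (b : Sg m) :
    (i.shift w hw).v b = i.v b + w b := rfl

theorem shift_e (w : Sg m → ℤ) (hw : ∑ b, w b = 0) (i : Expo (Sg m)) :
    (i.shift w hw).e = i.e := rfl

theorem shift_inj (w : Sg m → ℤ) (hw : ∑ b, w b = 0) (i j : Expo (Sg m)) :
    i.shift w hw = j.shift w hw ↔ i = j := by
  constructor
  · intro h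
    apply Expo.ext
    · funext b
      have h1 := congrArg (fun x : Expo (Sg m) => x.v b) h
      simp only [shift_v] at h1
      linarith
    · have h1 := congrArg (fun x : Expo (Sg m) => x.e) h
      exact h1
  · intro h
    rw [h]

theorem shift_eq (w w' : Sg m → ℤ) (hw : ∑ b, w b = 0) (hw' : ∑ b, w' b = 0) (i : Expo (Sg m))
    (h : ∀ b, w b = w' b) : i.shift w hw = i.shift w' hw' := by
  have : w = w' := funext h
  subst this
  rfl

theorem shift_shift (w w' u : Sg m → ℤ) (hw : ∑ b, w b = 0) (hw' : ∑ b, w' b = 0)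
    (hu : ∑ b, u b = 0) (i : Expo (Sg m)) (h : ∀ b, w b + w' b = u b) :
    (i.shift w hw).shift w' hw' = i.shift u hu := by
  apply Expo.ext
  · funext b
    simp only [shift_v]
    rw [← h b]
    ring
  · rfl

section core

variable {k R : Type*} [Field k] [CharP k 2] [CommRing R] [Algebra k R]
  (B : Module.Basis (Expo (Sg m)) k R)

/-- the multiplication of the monomials -/
structure Mult : Prop where
  mul0 : ∀ (w : Sg m → ℤ) (hw : ∑ b, w b = 0) (i : Expo (Sg m)),
    B (ex0 w hw) * B i = B (i.shift w hw)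
  mul1 : ∀ (w w' : Sg m → ℤ) (hw : ∑ b, w b = -1) (hw' : ∑ b, w' b = -1),
    B (ex1 w hw) * B (ex1 w' hw') =
      ∑ l : Fin (m + 1), B (ex0 (fun b => w b + w' b + pr l b) (by
        rw [Finset.sum_add_distrib, Finset.sum_add_distrib, hw, hw', sum_pr]; norm_num))

variable {B}

theorem two_zero (hB : Mult B) (x : R) : x + x = 0 := by
  have _ := hB
  have h : (2 : k) = 0 := CharTwo.two_eq_zero
  rw [← two_smul k x, h, zero_smul]

theorem repr_shift (hB : Mult B) (w : Sg m → ℤ) (hw : ∑ b, w b = 0) (u : R) (j : Expo (Sg m)) :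
    B.repr (B (ex0 w hw) * u) (j.shift w hw) = B.repr u j := by
  classical
  have h1 : (B.coord (j.shift w hw)) ∘ₗ (LinearMap.mulLeft k (B (ex0 w hw))) = B.coord j := by
    apply B.ext
    intro i
    rw [LinearMap.comp_apply, LinearMap.mulLeft_apply, hB.mul0, Module.Basis.coord_apply,
      Module.Basis.coord_apply, Module.Basis.repr_self, Module.Basis.repr_self,
      Finsupp.single_apply, Finsupp.single_apply]
    simp only [shift_inj]
  exact LinearMap.congr_fun h1 u

theorem repr_of_polesIn (S : Set (Sg m)) (u : R) (hu : u ∈ polesIn B S) (j : Expo (Sg m))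
    (b : Sg m) (hb : j.v b < 0) (hbS : b ∉ S) : B.repr u j = 0 := by
  by_contra h
  unfold polesIn at hu
  rw [Module.Basis.mem_span_image] at hu
  have h1 := hu (Finsupp.mem_support_iff.mpr h)
  exact hbS (h1 b hb)

/-- the divisibility condition -/
def Par (T : ℤ) (mu : Sg m → ℤ) (i : Expo (Sg m)) : Prop := i.e = 0 ∧ ∀ b, T ∣ i.v b - mu b

/-- the coefficient -/
def cf (k : Type*) [Field k] (T : ℤ) (mu : Sg m → ℤ) (a : Sg m) (i : Expo (Sg m)) : k :=
  (((i.v (fl a) - mu (fl a)) / T : ℤ) : k)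

/-- the shift of the exponent -/
def dv (T : ℤ) (nu : Sg m → ℤ) (a : Sg m) : Sg m → ℤ := fun b => -T * pr a.1 b + nu b

theorem sum_dv (T : ℤ) (nu : Sg m → ℤ) (hnu : ∑ b, nu b = 2 * T) (a : Sg m) :
    ∑ b, dv T nu a b = 0 := by
  unfold dv
  rw [Finset.sum_add_distrib, ← Finset.mul_sum, sum_pr, hnu]
  ring

variable (B)

open Classical in
/-- the operator attached to the coordinate `a` -/
noncomputable def Dl (T : ℤ) (mu nu : Sg m → ℤ) (hnu : ∑ b, nu b = 2 * T) (a : Sg m) :
    R →ₗ[k] R :=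
  B.constr k (fun i => if Par T mu i then
    cf k T mu a i • B (i.shift (dv T nu a) (sum_dv T nu hnu a)) else 0)

variable {B}

open Classical in
theorem Dl_basis (T : ℤ) (mu nu : Sg m → ℤ) (hnu : ∑ b, nu b = 2 * T) (a : Sg m)
    (i : Expo (Sg m)) :
    Dl B T mu nu hnu a (B i) = if Par T mu i then
      cf k T mu a i • B (i.shift (dv T nu a) (sum_dv T nu hnu a)) else 0 := by
  unfold Dl
  rw [Module.Basis.constr_basis]

theorem par_shift (T : ℤ) (mu : Sg m → ℤ) (i : Expo (Sg m)) (w : Sg m → ℤ) (hw : ∑ b, w b = 0)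
    (h2 : ∀ b, T ∣ w b) : Par T mu (i.shift w hw) ↔ Par T mu i := by
  unfold Par
  rw [shift_e]
  refine and_congr Iff.rfl ?_
  apply forall_congr'
  intro b
  rw [shift_v]
  constructor
  · intro h
    have h3 := Int.dvd_sub h (h2 b)
    have e : i.v b + w b - mu b - w b = i.v b - mu b := by ring
    rwa [e] at h3
  · intro h
    have h3 := Int.dvd_add h (h2 b)
    have e : i.v b - mu b + w b = i.v b + w b - mu b := by ring
    rwa [e] at h3

theorem cf_shift (T : ℤ) (hT : T ≠ 0) (mu : Sg m → ℤ) (a : Sg m) (i : Expo (Sg m))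
    (w w' : Sg m → ℤ) (hw : ∑ b, w b = 0) (h2 : ∀ b, w b = T * w' b) :
    cf k T mu a (i.shift w hw) = cf k T mu a i + ((w' (fl a) : ℤ) : k) := by
  unfold cf
  rw [shift_v, h2]
  have e : i.v (fl a) + T * w' (fl a) - mu (fl a) = (i.v (fl a) - mu (fl a)) + T * w' (fl a) := by
    ring
  rw [e, Int.add_mul_ediv_left _ _ hT]
  push_cast
  rfl

/-- `2 T w` -/
def qu (T : ℤ) (w : Sg m → ℤ) : Sg m → ℤ := fun b => 2 * T * w b

theorem sum_qu (T : ℤ) (w : Sg m → ℤ) (hw : ∑ b, w b = 0) : ∑ b, qu T w b = 0 := by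
  unfold qu
  rw [← Finset.mul_sum, hw, mul_zero]

theorem cast_two_mul (x : ℤ) : ((2 * x : ℤ) : k) = 0 := by
  push_cast
  have h : (2 : k) = 0 := CharTwo.two_eq_zero
  rw [h, zero_mul]

theorem Dl_mul0 (hB : Mult B) (T : ℤ) (hT : T ≠ 0) (mu nu : Sg m → ℤ)
    (hnu : ∑ b, nu b = 2 * T) (a : Sg m) (w : Sg m → ℤ) (hw : ∑ b, w b = 0) (u : R) :
    Dl B T mu nu hnu a (B (ex0 (qu T w) (sum_qu T w hw)) * u) =
      B (ex0 (qu T w) (sum_qu T w hw)) * Dl B T mu nu hnu a u := by
  classical
  have h1 : (Dl B T mu nu hnu a) ∘ₗ (LinearMap.mulLeft k (B (ex0 (qu T w) (sum_qu T w hw)))) =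
      (LinearMap.mulLeft k (B (ex0 (qu T w) (sum_qu T w hw)))) ∘ₗ (Dl B T mu nu hnu a) := by
    apply B.ext
    intro i
    rw [LinearMap.comp_apply, LinearMap.comp_apply, LinearMap.mulLeft_apply,
      LinearMap.mulLeft_apply, hB.mul0, Dl_basis, Dl_basis,
      par_shift T mu i (qu T w) (sum_qu T w hw) (fun b => ⟨2 * w b, by unfold qu; ring⟩)]
    split_ifs with hp
    · rw [cf_shift T hT mu a i (qu T w) (fun b => 2 * w b) _ (fun b => by unfold qu; ring),
        cast_two_mul, add_zero, mul_smul_comm, hB.mul0]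
      congr 2
      apply Expo.ext
      · funext b
        simp only [shift_v]
        ring
      · rfl
    · rw [mul_zero]
  exact LinearMap.congr_fun h1 u

/-- `2 T w + T pr l` -/
def q1 (T : ℤ) (w : Sg m → ℤ) (l : Fin (m + 1)) : Sg m → ℤ := fun b => 2 * T * w b + T * pr l b

theorem sum_q1 (T : ℤ) (w : Sg m → ℤ) (hw : ∑ b, w b = -1) (l : Fin (m + 1)) :
    ∑ b, q1 T w l b = 0 := by
  unfold q1
  rw [Finset.sum_add_distrib, ← Finset.mul_sum, ← Finset.mul_sum, hw, sum_pr]
  ring

/-- `2 T w + nu` -/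
def q2 (T : ℤ) (nu w : Sg m → ℤ) : Sg m → ℤ := fun b => 2 * T * w b + nu b

theorem sum_q2 (T : ℤ) (nu w : Sg m → ℤ) (hnu : ∑ b, nu b = 2 * T) (hw : ∑ b, w b = -1) :
    ∑ b, q2 T nu w b = 0 := by
  unfold q2
  rw [Finset.sum_add_distrib, ← Finset.mul_sum, hw, hnu]
  ring

open Classical in
theorem Dl_mul1 (hB : Mult B) (T : ℤ) (hT : T ≠ 0) (mu nu : Sg m → ℤ)
    (hnu : ∑ b, nu b = 2 * T) (a : Sg m)
    (w : Sg m → ℤ) (hw : ∑ b, w b = -1) (i : Expo (Sg m)) :
    Dl B T mu nu hnu a ((∑ l : Fin (m + 1), B (ex0 (q1 T w l) (sum_q1 T w hw l))) * B i) =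
      (∑ l : Fin (m + 1), B (ex0 (q1 T w l) (sum_q1 T w hw l))) * Dl B T mu nu hnu a (B i) +
        if Par T mu i then B (i.shift (q2 T nu w) (sum_q2 T nu w hnu hw)) else 0 := by
  rw [Finset.sum_mul, map_sum, Finset.sum_mul]
  have hl : ∀ l : Fin (m + 1),
      Dl B T mu nu hnu a (B (ex0 (q1 T w l) (sum_q1 T w hw l)) * B i) =
      B (ex0 (q1 T w l) (sum_q1 T w hw l)) * Dl B T mu nu hnu a (B i) +
        if l = a.1 then (if Par T mu i then B (i.shift (q2 T nu w) (sum_q2 T nu w hnu hw)) else 0)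
          else 0 := by
    intro l
    rw [hB.mul0, Dl_basis, Dl_basis,
      par_shift T mu i (q1 T w l) (sum_q1 T w hw l)
        (fun b => ⟨2 * w b + pr l b, by unfold q1; ring⟩)]
    by_cases hp : Par T mu i
    · rw [if_pos hp, if_pos hp, if_pos hp,
        cf_shift T hT mu a i (q1 T w l) (fun b => 2 * w b + pr l b) _
          (fun b => by unfold q1; ring),
        mul_smul_comm, hB.mul0, add_smul]
      have e1 : (((2 * w (fl a) + pr l (fl a) : ℤ)) : k) = if l = a.1 then 1 else 0 := by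
        rw [Int.cast_add, cast_two_mul, zero_add]
        unfold pr fl
        simp only
        by_cases h : l = a.1
        · rw [if_pos h, if_pos h.symm, Int.cast_one]
        · rw [if_neg h, if_neg (fun h' => h h'.symm), Int.cast_zero]
      rw [e1]
      congr 1
      · congr 2
        apply Expo.ext
        · funext b
          simp only [shift_v]
          ring
        · rfl
      · by_cases h : l = a.1
        · rw [if_pos h, if_pos h, one_smul]
          congr 1
          apply Expo.ext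
          · funext b
            simp only [shift_v, q1, q2, dv]
            rw [h]
            ring
          · rfl
        · rw [if_neg h, if_neg h, zero_smul]
    · rw [if_neg hp, if_neg hp, if_neg hp, mul_zero]
      simp
  simp only [hl]
  rw [Finset.sum_add_distrib]
  congr 1
  rw [Finset.sum_ite_eq' Finset.univ a.1]
  simp

end core

end Pool.Agent.H17DA
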