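import Pool.Agent.H17DA.Core

/-!
# The commutators with fourth powers, and the poles
-/

set_option autoImplicit false
set_option linter.unusedSectionVars false

namespace Pool.Agent.H17DA

open Pool.Agent.H824 Finset

variable {m : ℕ}

section core

variable {k R : Type*} [Field k] [CharP k 2] [CommRing R] [CharP R 2] [Algebra k R]
  {B : Module.Basis (Expo (Sg m)) k R}

theorem expo_cases (i : Expo (Sg m)) :
    (∃ (w : Sg m → ℤ) (hw : ∑ b, w b = 0), i = ex0 w hw) ∨
      (∃ (w : Sg m → ℤ) (hw : ∑ b, w b = -1), i = ex1 w hw) := by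
  obtain ⟨v, e, h⟩ := i
  have he : e = 0 ∨ e = 1 := by
    fin_cases e
    · exact Or.inl rfl
    · exact Or.inr rfl
  rcases he with rfl | rfl
  · left
    exact ⟨v, by simpa using h, rfl⟩
  · right
    refine ⟨v, ?_, rfl⟩
    simp only [Fin.val_one, Nat.cast_one] at h
    linarith

/-- the powers of a monomial without `ζ` -/
theorem pow_ex0 (hB : Mult B) (w : Sg m → ℤ) (hw : ∑ b, w b = 0) (n : ℕ)
    (h2 : ∑ b, ((n : ℤ) * w b) = 0) :
    B (ex0 w hw) ^ n = B (ex0 (fun b => (n : ℤ) * w b) h2) := by
  induction n with
  | zero =>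
    have h1 : B (ex0 (fun b => ((0 : ℕ) : ℤ) * w b) h2) * 1 = 1 := by
      have h3 : (1 : R) ∈ Submodule.span k (Set.range B) := by
        rw [B.span_eq]
        trivial
      have h4 : ∀ x : R, B (ex0 (fun b => ((0 : ℕ) : ℤ) * w b) h2) * x = x := by
        intro x
        have hx : x ∈ Submodule.span k (Set.range B) := by
          rw [B.span_eq]
          trivial
        induction hx using Submodule.span_induction with
        | mem x hx =>
          obtain ⟨i, rfl⟩ := hx
          rw [hB.mul0]
          congr 1
          apply Expo.ext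
          · funext b
            rw [shift_v]
            simp
          · rfl
        | zero => rw [mul_zero]
        | add x y _ _ hx hy => rw [mul_add, hx, hy]
        | smul c x _ hx => rw [mul_smul_comm, hx]
      exact h4 1
    rw [pow_zero, ← h1, mul_one]
  | succ n ih =>
    have h3 : ∑ b, ((n : ℤ) * w b) = 0 := by rw [← Finset.mul_sum, hw, mul_zero]
    rw [pow_succ, ih h3, hB.mul0]
    congr 1
    apply Expo.ext
    · funext b
      change w b + (n : ℤ) * w b = ((n + 1 : ℕ) : ℤ) * w b
      push_cast
      ring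
    · rfl

theorem powq_ex0 (hB : Mult B) (s : ℕ) (w : Sg m → ℤ) (hw : ∑ b, w b = 0) :
    B (ex0 w hw) ^ 2 ^ (s + 1) = B (ex0 (qu (2 ^ s) w) (sum_qu (2 ^ s) w hw)) := by
  have h2 : ∑ b, (((2 ^ (s + 1) : ℕ) : ℤ) * w b) = 0 := by rw [← Finset.mul_sum, hw, mul_zero]
  rw [pow_ex0 hB w hw _ h2]
  congr 1
  apply Expo.ext
  · funext b
    change ((2 ^ (s + 1) : ℕ) : ℤ) * w b = 2 * 2 ^ s * w b
    push_cast
    ring
  · rfl

theorem powq_ex1 (hB : Mult B) (s : ℕ) (w : Sg m → ℤ) (hw : ∑ b, w b = -1) :
    B (ex1 w hw) ^ 2 ^ (s + 1) =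
      ∑ l : Fin (m + 1), B (ex0 (q1 (2 ^ s) w l) (sum_q1 (2 ^ s) w hw l)) := by
  have e : B (ex1 w hw) ^ 2 ^ (s + 1) = (B (ex1 w hw) * B (ex1 w hw)) ^ 2 ^ s := by
    rw [← pow_two, ← pow_mul]
    congr 1
    ring
  rw [e, hB.mul1 w w hw hw, sum_pow_char_pow 2 s]
  apply Finset.sum_congr rfl
  intro l _
  have h1 : ∑ b, (w b + w b + pr l b) = 0 := by
    rw [Finset.sum_add_distrib, Finset.sum_add_distrib, hw, sum_pr]; norm_num
  have h2 : ∑ b, (((2 ^ s : ℕ) : ℤ) * (w b + w b + pr l b)) = 0 := by
    rw [← Finset.mul_sum, h1, mul_zero]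
  rw [pow_ex0 hB _ h1 _ h2]
  congr 1
  apply Expo.ext
  · funext b
    change ((2 ^ s : ℕ) : ℤ) * (w b + w b + pr l b) = 2 * 2 ^ s * w b + 2 ^ s * pr l b
    push_cast
    ring
  · rfl

/-- The commutator of the operators with a `q`-th power does not depend on the index. -/
theorem comm_indep (hB : Mult B) (s : ℕ) (mu nu : Sg m → ℤ) (hnu : ∑ b, nu b = 2 * 2 ^ s)
    (a a' : Sg m) (x u : R) :
    Dl B (2 ^ s) mu nu hnu a (x ^ 2 ^ (s + 1) * u) -
        x ^ 2 ^ (s + 1) * Dl B (2 ^ s) mu nu hnu a u =
      Dl B (2 ^ s) mu nu hnu a' (x ^ 2 ^ (s + 1) * u) -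
        x ^ 2 ^ (s + 1) * Dl B (2 ^ s) mu nu hnu a' u := by
  classical
  have hT : (2 ^ s : ℤ) ≠ 0 := by positivity
  have hx : x ∈ Submodule.span k (Set.range B) := by
    rw [B.span_eq]
    trivial
  induction hx using Submodule.span_induction generalizing u with
  | mem x hx =>
    obtain ⟨i, rfl⟩ := hx
    rcases expo_cases i with ⟨w, hw, rfl⟩ | ⟨w, hw, rfl⟩
    · rw [powq_ex0 hB s w hw, Dl_mul0 hB _ hT mu nu hnu a w hw, Dl_mul0 hB _ hT mu nu hnu a' w hw,
        sub_self, sub_self]
    · rw [powq_ex1 hB s w hw]
      have hu : u ∈ Submodule.span k (Set.range B) := by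
        rw [B.span_eq]
        trivial
      induction hu using Submodule.span_induction with
      | mem u hu =>
        obtain ⟨j, rfl⟩ := hu
        rw [Dl_mul1 hB _ hT mu nu hnu a w hw, Dl_mul1 hB _ hT mu nu hnu a' w hw,
          add_sub_cancel_left, add_sub_cancel_left]
      | zero => simp
      | add u u' _ _ h h' =>
        rw [mul_add, map_add, map_add, map_add, map_add, mul_add, mul_add]
        linear_combination h + h'
      | smul c u _ h =>
        rw [mul_smul_comm, map_smul, map_smul, map_smul, map_smul, mul_smul_comm, mul_smul_comm,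
          ← smul_sub, ← smul_sub, h]
  | zero => simp
  | add x y _ _ hx hy =>
    rw [add_pow_char_pow, add_mul, add_mul, add_mul, map_add, map_add]
    linear_combination hx u + hy u
  | smul c x _ hx =>
    rw [smul_pow, smul_mul_assoc, smul_mul_assoc, smul_mul_assoc, map_smul, map_smul, ← smul_sub,
      ← smul_sub, hx]

/-- The operators do not create poles, except along their own coordinate. -/
theorem Dl_poles (T : ℤ) (hT : 0 < T) (mu nu : Sg m → ℤ) (hnu : ∑ b, nu b = 2 * T)
    (hmu0 : ∀ b, 0 ≤ mu b) (hnu0 : ∀ b, 0 ≤ nu b) (hmn : ∀ b, mu b + nu b < T)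
    (a : Sg m) (S : Set (Sg m)) (ha : a ∈ S) (u : R) (hu : u ∈ polesIn B S) :
    Dl B T mu nu hnu a u ∈ polesIn B S := by
  classical
  unfold polesIn at hu
  induction hu using Submodule.span_induction with
  | mem x hx =>
    obtain ⟨i, hi, rfl⟩ := hx
    rw [Dl_basis]
    split_ifs with hp
    · by_cases hc : cf k T mu a i = 0
      · rw [hc, zero_smul]
        exact zero_mem _
      · apply Submodule.smul_mem
        apply Submodule.subset_span
        refine ⟨_, ?_, rfl⟩
        intro b hb
        rw [shift_v] at hb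
        by_contra hbS
        have h1 : 0 ≤ i.v b := by
          by_contra h
          exact hbS (hi b (not_le.mp h))
        have h2 := hnu0 b
        have h3 := hmu0 b
        have h4 := hmn b
        by_cases hba : b.1 = a.1
        · rcases eq_or_fl a b hba with h | h
          · exact hbS (h ▸ ha)
          · obtain ⟨y, hy⟩ := hp.2 b
            have h7 : (i.v b - mu b) / T = y := by
              rw [hy, Int.mul_ediv_cancel_left _ hT.ne']
            have h6 : y ≠ 0 := by
              intro h7'
              apply hc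
              unfold cf
              rw [← h, h7, h7', Int.cast_zero]
            have h8 : dv T nu a b = -T + nu b := by
              unfold dv pr
              rw [if_pos hba]
              ring
            rw [h8] at hb
            -- `y ≥ 1`
            have h9 : 0 < y := by
              by_contra h10
              have h11 : y ≤ -1 := by omega
              have h12 : T * y ≤ T * (-1) := mul_le_mul_of_nonneg_left h11 hT.le
              rw [← hy] at h12
              linarith
            have h13 : T * 1 ≤ T * y := mul_le_mul_of_nonneg_left (by omega) hT.le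
            rw [← hy] at h13
            linarith
        · have h8 : dv T nu a b = nu b := by
            unfold dv pr
            rw [if_neg hba]
            ring
          rw [h8] at hb
          linarith
    · exact zero_mem _
  | zero =>
    rw [map_zero]
    exact zero_mem _
  | add x y _ _ hx hy =>
    rw [map_add]
    exact add_mem hx hy
  | smul c x _ hx =>
    rw [map_smul]
    exact Submodule.smul_mem _ _ hx

end core

end Pool.Agent.H17DA
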