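import Pool.Agent.H17DA.Core2

/-!
# The class is not a coboundary
-/

set_option autoImplicit false
set_option linter.unusedSectionVars false

namespace Pool.Agent.H17DA

open Pool.Agent.H824 Finset

variable {m : ℕ}

/-- the indicator of the `x` -/
def ix : Sg m → ℤ := fun b => if b.2 = 0 then 1 else 0

theorem sum_ix : ∑ b : Sg m, ix b = (m : ℤ) + 1 := by
  unfold ix
  rw [Fintype.sum_prod_type]
  simp

theorem ix_nonneg (b : Sg m) : 0 ≤ ix b := by
  unfold ix
  split_ifs <;> norm_num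

theorem ix_zero (l : Fin (m + 1)) : ix ((l, 0) : Sg m) = 1 := rfl

theorem ix_one (l : Fin (m + 1)) : ix ((l, 1) : Sg m) = 0 := rfl

theorem ed_self (a : Sg m) : ed a a = 1 := by
  unfold ed
  rw [if_pos rfl]

theorem ed_ne (a b : Sg m) (h : b ≠ a) : ed a b = 0 := by
  unfold ed
  rw [if_neg h]

theorem ed_nonneg (a b : Sg m) : 0 ≤ ed a b := by
  unfold ed
  split_ifs <;> norm_num

theorem pr_eq (l : Fin (m + 1)) (b : Sg m) : pr l b = ed (l, 0) b + ed (l, 1) b := by
  obtain ⟨l', e⟩ := b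
  unfold pr ed
  by_cases h : l' = l
  · subst h
    fin_cases e <;> simp
  · simp [h]

section core

variable {k R : Type*} [Field k] [CharP k 2] [CommRing R] [CharP R 2] [Algebra k R]
  {B : Module.Basis (Expo (Sg m)) k R}

/-- the basic exponent -/
def v0 (T : ℤ) (mu : Sg m → ℤ) (N : ℤ) : Sg m → ℤ :=
  fun b => T * ix b + mu b - 2 * T * N * ed (0, 0) b

theorem sum_v0 (T : ℤ) (mu : Sg m → ℤ) (N : ℤ)
    (hN : T * ((m : ℤ) + 1) + ∑ b, mu b = 2 * T * N) : ∑ b, v0 T mu N b = 0 := by
  unfold v0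
  rw [Finset.sum_sub_distrib, Finset.sum_add_distrib, ← Finset.mul_sum, ← Finset.mul_sum, sum_ix,
    sum_ed]
  linarith

theorem no_split_T (hB : Mult B) (T : ℤ) (hT : 0 < T) (q : ℕ)
    (hq0 : ∀ (w : Sg m → ℤ) (hw : ∑ b, w b = 0),
      B (ex0 w hw) ^ q = B (ex0 (qu T w) (sum_qu T w hw)))
    (hq1 : ∀ (w : Sg m → ℤ) (hw : ∑ b, w b = -1),
      B (ex1 w hw) ^ q = ∑ l : Fin (m + 1), B (ex0 (q1 T w l) (sum_q1 T w hw l)))
    (mu nu : Sg m → ℤ) (hnu : ∑ b, nu b = 2 * T)
    (hmu0 : ∀ b, 0 ≤ mu b) (hnu0 : ∀ b, 0 ≤ nu b) (hmn : ∀ b, mu b + nu b < T)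
    (N : ℤ) (hN : T * ((m : ℤ) + 1) + ∑ b, mu b = 2 * T * N)
    (E : Sg m → R →+ R) (hlin : ∀ a x u, E a (x ^ q * u) = x ^ q * E a u)
    (hpole : ∀ a, ∀ u ∈ polesIn B {a}, E a u ∈ polesIn B {a})
    (hdiff : ∀ a b u, E b u - E a u = Dl B T mu nu hnu b u - Dl B T mu nu hnu a u) : False := by
  classical
  have hTne : T ≠ 0 := hT.ne'
  set a0 : Sg m := (0, 0) with ha0
  set b0 : Sg m := (0, 1) with hb0
  have hab : a0 ≠ b0 := by
    rw [ha0, hb0]
    intro h
    have := congrArg Prod.snd h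
    simp at this
  -- the global operator
  let Th : R → R := fun u => E a0 u - Dl B T mu nu hnu a0 u
  have hTh : ∀ a u, Th u = E a u - Dl B T mu nu hnu a u := by
    intro a u
    have := hdiff a0 a u
    change E a0 u - Dl B T mu nu hnu a0 u = _
    linear_combination -this
  have hThadd : ∀ u u', Th (u + u') = Th u + Th u' := by
    intro u u'
    change E a0 (u + u') - Dl B T mu nu hnu a0 (u + u') = _
    rw [map_add, map_add]
    change _ = (E a0 u - Dl B T mu nu hnu a0 u) + (E a0 u' - Dl B T mu nu hnu a0 u')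
    ring
  let ThH : R →+ R := AddMonoidHom.mk' Th hThadd
  have hpoles : ∀ a, ∀ u ∈ polesIn B {a}, Th u ∈ polesIn B {a} := by
    intro a u hu
    rw [hTh a u]
    exact sub_mem (hpole a u hu)
      (Dl_poles T hT mu nu hnu hmu0 hnu0 hmn a {a} (Set.mem_singleton a) u hu)
  have hT0 : ∀ (w : Sg m → ℤ) (hw : ∑ b, w b = 0) (u : R),
      Th (B (ex0 (qu T w) (sum_qu T w hw)) * u) = B (ex0 (qu T w) (sum_qu T w hw)) * Th u := by
    intro w hw u
    have h1 := hlin a0 (B (ex0 w hw)) u
    rw [hq0 w hw] at h1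
    change E a0 _ - Dl B T mu nu hnu a0 _ = _ * (E a0 u - Dl B T mu nu hnu a0 u)
    rw [h1, Dl_mul0 hB T hTne mu nu hnu a0 w hw, mul_sub]
  have hT1 : ∀ (w : Sg m → ℤ) (hw : ∑ b, w b = -1) (i : Expo (Sg m)), Par T mu i →
      Th ((∑ l : Fin (m + 1), B (ex0 (q1 T w l) (sum_q1 T w hw l))) * B i) =
        (∑ l : Fin (m + 1), B (ex0 (q1 T w l) (sum_q1 T w hw l))) * Th (B i) -
          B (i.shift (q2 T nu w) (sum_q2 T nu w hnu hw)) := by
    intro w hw i hi
    have h1 := hlin a0 (B (ex1 w hw)) (B i)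
    rw [hq1 w hw] at h1
    change E a0 _ - Dl B T mu nu hnu a0 _ = _ * (E a0 _ - Dl B T mu nu hnu a0 _) - _
    rw [h1, Dl_mul1 hB T hTne mu nu hnu a0 w hw, if_pos hi]
    ring
  -- the exponents
  have hv0 := sum_v0 T mu N hN
  have hw1 : ∑ b, (fun b => - ed a0 b : Sg m → ℤ) b = -1 := by
    simp only [Finset.sum_neg_distrib, sum_ed]
  set w1 : Sg m → ℤ := fun b => - ed a0 b with hw1def
  have hsv1 : ∀ l : Fin (m + 1),
      ∑ b, (fun b => v0 T mu N b - T * ed (l, 0) b + T * ed (l, 1) b : Sg m → ℤ) b = 0 := by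
    intro l
    simp only
    rw [Finset.sum_add_distrib, Finset.sum_sub_distrib, ← Finset.mul_sum, ← Finset.mul_sum,
      sum_ed, sum_ed, hv0]
    ring
  have hst : ∀ l : Fin (m + 1), ∑ b, (fun b => ed (l, 0) b - ed a0 b : Sg m → ℤ) b = 0 := by
    intro l
    simp only
    rw [Finset.sum_sub_distrib, sum_ed, sum_ed]
    norm_num
  have hsj : ∀ l : Fin (m + 1),
      ∑ b, (fun b => v0 T mu N b + nu b - 2 * T * ed (l, 0) b : Sg m → ℤ) b = 0 := by
    intro l
    simp only
    rw [Finset.sum_sub_distrib, Finset.sum_add_distrib, ← Finset.mul_sum, sum_ed, hv0, hnu]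
    ring
  have hsk : ∀ l : Fin (m + 1),
      ∑ b, (fun b => v0 T mu N b + nu b - T * pr l b : Sg m → ℤ) b = 0 := by
    intro l
    simp only
    rw [Finset.sum_sub_distrib, Finset.sum_add_distrib, ← Finset.mul_sum, sum_pr, hv0, hnu]
    ring
  have hPar : Par T mu (ex0 (v0 T mu N) hv0) := by
    refine ⟨rfl, ?_⟩
    intro b
    refine ⟨ix b - 2 * N * ed (0, 0) b, ?_⟩
    change v0 T mu N b - mu b = _
    unfold v0
    ring
  have key := hT1 w1 hw1 (ex0 (v0 T mu N) hv0) hPar
  set js : Expo (Sg m) := (ex0 (v0 T mu N) hv0).shift (q2 T nu w1) (sum_q2 T nu w1 hnu hw1) with hjs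
  -- the left hand side
  have hL : Th ((∑ l : Fin (m + 1), B (ex0 (q1 T w1 l) (sum_q1 T w1 hw1 l))) *
      B (ex0 (v0 T mu N) hv0)) = ∑ l : Fin (m + 1),
        B (ex0 (qu T (fun b => ed (l, 0) b - ed a0 b)) (sum_qu T _ (hst l))) *
          Th (B (ex0 (fun b => v0 T mu N b - T * ed (l, 0) b + T * ed (l, 1) b) (hsv1 l))) := by
    rw [Finset.sum_mul]
    change ThH _ = _
    rw [map_sum]
    apply Finset.sum_congr rfl
    intro l _
    change Th _ = _
    rw [← hT0 _ (hst l), hB.mul0, hB.mul0]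
    congr 2
    apply Expo.ext
    · funext b
      change v0 T mu N b + (2 * T * w1 b + T * pr l b) =
        (v0 T mu N b - T * ed (l, 0) b + T * ed (l, 1) b) + 2 * T * (ed (l, 0) b - ed a0 b)
      rw [pr_eq, hw1def]
      ring
    · rfl
  have hcL : ∀ l : Fin (m + 1), B.repr
      (B (ex0 (qu T (fun b => ed (l, 0) b - ed a0 b)) (sum_qu T _ (hst l))) *
          Th (B (ex0 (fun b => v0 T mu N b - T * ed (l, 0) b + T * ed (l, 1) b) (hsv1 l)))) js
        = 0 := by
    intro l
    have e1 : js = (ex0 (fun b => v0 T mu N b + nu b - 2 * T * ed (l, 0) b) (hsj l)).shift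
        (qu T (fun b => ed (l, 0) b - ed a0 b)) (sum_qu T _ (hst l)) := by
      apply Expo.ext
      · funext b
        change v0 T mu N b + (2 * T * w1 b + nu b) = (v0 T mu N b + nu b - 2 * T * ed (l, 0) b) +
          2 * T * (ed (l, 0) b - ed a0 b)
        rw [hw1def]
        ring
      · rfl
    rw [e1, repr_shift hB]
    by_cases hl : l = 0
    · subst hl
      have hsr : ∑ b, (fun b => N * (ed a0 b - ed b0 b) : Sg m → ℤ) b = 0 := by
        simp only
        rw [← Finset.mul_sum, Finset.sum_sub_distrib, sum_ed, sum_ed, sub_self, mul_zero]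
      rw [← repr_shift hB (qu T (fun b => N * (ed a0 b - ed b0 b))) (sum_qu T _ hsr),
        ← hT0 _ hsr, hB.mul0]
      apply repr_of_polesIn {b0} _ _ _ a0
      · change (v0 T mu N a0 + nu a0 - 2 * T * ed (0, 0) a0) +
          2 * T * (N * (ed a0 a0 - ed b0 a0)) < 0
        have h1 := hmn a0
        unfold v0
        rw [← ha0, ed_self, ed_ne b0 a0 hab, ha0, ix_zero, ← ha0]
        linarith
      · exact hab
      · apply hpoles
        apply Submodule.subset_span
        refine ⟨_, ?_, rfl⟩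
        intro b hb
        rw [Set.mem_singleton_iff]
        by_contra hbb
        change (v0 T mu N b - T * ed (0, 0) b + T * ed (0, 1) b) +
          2 * T * (N * (ed a0 b - ed b0 b)) < 0 at hb
        unfold v0 at hb
        rw [← ha0, ← hb0, ed_ne b0 b hbb] at hb
        have h1 := hmu0 b
        by_cases hba : b = a0
        · rw [hba, ed_self, ha0, ix_zero, ← ha0] at hb
          rw [hba] at h1
          linarith
        · rw [ed_ne a0 b hba] at hb
          have h2 := mul_nonneg hT.le (ix_nonneg b)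
          linarith
    · have hla : ((l, 0) : Sg m) ≠ a0 := by
        rw [ha0]
        intro h
        exact hl (congrArg Prod.fst h)
      apply repr_of_polesIn {a0} _ _ _ (l, 0)
      · change v0 T mu N (l, 0) + nu (l, 0) - 2 * T * ed (l, 0) (l, 0) < 0
        have h1 := hmn (l, 0)
        unfold v0
        rw [← ha0, ed_self, ed_ne a0 _ hla, ix_zero]
        linarith
      · exact hla
      · apply hpoles
        apply Submodule.subset_span
        refine ⟨_, ?_, rfl⟩
        intro b hb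
        rw [Set.mem_singleton_iff]
        by_contra hba
        change v0 T mu N b - T * ed (l, 0) b + T * ed (l, 1) b < 0 at hb
        unfold v0 at hb
        rw [← ha0, ed_ne a0 b hba] at hb
        have h1 := hmu0 b
        have h2 := mul_nonneg hT.le (ix_nonneg b)
        have h3 := mul_nonneg hT.le (ed_nonneg ((l, 1) : Sg m) b)
        by_cases hbl : b = (l, 0)
        · rw [hbl, ed_self, ix_zero] at hb
          rw [hbl] at h1 h3
          linarith
        · rw [ed_ne _ b hbl] at hb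
          linarith
  have hcR : ∀ l : Fin (m + 1), B.repr (B (ex0 (q1 T w1 l) (sum_q1 T w1 hw1 l)) *
      Th (B (ex0 (v0 T mu N) hv0))) js = 0 := by
    intro l
    have e1 : js = (ex0 (fun b => v0 T mu N b + nu b - T * pr l b) (hsk l)).shift
        (q1 T w1 l) (sum_q1 T w1 hw1 l) := by
      apply Expo.ext
      · funext b
        change v0 T mu N b + (2 * T * w1 b + nu b) = (v0 T mu N b + nu b - T * pr l b) +
          (2 * T * w1 b + T * pr l b)
        ring
      · rfl
    rw [e1, repr_shift hB]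
    have hla : ((l, 1) : Sg m) ≠ a0 := by
      rw [ha0]
      intro h
      have := congrArg Prod.snd h
      simp at this
    apply repr_of_polesIn {a0} _ _ _ (l, 1)
    · change v0 T mu N (l, 1) + nu (l, 1) - T * pr l (l, 1) < 0
      have h1 := hmn (l, 1)
      unfold v0 pr
      rw [← ha0, ed_ne a0 _ hla, ix_one, if_pos rfl]
      linarith
    · exact hla
    · apply hpoles
      apply Submodule.subset_span
      refine ⟨_, ?_, rfl⟩
      intro b hb
      rw [Set.mem_singleton_iff]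
      by_contra hba
      change v0 T mu N b < 0 at hb
      unfold v0 at hb
      rw [← ha0, ed_ne a0 b hba] at hb
      have h1 := hmu0 b
      have h2 := mul_nonneg hT.le (ix_nonneg b)
      linarith
  rw [hL] at key
  have key2 := congrArg (fun x => B.repr x js) key
  simp only [map_sub, map_sum, Finsupp.sub_apply, Finsupp.finsetSum_apply, Finset.sum_mul, hcL, hcR,
    Finset.sum_const_zero] at key2
  rw [Module.Basis.repr_self, Finsupp.single_eq_same] at key2
  norm_num at key2

theorem no_split (hB : Mult B) (s : ℕ) (mu nu : Sg m → ℤ) (hnu : ∑ b, nu b = 2 * 2 ^ s)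
    (hmu0 : ∀ b, 0 ≤ mu b) (hnu0 : ∀ b, 0 ≤ nu b) (hmn : ∀ b, mu b + nu b < 2 ^ s)
    (N : ℤ) (hN : 2 ^ s * ((m : ℤ) + 1) + ∑ b, mu b = 2 * 2 ^ s * N)
    (E : Sg m → R →+ R)
    (hlin : ∀ a x u, E a (x ^ 2 ^ (s + 1) * u) = x ^ 2 ^ (s + 1) * E a u)
    (hpole : ∀ a, ∀ u ∈ polesIn B {a}, E a u ∈ polesIn B {a})
    (hdiff : ∀ a b u, E b u - E a u =
      Dl B (2 ^ s) mu nu hnu b u - Dl B (2 ^ s) mu nu hnu a u) : False :=
  no_split_T hB (2 ^ s) (by positivity) (2 ^ (s + 1)) (powq_ex0 hB s) (powq_ex1 hB s) mu nu hnu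
    hmu0 hnu0 hmn N hN E hlin hpole hdiff

end core

end Pool.Agent.H17DA
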