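import Pool.Agent.H17DA.Stm

set_option autoImplicit false

namespace Pool.Agent.H17DA

open Finset

universe u v

section

variable {τ : Type u} [LinearOrder τ]

theorem sgn_erase_lt (T : Finset τ) {a b : τ} (hb : b ∈ T) (h : b < a) :
    DMod.sgn (T.erase b) a = - DMod.sgn T a := by
  unfold DMod.sgn
  have h1 : (T.erase b).filter (· < a) = (T.filter (· < a)).erase b := by
    rw [Finset.filter_erase]
  have h2 : b ∈ T.filter (· < a) := by
    rw [Finset.mem_filter]
    exact ⟨hb, h⟩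
  have h3 : (T.filter (· < a)).card = ((T.filter (· < a)).erase b).card + 1 := by
    rw [Finset.card_erase_of_mem h2]
    have := Finset.card_pos.mpr ⟨b, h2⟩
    omega
  rw [h1, h3, pow_succ]
  ring

theorem sgn_erase_not_lt (T : Finset τ) {a b : τ} (h : ¬ b < a) :
    DMod.sgn (T.erase b) a = DMod.sgn T a := by
  unfold DMod.sgn
  have h1 : (T.erase b).filter (· < a) = T.filter (· < a) := by
    rw [Finset.filter_erase, Finset.erase_eq_of_notMem]
    rw [Finset.mem_filter]
    exact fun h' => h h'.2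
  rw [h1]

theorem sgn_mul_self (T : Finset τ) (a : τ) : DMod.sgn T a * DMod.sgn T a = 1 := by
  unfold DMod.sgn
  rw [← mul_pow]
  norm_num

theorem sgn_swap (T : Finset τ) {a b : τ} (ha : a ∈ T) (hb : b ∈ T) (hab : a ≠ b) :
    DMod.sgn (T.erase a) b * DMod.sgn (T.erase b) a = - (DMod.sgn T a * DMod.sgn T b) := by
  rcases lt_or_gt_of_ne hab with h | h
  · rw [sgn_erase_lt T ha h, sgn_erase_not_lt T (not_lt.mpr h.le)]
    ring
  · rw [sgn_erase_lt T hb h, sgn_erase_not_lt T (not_lt.mpr h.le)]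
    ring

theorem sgn_anti (T : Finset τ) {a b : τ} (ha : a ∈ T) (hb : b ∈ T) (hab : a ≠ b) :
    DMod.sgn T a * DMod.sgn (T.erase a) b = - (DMod.sgn T b * DMod.sgn (T.erase b) a) := by
  rcases lt_or_gt_of_ne hab with h | h
  · rw [sgn_erase_lt T ha h, sgn_erase_not_lt T (not_lt.mpr h.le)]
    ring
  · rw [sgn_erase_lt T hb h, sgn_erase_not_lt T (not_lt.mpr h.le)]
    ring

end

namespace DD

theorem t : DD.{u, v} := by
  intro τ _ A _ F T
  unfold cO
  simp only [Finset.smul_sum, smul_smul]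
  rw [Finset.sum_sigma']
  refine Finset.sum_involution (fun x _ => ⟨x.2, x.1⟩) ?_ ?_ ?_ ?_
  · rintro ⟨a, b⟩ h
    rw [Finset.mem_sigma, Finset.mem_erase] at h
    simp only at h ⊢
    rw [sgn_anti T h.1 h.2.2 (Ne.symm h.2.1), Finset.erase_right_comm, neg_smul]
    exact neg_add_cancel _
  · rintro ⟨a, b⟩ h _ h'
    rw [Finset.mem_sigma, Finset.mem_erase] at h
    exact h.2.1 (congrArg Sigma.fst h')
  · rintro ⟨a, b⟩ h
    rw [Finset.mem_sigma, Finset.mem_erase] at h ⊢
    exact ⟨h.2.2, Ne.symm h.2.1, h.1⟩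
  · rintro ⟨a, b⟩ _
    rfl

end DD

end Pool.Agent.H17DA
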