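import Pool.Agent.H824.DaffStmt

/-!
# `D`-modules on a projective variety in characteristic `p`, and `D`-affinity

`V` is a projective variety over a field `k` of characteristic `p`, and `c : τ → ι` a finite family
of homogeneous coordinates such that the affine open sets `U_a = {x_{c a} ≠ 0}` cover `V`. For
`S ⊆ τ` let `U_S` be the intersection of the `U_a`, `a ∈ S`; it is affine if `S` is nonempty, and
`V.regularOn c S` is its ring of functions `O(U_S)`. `V.OpenRing c` is the ring of functions `O(U)`
of the smallest of these open sets.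
-/

set_option autoImplicit false

namespace Pool.Agent.H17DA

open MvPolynomial Pool.Agent.H824

universe v

variable {k : Type*} [Field k] {ι τ : Type*} (V : ProjVariety k ι)

/-- The ring of the additive endomorphisms of `O(U)`. -/
abbrev Op (c : τ → ι) : Type _ := AddMonoid.End (V.OpenRing c)

/-- `δ` is linear over the `q`-th powers of the functions. -/
def PowLinear (c : τ → ι) (q : ℕ) (δ : Op V c) : Prop :=
  ∀ f g : V.OpenRing c, δ (f ^ q * g) = f ^ q * δ g

/-- `δ` maps `O(U_{S'})` to itself for all nonempty `S' ⊇ S`. -/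
def Preserves (c : τ → ι) (S : Set τ) (δ : Op V c) : Prop :=
  ∀ S' : Set τ, S ⊆ S' → S'.Nonempty →
    ∀ u : V.OpenRing c, u.val ∈ V.regularOn c S' → (δ u).val ∈ V.regularOn c S'

theorem powLinear_mono {c : τ → ι} {p : ℕ} {δ : Op V c} {e e' : ℕ} (h : e ≤ e')
    (hδ : PowLinear V c (p ^ e) δ) : PowLinear V c (p ^ e') δ := by
  obtain ⟨d, rfl⟩ := Nat.exists_eq_add_of_le h
  intro f g
  have : f ^ p ^ (e + d) = (f ^ p ^ d) ^ p ^ e := by
    rw [← pow_mul, ← pow_add, add_comm]
  rw [this, hδ]

/-- The ring `D(U_S)` of the differential operators on the open set `U_S`: the additive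
endomorphisms of `O(U)` that are linear over the `p ^ e`-th powers for some `e`, and map the functions
on `U_{S'}` to functions on `U_{S'}` for all the smaller (affine) open sets `U_{S'}`. For `S`
nonempty it is enough to ask the last condition for `S' = S`. For `S` empty these are the global
differential operators. -/
def diffRing (c : τ → ι) (p : ℕ) (S : Set τ) : Subring (Op V c) where
  carrier := {δ | (∃ e : ℕ, PowLinear V c (p ^ e) δ) ∧ Preserves V c S δ}
  mul_mem' := by
    rintro δ δ' ⟨⟨e, he⟩, h⟩ ⟨⟨e', he'⟩, h'⟩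
    refine ⟨⟨e + e', ?_⟩, fun S' hS hne u hu => h S' hS hne _ (h' S' hS hne u hu)⟩
    intro f g
    have h1 := powLinear_mono V (Nat.le_add_right e e') he
    have h2 := powLinear_mono V (Nat.le_add_left e' e) he'
    change δ (δ' _) = _ * δ (δ' _)
    rw [h2, h1]
  one_mem' := ⟨⟨0, fun _ _ => rfl⟩, fun _ _ _ _ hu => hu⟩
  add_mem' := by
    rintro δ δ' ⟨⟨e, he⟩, h⟩ ⟨⟨e', he'⟩, h'⟩
    refine ⟨⟨e + e', ?_⟩, fun S' hS hne u hu => add_mem (h S' hS hne u hu) (h' S' hS hne u hu)⟩
    intro f g
    have h1 := powLinear_mono V (Nat.le_add_right e e') he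
    have h2 := powLinear_mono V (Nat.le_add_left e' e) he'
    change δ _ + δ' _ = _ * (δ _ + δ' _)
    rw [h2, h1, mul_add]
  zero_mem' := by
    refine ⟨⟨0, fun f g => ?_⟩, fun _ _ _ _ _ => zero_mem _⟩
    change (0 : V.OpenRing c) = _ * (0 : V.OpenRing c)
    rw [mul_zero]
  neg_mem' := by
    rintro δ ⟨⟨e, he⟩, h⟩
    refine ⟨⟨e, ?_⟩, fun S' hS hne u hu => neg_mem (h S' hS hne u hu)⟩
    intro f g
    change -δ _ = _ * (-δ _)
    rw [he, mul_neg]

/-- The sheaf `D^(e) = End_{O^q}(O)`, `q = p ^ e`: the group of its sections on `U_S`. -/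
def levelGroup (c : τ → ι) (q : ℕ) (S : Set τ) : AddSubgroup (Op V c) where
  carrier := {δ | PowLinear V c q δ ∧ Preserves V c S δ}
  zero_mem' := by
    refine ⟨fun f g => ?_, fun _ _ _ _ _ => zero_mem _⟩
    change (0 : V.OpenRing c) = _ * (0 : V.OpenRing c)
    rw [mul_zero]
  add_mem' := by
    rintro δ δ' ⟨he, h⟩ ⟨he', h'⟩
    refine ⟨fun f g => ?_, fun S' hS hne u hu => add_mem (h S' hS hne u hu) (h' S' hS hne u hu)⟩
    change δ _ + δ' _ = _ * (δ _ + δ' _)
    rw [he, he', mul_add]
  neg_mem' := by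
    rintro δ ⟨he, h⟩
    refine ⟨fun f g => ?_, fun S' hS hne u hu => neg_mem (h S' hS hne u hu)⟩
    change -δ _ = _ * (-δ _)
    rw [he, mul_neg]

/-- The first Čech cohomology group of the sheaf `D^(e)`, `q = p ^ e`, for the covering of `V` by the
`U_a` is zero: every cocycle is a coboundary. -/
def LevelH1Zero (c : τ → ι) (q : ℕ) : Prop :=
  ∀ f : τ → τ → Op V c, (∀ a b, f a b ∈ levelGroup V c q {a, b}) →
    (∀ a b d, f b d - f a d + f a b = 0) →
      ∃ g : τ → Op V c, (∀ a, g a ∈ levelGroup V c q {a}) ∧ ∀ a b, f a b = g b - g a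

/-- `V` is globally `F`-split: there is a `p⁻¹`-linear map `σ : O → O` of sheaves with
`σ 1 = 1`. -/
def FSplit (c : τ → ι) (p : ℕ) : Prop :=
  ∃ σ : Op V c, (∀ f g : V.OpenRing c, σ (f ^ p * g) = f * σ g) ∧ σ 1 = 1 ∧ Preserves V c ∅ σ

/-- The inclusion `D(U_S) ⊆ D(U_{S'})`. -/
def incl (c : τ → ι) (p : ℕ) {S S' : Set τ} (h : S ⊆ S') (δ : diffRing V c p S) :
    diffRing V c p S' :=
  ⟨δ.1, δ.2.1, fun S'' h' => δ.2.2 S'' (h.trans h')⟩

/-- The function `x_{c b} / x_{c a}` on `U`. -/
noncomputable def ratio (c : τ → ι) (b a : τ) : V.OpenRing c :=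
  (⟨V.el (X (c b)) / V.el (X (c a)),
    Algebra.subset_adjoin ⟨c b, a, Set.mem_univ a, rfl⟩⟩ : V.regularOn c Set.univ)

/-- The multiplication by `x_{c b} / x_{c a}`, a differential operator (of order zero) on `U_S` if
`a ∈ S`. -/
noncomputable def ratioOp (c : τ → ι) (p : ℕ) (b a : τ) {S : Set τ} (ha : a ∈ S) :
    diffRing V c p S :=
  ⟨AddMonoidHom.mulLeft (ratio V c b a),
    ⟨0, fun f g => by
      change ratio V c b a * (f ^ p ^ 0 * g) = f ^ p ^ 0 * (ratio V c b a * g)
      ring⟩,
    fun S' hS _ u hu => by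
      change V.el (X (c b)) / V.el (X (c a)) * u.val ∈ V.regularOn c S'
      exact mul_mem (Algebra.subset_adjoin ⟨c b, a, hS ha, rfl⟩) hu⟩

/-- A `D`-module on `V`, quasi-coherent as an `O`-module, given by its groups of sections
`carrier S` on the open sets `U_S`, which are modules over `D(U_S)`, and the restrictions. The
quasi-coherence says that the sections on `U_{S ∪ {b}}` are the localisation of those on the affine
open set `U_S` at the function `x_{c b} / x_{c a}`, `a ∈ S`. -/
structure DMod (c : τ → ι) (p : ℕ) where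
  /-- the sections on `U_S` -/
  carrier : Set τ → Type v
  /-- the addition -/
  [grp : ∀ S, AddCommGroup (carrier S)]
  /-- the action of the differential operators -/
  [mod : ∀ S, Module (diffRing V c p S) (carrier S)]
  /-- the restriction -/
  res : ∀ {S S' : Set τ}, S ⊆ S' → carrier S →+ carrier S'
  res_self : ∀ {S : Set τ} (h : S ⊆ S) (x : carrier S), res h x = x
  res_res : ∀ {S S' S'' : Set τ} (h : S ⊆ S') (h' : S' ⊆ S'') (x : carrier S),
    res h' (res h x) = res (h.trans h') x
  res_smul : ∀ {S S' : Set τ} (h : S ⊆ S') (δ : diffRing V c p S) (x : carrier S),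
    res h (δ • x) = incl V c p h δ • res h x
  loc_surj : ∀ (S : Set τ) (a b : τ) (ha : a ∈ S) (x : carrier (insert b S)),
    ∃ (n : ℕ) (y : carrier S), res (Set.subset_insert b S) y =
      ratioOp V c p b a (Set.mem_insert_of_mem b ha) ^ n • x
  loc_inj : ∀ (S : Set τ) (a b : τ) (ha : a ∈ S) (x : carrier S),
    res (Set.subset_insert b S) x = 0 → ∃ n : ℕ, ratioOp V c p b a ha ^ n • x = 0

attribute [instance] DMod.grp DMod.mod

namespace DMod

variable {V} {c : τ → ι} {p : ℕ} (M : DMod.{v} V c p)

/-- The global sections. -/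
def GlobalSection : Type _ :=
  {s : ∀ a : τ, M.carrier {a} // ∀ a b : τ,
    M.res (S' := {a, b}) (by simp) (s a) = M.res (S' := {a, b}) (by simp) (s b)}

/-- The module is generated by its global sections: on each `U_a`, every section is a combination of
global sections with coefficients in `D(U_a)`. -/
def Generated : Prop :=
  ∀ (a : τ) (x : M.carrier {a}),
    x ∈ Submodule.span (diffRing V c p {a}) (Set.range fun s : M.GlobalSection => s.1 a)

variable [LinearOrder τ]

/-- The sign `(-1) ^ j`, if `a` is the `j`-th element of `T` (starting from zero). -/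
def sgn (T : Finset τ) (a : τ) : ℤ := (-1) ^ (T.filter (· < a)).card

/-- The Čech differential: for a family `f` of sections on the `U_T`, and `T = {a_0 < … < a_n}`, the
sum of the `(-1) ^ j f (T \ {a_j})` on `U_T`. -/
def cechDiff (f : ∀ T : Finset τ, M.carrier (T : Set τ)) (T : Finset τ) : M.carrier (T : Set τ) :=
  ∑ a ∈ T, sgn T a • M.res (Finset.coe_subset.mpr (Finset.erase_subset a T)) (f (T.erase a))

/-- The `i`-th Čech cohomology group is zero, `i ≥ 1`: a family of sections on the open sets `U_T`,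
with `T` of `i + 1` elements, whose differential is zero is a differential. -/
def HZero (i : ℕ) : Prop :=
  ∀ f : ∀ T : Finset τ, M.carrier (T : Set τ),
    (∀ T : Finset τ, T.card = i + 2 → M.cechDiff f T = 0) →
      ∃ g : ∀ T : Finset τ, M.carrier (T : Set τ),
        ∀ T : Finset τ, T.card = i + 1 → M.cechDiff g T = f T

end DMod

/-- `V` is `D`-affine: every `D`-module, quasi-coherent as an `O`-module, is generated by its global
sections and has no higher cohomology. -/
def IsDAffine [LinearOrder τ] (c : τ → ι) (p : ℕ) : Prop :=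
  ∀ M : DMod.{v} V c p, M.Generated ∧ ∀ i : ℕ, 1 ≤ i → M.HZero i

end Pool.Agent.H17DA
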