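import Pool.Agent.H17DA.Stm

/-!
# Sections of a quasi-coherent `D`-module extend to sections of a twist
-/

set_option autoImplicit false

namespace Pool.Agent.H17DA.EXT

open Pool.Agent.H824 Finset MvPolynomial

universe u v w x

variable {k : Type u} [Field k] {ι : Type v} {τ : Type w} {V : ProjVariety k ι} {c : τ → ι} {p : ℕ}

theorem incl_ratioOp (b a : τ) {S S' : Set τ} (h : S ⊆ S') (ha : a ∈ S) :
    incl V c p h (ratioOp V c p b a ha) = ratioOp V c p b a (h ha) := rfl

theorem incl_pow {S S' : Set τ} (h : S ⊆ S') (δ : diffRing V c p S) (n : ℕ) :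
    incl V c p h (δ ^ n) = incl V c p h δ ^ n := by
  apply Subtype.ext
  rw [SubmonoidClass.coe_pow]
  change ((δ ^ n : diffRing V c p S) : Op V c) = _
  rw [SubmonoidClass.coe_pow]
  rfl

theorem ratio_mul (hne : ∀ a, V.el (X (c a)) ≠ 0) (a b d : τ) :
    ratio V c b d * ratio V c a b = ratio V c a d := by
  apply Subtype.ext
  change V.el (X (c b)) / V.el (X (c d)) * (V.el (X (c a)) / V.el (X (c b))) =
    V.el (X (c a)) / V.el (X (c d))
  have := hne b
  have := hne d
  field_simp

theorem ratio_self (hne : ∀ a, V.el (X (c a)) ≠ 0) (a : τ) : ratio V c a a = 1 := by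
  apply Subtype.ext
  change V.el (X (c a)) / V.el (X (c a)) = 1
  exact div_self (hne a)

theorem ratioOp_mul (hne : ∀ a, V.el (X (c a)) ≠ 0) (a b d : τ) {S : Set τ} (hb : b ∈ S)
    (hd : d ∈ S) : ratioOp V c p b d hd * ratioOp V c p a b hb = ratioOp V c p a d hd := by
  apply Subtype.ext
  apply AddMonoidHom.ext
  intro u
  change ratio V c b d * (ratio V c a b * u) = ratio V c a d * u
  rw [← mul_assoc, ratio_mul hne]

theorem ratioOp_comm (a b d e : τ) {S : Set τ} (hb : b ∈ S) (hd : d ∈ S) :
    Commute (ratioOp V c p a b hb) (ratioOp V c p e d hd) := by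
  apply Subtype.ext
  apply AddMonoidHom.ext
  intro u
  change ratio V c a b * (ratio V c e d * u) = ratio V c e d * (ratio V c a b * u)
  rw [← mul_assoc, ← mul_assoc, mul_comm (ratio V c a b)]

theorem ratioOp_self (hne : ∀ a, V.el (X (c a)) ≠ 0) (a : τ) {S : Set τ} (ha : a ∈ S) :
    ratioOp V c p a a ha = 1 := by
  apply Subtype.ext
  apply AddMonoidHom.ext
  intro u
  change ratio V c a a * u = u
  rw [ratio_self hne, one_mul]

theorem res_pow (M : DMod.{x} V c p) (b a : τ) {S S' : Set τ} (h : S ⊆ S') (ha : a ∈ S) (n : ℕ)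
    (z : M.carrier S) : M.res h (ratioOp V c p b a ha ^ n • z) =
      ratioOp V c p b a (h ha) ^ n • M.res h z := by
  rw [M.res_smul, incl_pow, incl_ratioOp]

theorem ext_aux [Finite τ] (hne : ∀ a, V.el (X (c a)) ≠ 0) (M : DMod.{x} V c p) :
    Extends M := by
  classical
  intro a z
  have hfin := Fintype.ofFinite τ
  -- the first step
  have h1 : ∀ b : τ, ∃ (n : ℕ) (y : M.carrier {b}), M.res (Set.subset_insert a {b}) y =
      ratioOp V c p a b (Set.mem_insert_of_mem a (Set.mem_singleton b)) ^ n •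
        M.res (Set.singleton_subset_iff.mpr (Set.mem_insert a {b})) z :=
    fun b => M.loc_surj {b} b a (Set.mem_singleton b) _
  choose nb yb hyb using h1
  set n := Finset.univ.sup nb with hn
  have hnb : ∀ b, nb b ≤ n := fun b => Finset.le_sup (Finset.mem_univ b)
  obtain ⟨y', hy1⟩ : ∃ y' : ∀ b, M.carrier {b}, ∀ b : τ, M.res (Set.subset_insert a {b}) (y' b) =
      ratioOp V c p a b (Set.mem_insert_of_mem a (Set.mem_singleton b)) ^ n •
        M.res (Set.singleton_subset_iff.mpr (Set.mem_insert a {b})) z := by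
    refine ⟨fun b => ratioOp V c p a b (Set.mem_singleton b) ^ (n - nb b) • yb b, fun b => ?_⟩
    rw [res_pow, hyb, smul_smul, ← pow_add, Nat.sub_add_cancel (hnb b)]
  -- the second step
  have hsb : ∀ b d : τ, ({b} : Set τ) ⊆ {b, d} := fun b d => by simp
  have hsd : ∀ b d : τ, ({d} : Set τ) ⊆ {b, d} := fun b d => by simp
  have hmd : ∀ b d : τ, d ∈ ({b, d} : Set τ) := fun b d => by simp
  have hmb : ∀ b d : τ, b ∈ ({b, d} : Set τ) := fun b d => by simp
  have h2 : ∀ b d : τ, ∃ N : ℕ, ratioOp V c p a d (hmd b d) ^ N •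
      (M.res (hsd b d) (y' d) - ratioOp V c p b d (hmd b d) ^ n • M.res (hsb b d) (y' b)) = 0 := by
    intro b d
    apply M.loc_inj {b, d} d a (hmd b d)
    have i1 : insert a ({d} : Set τ) ⊆ insert a {b, d} := Set.insert_subset_insert (hsd b d)
    have i2 : insert a ({b} : Set τ) ⊆ insert a {b, d} := Set.insert_subset_insert (hsb b d)
    have e1 : M.res (Set.subset_insert a {b, d}) (M.res (hsd b d) (y' d)) =
        ratioOp V c p a d (Set.mem_insert_of_mem a (hmd b d)) ^ n •
          M.res (Set.singleton_subset_iff.mpr (Set.mem_insert a {b, d})) z := by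
      rw [M.res_res, ← M.res_res (Set.subset_insert a {d}) i1, hy1 d, res_pow, M.res_res]
    have e2 : M.res (Set.subset_insert a {b, d}) (M.res (hsb b d) (y' b)) =
        ratioOp V c p a b (Set.mem_insert_of_mem a (hmb b d)) ^ n •
          M.res (Set.singleton_subset_iff.mpr (Set.mem_insert a {b, d})) z := by
      rw [M.res_res, ← M.res_res (Set.subset_insert a {b}) i2, hy1 b, res_pow, M.res_res]
    rw [map_sub, res_pow, e1, e2, smul_smul, ← (ratioOp_comm _ _ _ _ _ _).mul_pow,
      ratioOp_mul hne, sub_self]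
  choose Nb hNb using h2
  set N := Finset.univ.sup (fun q : τ × τ => Nb q.1 q.2) with hN
  have hNbd : ∀ b d, Nb b d ≤ N := fun b d =>
    Finset.le_sup (f := fun q : τ × τ => Nb q.1 q.2) (Finset.mem_univ (b, d))
  have h3 : ∀ b d : τ, ratioOp V c p a d (hmd b d) ^ N • M.res (hsd b d) (y' d) =
      ratioOp V c p a d (hmd b d) ^ N • ratioOp V c p b d (hmd b d) ^ n •
        M.res (hsb b d) (y' b) := by
    intro b d
    have e := hNb b d
    have e' : ratioOp V c p a d (hmd b d) ^ (N - Nb b d) • ratioOp V c p a d (hmd b d) ^ Nb b d •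
      (M.res (hsd b d) (y' d) - ratioOp V c p b d (hmd b d) ^ n • M.res (hsb b d) (y' b)) = 0 := by
      rw [e, smul_zero]
    rw [smul_smul, ← pow_add, Nat.sub_add_cancel (hNbd b d), smul_sub, sub_eq_zero] at e'
    exact e'
  -- the third step
  refine ⟨n + N, fun b => ratioOp V c p a b (Set.mem_singleton b) ^ N • y' b, ?_, ?_⟩
  · change ratioOp V c p a a (Set.mem_singleton a) ^ N • y' a = z
    rw [ratioOp_self hne, one_pow, one_smul]
    have e := hy1 a
    rw [ratioOp_self hne, one_pow, one_smul] at e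
    have i : insert a ({a} : Set τ) ⊆ {a} := by simp
    have e' := congrArg (M.res i) e
    rw [M.res_res, M.res_res, M.res_self, M.res_self] at e'
    exact e'
  · intro b d
    change M.res _ (ratioOp V c p a d (Set.mem_singleton d) ^ N • y' d) =
      _ • M.res _ (ratioOp V c p a b (Set.mem_singleton b) ^ N • y' b)
    rw [res_pow, res_pow, h3 b d, smul_smul, smul_smul]
    congr 1
    rw [pow_add, mul_assoc, ← (ratioOp_comm _ _ _ _ _ _).mul_pow, ratioOp_mul hne]
    exact ((ratioOp_comm _ _ _ _ _ _).pow_pow _ _).eq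

theorem t : EXT.{u, v, w, x} := by
  intro k _ ι τ _ V c p hne M
  exact ext_aux hne M

end Pool.Agent.H17DA.EXT
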