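import Pool.Agent.H17DA.Stm

/-!
# The quadric is `F`-split, monomials
-/

set_option autoImplicit false
set_option linter.unusedSectionVars false

namespace Pool.Agent.H17DA.FS

open Pool.Agent.H824 Pool.Agent.H17DA Finset

universe u v

variable {m : ℕ}

section core

variable {k R : Type*} [Field k] [CharP k 2] [CommRing R] [CharP R 2] [Algebra k R]
  (B : Module.Basis (Expo (Sg m)) k R)

open Classical in
/-- the monomial, or zero -/
noncomputable def X0 (w : Sg m → ℤ) : R := if h : ∑ b, w b = 0 then B (ex0 w h) else 0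

open Classical in
/-- the monomial with `ζ`, or zero -/
noncomputable def X1 (w : Sg m → ℤ) : R := if h : ∑ b, w b = -1 then B (ex1 w h) else 0

/-- all the exponents are even -/
def Ev (w : Sg m → ℤ) : Prop := ∀ b, 2 ∣ w b

open Classical in
/-- the square root of a monomial -/
noncomputable def H0 (w : Sg m → ℤ) : R := if Ev w then X0 B (fun b => w b / 2) else 0

open Classical in
/-- `ζ` times the square root of a monomial -/
noncomputable def H1 (w : Sg m → ℤ) : R := if Ev w then X1 B (fun b => w b / 2) else 0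

variable {B}

theorem X0_pos (w : Sg m → ℤ) (h : ∑ b, w b = 0) : X0 B w = B (ex0 w h) := by
  unfold X0
  rw [dif_pos h]

theorem X1_pos (w : Sg m → ℤ) (h : ∑ b, w b = -1) : X1 B w = B (ex1 w h) := by
  unfold X1
  rw [dif_pos h]

theorem X0_neg (w : Sg m → ℤ) (h : ¬ ∑ b, w b = 0) : X0 B w = 0 := by
  unfold X0
  rw [dif_neg h]

theorem X1_neg (w : Sg m → ℤ) (h : ¬ ∑ b, w b = -1) : X1 B w = 0 := by
  unfold X1
  rw [dif_neg h]

theorem x00 (hB : Mult B) (w w' : Sg m → ℤ) (hw : ∑ b, w b = 0) :
    X0 B w * X0 B w' = X0 B (fun b => w b + w' b) := by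
  by_cases h : ∑ b, w' b = 0
  · have h2 : ∑ b, (w b + w' b) = 0 := by rw [Finset.sum_add_distrib, hw, h, add_zero]
    rw [X0_pos w hw, X0_pos w' h, X0_pos _ h2, hB.mul0]
    congr 1
    apply Expo.ext
    · funext b
      change w' b + w b = w b + w' b
      ring
    · rfl
  · have h2 : ¬ ∑ b, (w b + w' b) = 0 := by
      rw [Finset.sum_add_distrib, hw, zero_add]
      exact h
    rw [X0_neg w' h, X0_neg _ h2, mul_zero]

theorem x01 (hB : Mult B) (w w' : Sg m → ℤ) (hw : ∑ b, w b = 0) :
    X0 B w * X1 B w' = X1 B (fun b => w b + w' b) := by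
  by_cases h : ∑ b, w' b = -1
  · have h2 : ∑ b, (w b + w' b) = -1 := by rw [Finset.sum_add_distrib, hw, h, zero_add]
    rw [X0_pos w hw, X1_pos w' h, X1_pos _ h2, hB.mul0]
    congr 1
    apply Expo.ext
    · funext b
      change w' b + w b = w b + w' b
      ring
    · rfl
  · have h2 : ¬ ∑ b, (w b + w' b) = -1 := by
      rw [Finset.sum_add_distrib, hw, zero_add]
      exact h
    rw [X1_neg w' h, X1_neg _ h2, mul_zero]

theorem x10 (hB : Mult B) (w w' : Sg m → ℤ) (hw : ∑ b, w b = -1) :
    X1 B w * X0 B w' = X1 B (fun b => w b + w' b) := by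
  by_cases h : ∑ b, w' b = 0
  · rw [mul_comm, x01 hB w' w h]
    congr 1
    funext b
    ring
  · have h2 : ¬ ∑ b, (w b + w' b) = -1 := by
      rw [Finset.sum_add_distrib, hw]
      intro h3
      exact h (by linarith)
    rw [X0_neg w' h, X1_neg _ h2, mul_zero]

theorem x11 (hB : Mult B) (w w' : Sg m → ℤ) (hw : ∑ b, w b = -1) :
    X1 B w * X1 B w' = ∑ l : Fin (m + 1), X0 B (fun b => w b + w' b + pr l b) := by
  by_cases h : ∑ b, w' b = -1
  · rw [X1_pos w hw, X1_pos w' h, hB.mul1]
    apply Finset.sum_congr rfl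
    intro l _
    rw [X0_pos]
  · rw [X1_neg w' h, mul_zero]
    symm
    apply Finset.sum_eq_zero
    intro l _
    apply X0_neg
    rw [Finset.sum_add_distrib, Finset.sum_add_distrib, hw, sum_pr]
    intro h3
    exact h (by linarith)

theorem ev_add (w v : Sg m → ℤ) : Ev (fun b => 2 * w b + v b) ↔ Ev v := by
  unfold Ev
  apply forall_congr'
  intro b
  constructor
  · intro h
    simp only at h
    omega
  · intro h
    simp only
    omega

theorem half_add (w v : Sg m → ℤ) :
    (fun b => (2 * w b + v b) / 2) = fun b => w b + v b / 2 := by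
  funext b
  omega

theorem h00 (hB : Mult B) (w v : Sg m → ℤ) (hw : ∑ b, w b = 0) :
    X0 B w * H0 B v = H0 B (fun b => 2 * w b + v b) := by
  unfold H0
  by_cases h : Ev v
  · rw [if_pos h, if_pos ((ev_add w v).mpr h), x00 hB w _ hw, half_add]
  · rw [if_neg h, if_neg (fun h' => h ((ev_add w v).mp h')), mul_zero]

theorem h01 (hB : Mult B) (w v : Sg m → ℤ) (hw : ∑ b, w b = 0) :
    X0 B w * H1 B v = H1 B (fun b => 2 * w b + v b) := by
  unfold H1
  by_cases h : Ev v
  · rw [if_pos h, if_pos ((ev_add w v).mpr h), x01 hB w _ hw, half_add]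
  · rw [if_neg h, if_neg (fun h' => h ((ev_add w v).mp h')), mul_zero]

theorem h10 (hB : Mult B) (w v : Sg m → ℤ) (hw : ∑ b, w b = -1) :
    X1 B w * H0 B v = H1 B (fun b => 2 * w b + v b) := by
  unfold H0 H1
  by_cases h : Ev v
  · rw [if_pos h, if_pos ((ev_add w v).mpr h), x10 hB w _ hw, half_add]
  · rw [if_neg h, if_neg (fun h' => h ((ev_add w v).mp h')), mul_zero]

theorem h11 (hB : Mult B) (w v : Sg m → ℤ) (hw : ∑ b, w b = -1) :
    X1 B w * H1 B v = ∑ l : Fin (m + 1), H0 B (fun b => 2 * w b + v b + 2 * pr l b) := by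
  have hev : ∀ l : Fin (m + 1), Ev (fun b => 2 * w b + v b + 2 * pr l b) ↔ Ev v := by
    intro l
    unfold Ev
    apply forall_congr'
    intro b
    constructor
    · intro h
      simp only at h
      omega
    · intro h
      simp only
      omega
  unfold H1
  by_cases h : Ev v
  · rw [if_pos h, x11 hB w _ hw]
    apply Finset.sum_congr rfl
    intro l _
    unfold H0
    rw [if_pos ((hev l).mpr h)]
    congr 1
    funext b
    simp only
    omega
  · rw [if_neg h, mul_zero]
    symm
    apply Finset.sum_eq_zero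
    intro l _
    unfold H0
    rw [if_neg (fun h' => h ((hev l).mp h'))]

/-- a symmetric double sum in characteristic two -/
theorem sum_symm (n : ℕ) (F : Fin n → Fin n → R) (hF : ∀ i j, F i j = F j i) :
    ∑ i, ∑ j, F i j = ∑ i, F i i := by
  classical
  have h1 : ∀ i, ∑ j, F i j = F i i + ∑ j, if j = i then 0 else F i j := by
    intro i
    rw [← Finset.add_sum_erase Finset.univ (fun j => F i j) (Finset.mem_univ i)]
    congr 1
    rw [← Finset.add_sum_erase Finset.univ (fun j => if j = i then 0 else F i j)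
      (Finset.mem_univ i)]
    rw [if_pos rfl, zero_add]
    apply Finset.sum_congr rfl
    intro j hj
    rw [if_neg (Finset.ne_of_mem_erase hj)]
  simp only [h1]
  rw [Finset.sum_add_distrib]
  have h2 : ∑ i, ∑ j, (if j = i then 0 else F i j) = 0 := by
    rw [← Finset.sum_product']
    apply Finset.sum_involution (fun (x : Fin n × Fin n) _ => (x.2, x.1))
    · rintro ⟨i, j⟩ _
      simp only
      by_cases h : j = i
      · rw [if_pos h, if_pos h.symm, add_zero]
      · rw [if_neg h, if_neg (fun h' => h h'.symm), hF i j]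
        exact CharTwo.add_self_eq_zero _
    · rintro ⟨i, j⟩ _ hne heq
      simp only at hne heq
      have h3 : j = i := congrArg Prod.fst heq
      exact hne (if_pos h3)
    · rintro ⟨i, j⟩ _
      exact Finset.mem_univ _
    · rintro ⟨i, j⟩ _
      rfl
  rw [h2, add_zero]

variable (B)

/-- the splitting on the monomials without `ζ` -/
noncomputable def s0 (v : Sg m → ℤ) : R :=
  H1 B (fun b => v b - pr 0 b) + ∑ j : Fin (m + 1), H0 B (fun b => v b - pr 0 b + pr j b)

open Classical in
/-- the splitting on the monomials -/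
noncomputable def sE (i : Expo (Sg m)) : R := if i.e = 0 then s0 B i.v else 0

/-- the splitting -/
noncomputable def sg (ρ : k →+* k) : R →+ R :=
  (Finsupp.liftAddHom (fun i : Expo (Sg m) =>
    (AddMonoidHom.mk' (fun c : k => ρ c • sE B i) (fun a b => by
      rw [map_add, add_smul]) : k →+ R))).comp
    B.repr.toLinearMap.toAddMonoidHom

variable {B}

theorem sg_smul_basis (ρ : k →+* k) (c : k) (i : Expo (Sg m)) :
    sg B ρ (c • B i) = ρ c • sE B i := by
  unfold sg
  rw [AddMonoidHom.comp_apply]
  have h : B.repr.toLinearMap.toAddMonoidHom (c • B i) = Finsupp.single i c := by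
    change B.repr (c • B i) = _
    rw [map_smul, Module.Basis.repr_self, Finsupp.smul_single, smul_eq_mul, mul_one]
  rw [h, Finsupp.liftAddHom_apply_single]
  rfl

theorem sg_basis (ρ : k →+* k) (i : Expo (Sg m)) : sg B ρ (B i) = sE B i := by
  have h := sg_smul_basis (B := B) ρ 1 i
  rwa [one_smul, map_one, one_smul] at h

theorem sg_smul (ρ : k →+* k) (c : k) (u : R) : sg B ρ (c • u) = ρ c • sg B ρ u := by
  have hu : u ∈ Submodule.span k (Set.range B) := by
    rw [B.span_eq]
    trivial
  induction hu using Submodule.span_induction generalizing c with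
  | mem x hx =>
    obtain ⟨i, rfl⟩ := hx
    rw [sg_smul_basis, sg_basis]
  | zero => rw [smul_zero, map_zero, smul_zero]
  | add x y _ _ hx hy => rw [smul_add, map_add, map_add, smul_add, hx, hy]
  | smul c' x _ hx => rw [smul_smul, hx, hx c', map_mul, smul_smul]

theorem s0_mul0 (hB : Mult B) (w v : Sg m → ℤ) (hw : ∑ b, w b = 0) :
    s0 B (fun b => v b + w b + w b) = X0 B w * s0 B v := by
  unfold s0
  rw [mul_add, h01 hB w _ hw, Finset.mul_sum]
  congr 1
  · congr 1
    funext b
    ring
  · apply Finset.sum_congr rfl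
    intro j _
    rw [h00 hB w _ hw]
    congr 1
    funext b
    ring

theorem s0_mul1 (hB : Mult B) (w v : Sg m → ℤ) (hw : ∑ b, w b = -1) :
    ∑ l : Fin (m + 1), s0 B (fun b => v b + (w b + w b + pr l b)) = X1 B w * s0 B v := by
  unfold s0
  rw [Finset.sum_add_distrib, mul_add, h11 hB w _ hw, Finset.mul_sum]
  have e1 : ∑ l : Fin (m + 1), H1 B (fun b => v b + (w b + w b + pr l b) - pr 0 b) =
      ∑ j : Fin (m + 1), X1 B w * H0 B (fun b => v b - pr 0 b + pr j b) := by
    apply Finset.sum_congr rfl
    intro j _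
    rw [h10 hB w _ hw]
    congr 1
    funext b
    ring
  rw [e1, add_comm]
  congr 1
  have e2 := sum_symm (R := R) (m + 1) (fun l j =>
    H0 B (fun b => v b + (w b + w b + pr l b) - pr 0 b + pr j b)) (by
      intro i j
      congr 1
      funext b
      ring)
  rw [e2]
  apply Finset.sum_congr rfl
  intro l _
  congr 1
  funext b
  ring

theorem sg_sq_basis (hB : Mult B) (ρ : k →+* k) (j i : Expo (Sg m)) :
    sg B ρ (B j ^ 2 * B i) = B j * sg B ρ (B i) := by
  rcases expo_cases j with ⟨w, hw, rfl⟩ | ⟨w, hw, rfl⟩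
  · rw [pow_two, mul_assoc, hB.mul0, hB.mul0, sg_basis, sg_basis]
    unfold sE
    rw [shift_e, shift_e]
    by_cases h : i.e = 0
    · rw [if_pos h, if_pos h, ← X0_pos w hw, ← s0_mul0 hB w _ hw]
      rfl
    · rw [if_neg h, if_neg h, mul_zero]
  · rw [pow_two, hB.mul1, Finset.sum_mul, map_sum, sg_basis]
    have e : ∀ l : Fin (m + 1), sg B ρ (B (ex0 (fun b => w b + w b + pr l b) (by
        rw [Finset.sum_add_distrib, Finset.sum_add_distrib, hw, sum_pr]; norm_num)) * B i) =
        if i.e = 0 then s0 B (fun b => i.v b + (w b + w b + pr l b)) else 0 := by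
      intro l
      rw [hB.mul0, sg_basis]
      unfold sE
      rw [shift_e]
      rfl
    simp only [e]
    unfold sE
    by_cases h : i.e = 0
    · simp only [if_pos h]
      rw [s0_mul1 hB w _ hw, X1_pos w hw]
    · simp only [if_neg h]
      rw [mul_zero, Finset.sum_const_zero]

theorem sg_sq (hB : Mult B) (ρ : k →+* k) (hρ : ∀ c, ρ (c ^ 2) = c) (f g : R) :
    sg B ρ (f ^ 2 * g) = f * sg B ρ g := by
  have hf : f ∈ Submodule.span k (Set.range B) := by
    rw [B.span_eq]
    trivial
  induction hf using Submodule.span_induction generalizing g with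
  | mem x hx =>
    obtain ⟨j, rfl⟩ := hx
    have hg : g ∈ Submodule.span k (Set.range B) := by
      rw [B.span_eq]
      trivial
    induction hg using Submodule.span_induction with
    | mem x hx =>
      obtain ⟨i, rfl⟩ := hx
      exact sg_sq_basis hB ρ j i
    | zero => rw [mul_zero, map_zero, mul_zero]
    | add x y _ _ hx hy => rw [mul_add, map_add, hx, hy, map_add, mul_add]
    | smul c x _ hx => rw [mul_smul_comm, sg_smul, hx, sg_smul, mul_smul_comm]
  | zero => rw [zero_pow two_ne_zero, zero_mul, map_zero, zero_mul]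
  | add x y _ _ hx hy => rw [CharTwo.add_sq, add_mul, map_add, hx, hy, add_mul]
  | smul c x _ hx => rw [smul_pow, smul_mul_assoc, sg_smul, hρ, hx, smul_mul_assoc]

theorem one_eq (hB : Mult B) : (1 : R) = X0 B (fun _ => 0) := by
  have h0 : ∑ b : Sg m, (fun _ => (0 : ℤ)) b = 0 := by simp
  have h2 : ∑ b : Sg m, (((0 : ℕ) : ℤ) * (fun _ => (0 : ℤ)) b) = 0 := by simp
  have h := pow_ex0 hB (fun _ => (0 : ℤ)) h0 0 h2
  rw [pow_zero] at h
  rw [h, X0_pos _ h0]
  congr 1

theorem sE_ex0 (w : Sg m → ℤ) (hw : ∑ b, w b = 0) : sE B (ex0 w hw) = s0 B w := by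
  unfold sE
  exact if_pos rfl

theorem sg_one (hB : Mult B) (ρ : k →+* k) : sg B ρ 1 = 1 := by
  have h0 : ∑ b : Sg m, (fun _ => (0 : ℤ)) b = 0 := by simp
  have e0 : (1 : R) = B (ex0 (fun _ => 0) h0) := by rw [one_eq hB, X0_pos]
  rw [e0, sg_basis, sE_ex0]
  unfold s0
  have hp0 : pr (m := m) 0 (0, 0) = 1 := by
    unfold pr
    rw [if_pos rfl]
  have e1 : H1 B (fun b => 0 - pr 0 b) = 0 := by
    unfold H1
    rw [if_neg]
    intro h
    have h1 := h (0, 0)
    simp only at h1
    rw [hp0] at h1
    omega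
  rw [e1, zero_add, Finset.sum_eq_single 0]
  · unfold H0
    rw [if_pos, X0_pos _ (by simp)]
    · congr 1
      apply Expo.ext
      · funext b
        change (0 - pr 0 b + pr 0 b) / 2 = 0
        simp
      · rfl
    · intro b
      simp
  · intro j _ hj
    unfold H0
    rw [if_neg]
    intro h
    have h1 := h (0, 0)
    have h2 : pr (m := m) j (0, 0) = 0 := by
      unfold pr
      rw [if_neg]
      intro h3
      exact hj h3.symm
    simp only at h1
    rw [hp0, h2] at h1
    omega
  · intro h
    exact absurd (Finset.mem_univ _) h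

theorem pr_bound (l : Fin (m + 1)) (b : Sg m) : 0 ≤ pr l b ∧ pr l b ≤ 1 := by
  unfold pr
  split_ifs <;> norm_num

theorem X0_poles (S : Set (Sg m)) (w : Sg m → ℤ) (h : ∀ b, w b < 0 → b ∈ S) :
    X0 B w ∈ polesIn B S := by
  by_cases hw : ∑ b, w b = 0
  · rw [X0_pos w hw]
    apply Submodule.subset_span
    refine ⟨_, ?_, rfl⟩
    exact h
  · rw [X0_neg w hw]
    exact zero_mem _

theorem X1_poles (S : Set (Sg m)) (w : Sg m → ℤ) (h : ∀ b, w b < 0 → b ∈ S) :
    X1 B w ∈ polesIn B S := by
  by_cases hw : ∑ b, w b = -1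
  · rw [X1_pos w hw]
    apply Submodule.subset_span
    refine ⟨_, ?_, rfl⟩
    exact h
  · rw [X1_neg w hw]
    exact zero_mem _

theorem s0_poles (S : Set (Sg m)) (v : Sg m → ℤ) (h : ∀ b, v b < 0 → b ∈ S) :
    s0 B v ∈ polesIn B S := by
  unfold s0
  apply add_mem
  · unfold H1
    split_ifs with he
    · apply X1_poles
      intro b hb
      apply h
      have h1 := he b
      have h2 := pr_bound 0 b
      simp only at h1 hb
      omega
    · exact zero_mem _
  · apply sum_mem
    intro j _
    unfold H0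
    split_ifs with he
    · apply X0_poles
      intro b hb
      apply h
      have h1 := he b
      have h2 := pr_bound 0 b
      have h3 := pr_bound j b
      simp only at h1 hb
      omega
    · exact zero_mem _

theorem sg_poles (ρ : k →+* k) (S : Set (Sg m)) (u : R) (hu : u ∈ polesIn B S) :
    sg B ρ u ∈ polesIn B S := by
  unfold polesIn at hu
  induction hu using Submodule.span_induction with
  | mem x hx =>
    obtain ⟨i, hi, rfl⟩ := hx
    rw [sg_basis]
    unfold sE
    split_ifs
    · exact s0_poles S _ hi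
    · exact zero_mem _
  | zero =>
    rw [map_zero]
    exact zero_mem _
  | add x y _ _ hx hy =>
    rw [map_add]
    exact add_mem hx hy
  | smul c x _ hx =>
    rw [sg_smul]
    exact Submodule.smul_mem _ _ hx

end core

theorem t : Pool.Agent.H17DA.FS.{u, v} := by
  intro m k R _ _ _ _ _ _ B hB
  let ρ : k →+* k := ((frobeniusEquiv k 2).symm : k ≃+* k).toRingHom
  refine ⟨sg B ρ, ?_, sg_one hB ρ, sg_poles ρ⟩
  apply sg_sq hB ρ
  intro c
  change (frobeniusEquiv k 2).symm (c ^ 2) = c
  have h : c ^ 2 = frobeniusEquiv k 2 c := by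
    rw [frobeniusEquiv_apply]
    rfl
  rw [h, RingEquiv.symm_apply_apply]

end Pool.Agent.H17DA.FS
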