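import Pool.Agent.H17DA.KMod

set_option autoImplicit false

namespace Pool.Agent.H17DA

open Pool.Agent.H824 Finset

universe u v w x

section general

variable {k : Type u} [Field k] {ι : Type v} {τ : Type w} {V : ProjVariety k ι} {c : τ → ι} {p : ℕ}

theorem ratioOp_pow_apply {S : Set τ} (b a : τ) (ha : a ∈ S) (n : ℕ) (u : V.OpenRing c) :
    (ratioOp V c p b a ha ^ n).1 u = ratio V c b a ^ n * u := by
  induction n with
  | zero =>
    rw [pow_zero, pow_zero, one_mul]
    rfl
  | succ n ih =>
    rw [pow_succ', pow_succ', mul_assoc, ← ih]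
    rfl

end general

namespace GEN

theorem t : GEN.{u, v, w, x} := by
  intro k _ ι τ V c p M hE hQ a z
  obtain ⟨n, y, hya, hy⟩ := hE a z
  obtain ⟨r, φ, ψ, hφ, hψ⟩ := hQ n a
  have hs : ∀ j, ∀ b d : τ, M.res (S' := {b, d}) (by simp) (φ j b • y b) =
      M.res (S' := {b, d}) (by simp) (φ j d • y d) := by
    intro j b d
    rw [M.res_smul, M.res_smul, hy b d, ← mul_smul]
    congr 1
    apply Subtype.ext
    apply AddMonoidHom.ext
    intro u
    change (φ j b).1 u = (φ j d).1 ((ratioOp V c p b d (S := {b, d}) (by simp) ^ n).1 u)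
    rw [ratioOp_pow_apply, hφ]
  let s : Fin r → M.GlobalSection := fun j => ⟨fun b => φ j b • y b, hs j⟩
  have hz : z = ∑ j, ψ j • (s j).1 a := by
    have h1 : ∑ j, ψ j • (s j).1 a = (∑ j, ψ j * φ j a) • y a := by
      rw [Finset.sum_smul]
      apply Finset.sum_congr rfl
      intro j _
      rw [mul_smul]
    have h2 : ∑ j, ψ j * φ j a = 1 := by
      apply Subtype.ext
      apply AddMonoidHom.ext
      intro u
      rw [AddSubmonoidClass.coe_finsetSum]
      exact (AddMonoidHom.finsetSum_apply (M := V.OpenRing c) (N := V.OpenRing c)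
        (fun i => (ψ i * φ i a).1) Finset.univ u).trans (hψ u)
    rw [h1, h2, one_smul, hya]
  rw [hz]
  apply Submodule.sum_mem
  intro j _
  exact Submodule.smul_mem _ _ (Submodule.subset_span ⟨s j, rfl⟩)

end GEN

end Pool.Agent.H17DA
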