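import Pool.Agent.H17DA.HOM

set_option autoImplicit false

namespace Pool.Agent.H17DA

open Pool.Agent.H824 Finset

universe u v

section

variable {τ : Type u} [LinearOrder τ] [Fintype τ] {A : Type v} [AddCommGroup A]

theorem hO_mem (P : τ → A →+ A) (F : Finset τ → A) (T : Finset τ) (Q : AddSubgroup A)
    (h : ∀ a, a ∉ T → ∀ U : Finset τ, U.card = T.card + 1 → (U : Set τ) = insert a (T : Set τ) →
      P a (F U) ∈ Q) : hO P F T ∈ Q := by
  unfold hO
  apply sum_mem
  intro a _
  split_ifs with ha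
  · exact zero_mem _
  · exact AddSubgroup.zsmul_mem _ (h a ha _ (Finset.card_insert_of_notMem ha)
      (Finset.coe_insert a T)) _

end

/-- operators linear over the `q`-th powers which preserve given subspaces -/
def goodOps {R : Type u} [CommRing R] (q : ℕ) (Z : Set (AddSubgroup R)) :
    AddSubgroup (R →+ R) where
  carrier := {δ | (∀ x u, δ (x ^ q * u) = x ^ q * δ u) ∧ ∀ W ∈ Z, ∀ u ∈ W, δ u ∈ W}
  zero_mem' := ⟨fun x u => by simp, fun W _ u _ => zero_mem W⟩
  add_mem' := by
    rintro δ δ' ⟨h1, h2⟩ ⟨h1', h2'⟩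
    refine ⟨fun x u => ?_, fun W hW u hu => add_mem (h2 W hW u hu) (h2' W hW u hu)⟩
    rw [AddMonoidHom.add_apply, AddMonoidHom.add_apply, h1, h1', mul_add]
  neg_mem' := by
    rintro δ ⟨h1, h2⟩
    refine ⟨fun x u => ?_, fun W hW u hu => neg_mem (h2 W hW u hu)⟩
    rw [AddMonoidHom.neg_apply, AddMonoidHom.neg_apply, h1, mul_neg]

namespace HD

theorem t : HD.{u} := by
  intro hom m k _ _ _ _ n F hF hd
  have he : ∀ T : Finset (Sg m), ∃ e : ℕ, T.card = n + 1 →
      ∀ x u, F T (x ^ 2 ^ e * u) = x ^ 2 ^ e * F T u := by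
    intro T
    by_cases hT : T.card = n + 1
    · obtain ⟨e, he⟩ := (hF T hT).1
      exact ⟨e, fun _ => he⟩
    · exact ⟨0, fun h => absurd h hT⟩
  choose e he using he
  set E := Finset.univ.sup e with hE
  have hlin : ∀ T : Finset (Sg m), T.card = n + 1 →
      ∀ (x y : RU k m), F T (x ^ 2 ^ E * y) = x ^ 2 ^ E * F T y := fun T hT =>
    lin_mono (F T) (e T) E (Finset.le_sup (Finset.mem_univ T)) (he T hT)
  have hq : (0 : ℤ) < ((2 ^ E : ℕ) : ℤ) := by positivity
  have hk : ∀ T : Finset (Sg m), T.card = n + 1 → ∀ (c : k) (u : RU k m), F T (c • u) = c • F T u :=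
    fun T hT => lin_smul (F T) E (hlin T hT)
  have hcard : 2 ≤ Fintype.card (Sg m) := by
    simp
  let P : Sg m → (RU k m →+ RU k m) →+ (RU k m →+ RU k m) := fun a =>
    aproj (BU k m) ((2 ^ E : ℕ) : ℤ) a
  have hsum : ∀ T : Finset (Sg m), T.card = n + 1 → ∑ a, P a (F T) = F T := fun T hT =>
    sum_aproj _ _ (F T) (hk T hT)
  refine ⟨hO P F, ?_, hom _ _ P n F hsum hd⟩
  intro T hT
  have hmem : hO P F T ∈ goodOps (2 ^ (E + 1))
      {W | ∃ S' : Set (Sg m), (T : Set (Sg m)) ⊆ S' ∧ S'.Nonempty ∧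
        W = (polesIn (BU k m) S').toAddSubgroup} := by
    apply hO_mem
    intro a ha U hU hUT
    have hT' : U.card = n + 1 := by
      rw [hU, hT]
    constructor
    · intro x y
      apply lin_of_comm _ E
      · intro c u
        exact map_smul (oproj (BU k m) _ a _) c u
      · intro w hw hqw u
        apply aproj_mul (BU k m) _ hq.ne' a _ w (by simpa using hqw)
        · intro j
          rw [BU_apply, BU_apply]
          exact monR_mul_shift _ (by simpa using hqw) j
        · intro v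
          exact comm_mon (F _) E (hlin _ hT') w hw hqw v
    · rintro W ⟨S', hS', hne, rfl⟩ u hu
      have hu' : u ∈ polesIn (BU k m) S' := hu
      have hgoal : P a (F U) u ∈ polesIn (BU k m) S' := by
        apply aproj_polesIn (BU k m) _ hcard hq a _ _ _ u hu'
        intro y hy
        refine (hF _ hT').2 (insert a S') ?_ (Set.insert_nonempty a S') y hy
        rw [hUT]
        exact Set.insert_subset_insert hS'
      exact hgoal
  refine ⟨⟨E + 1, hmem.1⟩, ?_⟩
  intro S' hS' hne u hu
  exact hmem.2 _ ⟨S', hS', hne, rfl⟩ u hu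

end HD

end Pool.Agent.H17DA
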