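import Pool.Agent.H17DA.DD

set_option autoImplicit false

namespace Pool.Agent.H17DA

open Finset

universe u v

namespace HOM

theorem t : HOM.{u, v} := by
  intro τ _ _ A _ P n F hsum hd T hT
  have key : ∀ a, a ∉ T → ∑ b ∈ T, DMod.sgn T b •
      (DMod.sgn (insert a (T.erase b)) a • P a (F (insert a (T.erase b)))) = P a (F T) := by
    intro a ha
    have hU := hd (insert a T) (by rw [Finset.card_insert_of_notMem ha, hT])
    unfold cO at hU
    rw [Finset.sum_insert ha, Finset.erase_insert ha] at hU
    have h1 := congrArg (P a) hU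
    rw [map_add, map_zero, map_zsmul, map_sum] at h1
    have h2 : ∀ b ∈ T, DMod.sgn T b •
        (DMod.sgn (insert a (T.erase b)) a • P a (F (insert a (T.erase b)))) =
        (- DMod.sgn (insert a T) a) • P a (DMod.sgn (insert a T) b • F ((insert a T).erase b)) := by
      intro b hb
      have hab : a ≠ b := by
        rintro rfl
        exact ha hb
      have e1 : insert a (T.erase b) = (insert a T).erase b :=
        (Finset.erase_insert_of_ne hab).symm
      rw [e1, map_zsmul, smul_smul, smul_smul]
      have h3 := sgn_swap (insert a T) (Finset.mem_insert_self a T) (Finset.mem_insert_of_mem hb) hab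
      rw [Finset.erase_insert ha] at h3
      rw [h3, neg_mul]
    rw [Finset.sum_congr rfl h2, ← Finset.smul_sum, eq_neg_of_add_eq_zero_right h1, smul_neg,
      neg_smul, neg_neg, smul_smul, sgn_mul_self, one_smul]
  have hsplit : ∀ b ∈ T, hO P F (T.erase b) = DMod.sgn T b • P b (F T) +
      ∑ a ∈ Tᶜ, DMod.sgn (insert a (T.erase b)) a • P a (F (insert a (T.erase b))) := by
    intro b hb
    unfold hO
    rw [← Finset.sum_compl_add_sum T]
    rw [add_comm]
    congr 1
    · rw [Finset.sum_eq_single b]
      · rw [if_neg (Finset.notMem_erase b T), Finset.insert_erase hb]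
      · intro a ha hab
        rw [if_pos (Finset.mem_erase.mpr ⟨hab, ha⟩)]
      · intro h
        exact absurd hb h
    · apply Finset.sum_congr rfl
      intro a ha
      rw [Finset.mem_compl] at ha
      rw [if_neg (fun h => ha (Finset.mem_of_mem_erase h))]
  unfold cO
  have h3 : ∀ b ∈ T, DMod.sgn T b • hO P F (T.erase b) = P b (F T) +
      ∑ a ∈ Tᶜ, DMod.sgn T b • (DMod.sgn (insert a (T.erase b)) a •
        P a (F (insert a (T.erase b)))) := by
    intro b hb
    rw [hsplit b hb, smul_add, smul_smul, sgn_mul_self, one_smul, Finset.smul_sum]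
  rw [Finset.sum_congr rfl h3, Finset.sum_add_distrib, Finset.sum_comm]
  rw [Finset.sum_congr rfl (fun a ha => key a (Finset.mem_compl.mp ha))]
  rw [Finset.sum_add_sum_compl]
  exact hsum T hT

end HOM

end Pool.Agent.H17DA
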