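import Pool.Agent.H17DA.Stm

/-! The stub INC of project DAQ: localisation of operators, monomials. -/

set_option autoImplicit false
set_option linter.unusedSectionVars false

namespace Pool.Agent.H17DA.INC

open Pool.Agent.H824 Pool.Agent.H17DA Finset

universe u v

variable {m : ℕ} {k : Type u} {R : Type v} [Field k] [CharP k 2] [CommRing R] [CharP R 2]
  [Algebra k R] {B : Module.Basis (Expo (Sg m)) k R}

theorem mul_poles (hB : Mult B) {S S' : Set (Sg m)} (hSS : S ⊆ S') (w : Sg m → ℤ)
    (hw : ∑ b, w b = 0) (hneg : ∀ b, w b < 0 → b ∈ S') (u : R) (hu : u ∈ polesIn B S) :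
    B (ex0 w hw) * u ∈ polesIn B S' := by
  unfold polesIn at hu
  induction hu using Submodule.span_induction with
  | mem x hx =>
    obtain ⟨i, hi, rfl⟩ := hx
    rw [hB.mul0]
    apply Submodule.subset_span
    refine ⟨_, ?_, rfl⟩
    intro b hb
    rw [shift_v] at hb
    by_cases h : i.v b < 0
    · exact hSS (hi b h)
    · exact hneg b (by omega)
  | zero => rw [mul_zero]; exact zero_mem _
  | add x y _ _ hx hy => rw [mul_add]; exact add_mem hx hy
  | smul c x _ hx => rw [mul_smul_comm]; exact Submodule.smul_mem _ _ hx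

theorem t : Pool.Agent.H17DA.INC.{u, v} := by
  classical
  intro m k R _ _ _ _ _ B hB e δ hlin hsm S S' hne hSS hδ u hu
  unfold polesIn at hu
  induction hu using Submodule.span_induction with
  | mem x hx =>
    obtain ⟨i, hi, rfl⟩ := hx
    obtain ⟨a, ha⟩ := hne
    set w : Sg m → ℤ := fun b => if b = a then -∑ c ∈ univ.erase a, min (i.v c) 0 else min (i.v b) 0
      with hwdef
    have hwa : w a = -∑ c ∈ univ.erase a, min (i.v c) 0 := by rw [hwdef]; simp
    have hwb : ∀ b, b ≠ a → w b = min (i.v b) 0 := by
      intro b hb; rw [hwdef]; simp [hb]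
    have hw : ∑ b, w b = 0 := by
      rw [← Finset.add_sum_erase univ w (mem_univ a), hwa,
        Finset.sum_congr rfl (fun b hb => hwb b (Finset.ne_of_mem_erase hb))]
      ring
    have hq : ∑ b, (((2 ^ e : ℕ) : ℤ) * w b) = 0 := by rw [← mul_sum, hw, mul_zero]
    have hq' : ∑ b, (-(((2 ^ e : ℕ) : ℤ) * w b)) = 0 := by
      rw [Finset.sum_neg_distrib, hq, neg_zero]
    have hqpos : (1 : ℤ) ≤ ((2 ^ e : ℕ) : ℤ) := by exact_mod_cast Nat.one_le_two_pow
    set i' := i.shift (fun b => -(((2 ^ e : ℕ) : ℤ) * w b)) hq' with hi'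
    have h1 : B (ex0 w hw) ^ 2 ^ e = B (ex0 (fun b => ((2 ^ e : ℕ) : ℤ) * w b) hq) :=
      pow_ex0 hB w hw _ hq
    have h2 : B i = B (ex0 w hw) ^ 2 ^ e * B i' := by
      rw [h1, hB.mul0]
      congr 1
      apply Expo.ext
      · funext b
        rw [shift_v, hi', shift_v]
        ring
      · rfl
    rw [h2, hlin, h1]
    refine mul_poles hB hSS _ hq ?_ _ (hδ _ (Submodule.subset_span ⟨i', ?_, rfl⟩))
    · intro b hb
      by_cases hba : b = a
      · rw [hba]; exact hSS ha
      · rw [hwb b hba] at hb
        have h3 : i.v b < 0 := by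
          by_contra h3
          rw [min_eq_right (by omega), mul_zero] at hb
          exact lt_irrefl _ hb
        exact hi b h3
    · intro b hb
      rw [hi', shift_v] at hb
      by_cases hba : b = a
      · rw [hba]; exact ha
      · exfalso
        rw [hwb b hba] at hb
        rcases le_total 0 (i.v b) with h | h
        · rw [min_eq_right h] at hb
          simp at hb
          omega
        · rw [min_eq_left h] at hb
          nlinarith
  | zero => rw [map_zero]; exact zero_mem _
  | add x y _ _ hx hy => rw [map_add]; exact add_mem hx hy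
  | smul c x _ hx => rw [hsm]; exact Submodule.smul_mem _ _ hx

end Pool.Agent.H17DA.INC
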