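import Pool.Agent.H17DA.Core3
import Pool.Agent.H824.DaffF

/-!
# The quadric
-/

set_option autoImplicit false
set_option linter.unusedSectionVars false

namespace Pool.Agent.H17DA

open Pool.Agent.H824 Finset

section quad

variable {k : Type*} [Field k] {m : ℕ}

theorem monZ_pr (l : Fin (m + 1)) :
    monZ k m (pr l) = xi k m (some (l, 0)) * xi k m (some (l, 1)) := by
  classical
  have e : (pr l : Sg m → ℤ) = Pi.single (l, (0 : Fin 2)) 1 + Pi.single (l, (1 : Fin 2)) 1 := by
    funext b
    rw [pr_eq]
    simp only [ed, Pi.add_apply, Pi.single_apply]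
  rw [e, monZ_add, monZ_single, monZ_single, zpow_one, zpow_one]

theorem mult_BU [CharP k 2] : Mult (BU k m) where
  mul0 := by
    intro w hw i
    rw [BU_apply, BU_apply, BU_apply]
    exact monR_mul_shift w hw i
  mul1 := by
    intro w w' hw hw'
    simp only [BU_apply]
    apply Subtype.ext
    have hval : ∀ (g : Fin (m + 1) → RU k m),
        ((∑ l, g l : RU k m) : (quadVar k m).ConeField) =
          ∑ l, ((g l : RU k m) : (quadVar k m).ConeField) := by
      intro g
      exact map_sum (RU k m).val g Finset.univ
    rw [hval]
    change mon k m (ex1 w hw) * mon k m (ex1 w' hw') = ∑ l, mon k m _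
    have h2 : mon k m (ex1 w hw) * mon k m (ex1 w' hw') =
        monZ k m (w + w') * xi k m none ^ 2 := by
      unfold mon ex1
      simp only [Fin.val_one, pow_one]
      rw [monZ_add, pow_two]
      ring
    rw [h2, xi_none_sq, mul_sum_field]
    apply Finset.sum_congr rfl
    intro l _
    rw [← monZ_pr, ← monZ_add]
    unfold mon ex0
    simp only [Fin.val_zero, pow_zero, mul_one]
    rfl

end quad

end Pool.Agent.H17DA
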