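import Pool.Agent.H17DA.Stm

/-!
# The module of relations between global sections
-/

set_option autoImplicit false
set_option linter.unusedSectionVars false

namespace Pool.Agent.H17DA

open Pool.Agent.H824 Finset MvPolynomial

universe u v w x

section general

variable {k : Type u} [Field k] {ι : Type v} {τ : Type w} {V : ProjVariety k ι} {c : τ → ι} {p : ℕ}

theorem incl_val {S S' : Set τ} (h : S ⊆ S') (δ : diffRing V c p S) :
    (incl V c p h δ).1 = δ.1 := rfl

theorem incl_add {S S' : Set τ} (h : S ⊆ S') (δ δ' : diffRing V c p S) :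
    incl V c p h (δ + δ') = incl V c p h δ + incl V c p h δ' := Subtype.ext rfl

theorem incl_zero {S S' : Set τ} (h : S ⊆ S') :
    incl V c p h (0 : diffRing V c p S) = 0 := Subtype.ext rfl

theorem incl_mul {S S' : Set τ} (h : S ⊆ S') (δ δ' : diffRing V c p S) :
    incl V c p h (δ * δ') = incl V c p h δ * incl V c p h δ' := Subtype.ext rfl

theorem incl_self {S : Set τ} (h : S ⊆ S) (δ : diffRing V c p S) :
    incl V c p h δ = δ := Subtype.ext rfl

theorem incl_incl {S S' S'' : Set τ} (h : S ⊆ S') (h' : S' ⊆ S'') (δ : diffRing V c p S) :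
    incl V c p h' (incl V c p h δ) = incl V c p (h.trans h') δ := Subtype.ext rfl

theorem incl_pow {S S' : Set τ} (h : S ⊆ S') (δ : diffRing V c p S) (n : ℕ) :
    incl V c p h (δ ^ n) = incl V c p h δ ^ n := Subtype.ext rfl

theorem incl_inj {S S' : Set τ} (h : S ⊆ S') (δ δ' : diffRing V c p S)
    (e : incl V c p h δ = incl V c p h δ') : δ = δ' :=
  Subtype.ext (congrArg (fun y : diffRing V c p S' => y.1) e)

theorem incl_ratioOp {S S' : Set τ} (h : S ⊆ S') (b a : τ) (ha : a ∈ S) :
    incl V c p h (ratioOp V c p b a ha) = ratioOp V c p b a (h ha) := Subtype.ext rfl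

theorem incl_zsmul {S S' : Set τ} (h : S ⊆ S') (n : ℤ) (δ : diffRing V c p S) :
    incl V c p h (n • δ) = n • incl V c p h δ := Subtype.ext rfl

variable (V c p) in
/-- `D` is quasi-coherent -/
def DLoc : Prop := ∀ (S : Set τ) (a b : τ) (ha : a ∈ S) (δ : diffRing V c p (insert b S)),
  ∃ (n : ℕ) (δ' : diffRing V c p S), incl V c p (Set.subset_insert b S) δ' =
    ratioOp V c p b a (Set.mem_insert_of_mem b ha) ^ n * δ

/-- the relations on `U_S` -/
def relK (M : DMod.{x} V c p) {r : ℕ} (σ : Fin r → M.GlobalSection) (S : Set τ) :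
    Submodule (diffRing V c p S) (Fin r → diffRing V c p S) where
  carrier := {κ | ∀ (S' : Set τ) (h : S ⊆ S'), S'.Nonempty →
    ∑ j, incl V c p h (κ j) • M.on (σ j) S' = 0}
  add_mem' := by
    intro κ κ' hκ hκ' S' h hne
    have h1 := hκ S' h hne
    have h2 := hκ' S' h hne
    simp only [Pi.add_apply, incl_add, add_smul, Finset.sum_add_distrib, h1, h2, add_zero]
  zero_mem' := by
    intro S' h _
    simp only [Pi.zero_apply, incl_zero, zero_smul, Finset.sum_const_zero]
  smul_mem' := by
    intro δ κ hκ S' h hne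
    have h1 := hκ S' h hne
    simp only [Pi.smul_apply, smul_eq_mul, incl_mul, mul_smul]
    rw [← Finset.smul_sum, h1, smul_zero]

/-- the restriction of the relations -/
def relRes (M : DMod.{x} V c p) {r : ℕ} (σ : Fin r → M.GlobalSection) {S S' : Set τ} (h : S ⊆ S') :
    relK M σ S →+ relK M σ S' where
  toFun κ := ⟨fun j => incl V c p h (κ.1 j), fun S'' h' hne => κ.2 S'' (h.trans h') hne⟩
  map_zero' := rfl
  map_add' _ _ := rfl

theorem relRes_val (M : DMod.{x} V c p) {r : ℕ} (σ : Fin r → M.GlobalSection) {S S' : Set τ}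
    (h : S ⊆ S') (κ : relK M σ S) (j : Fin r) :
    (relRes M σ h κ).1 j = incl V c p h (κ.1 j) := rfl

theorem sum_on_res (M : DMod.{x} V c p) {r : ℕ} (σ : Fin r → M.GlobalSection) {S S' : Set τ}
    (h : S ⊆ S') (hne : S.Nonempty) (κ : Fin r → diffRing V c p S) :
    ∑ j, incl V c p h (κ j) • M.on (σ j) S' = M.res h (∑ j, κ j • M.on (σ j) S) := by
  rw [map_sum]
  apply Finset.sum_congr rfl
  intro j _
  rw [M.res_smul, M.res_on _ h hne]

/-- the `D`-module of the relations -/
noncomputable def KMod (hD : DLoc V c p) (M : DMod.{x} V c p) {r : ℕ}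
    (σ : Fin r → M.GlobalSection) : DMod V c p where
  carrier S := relK M σ S
  res h := relRes M σ h
  res_self := by
    intro S h κ
    apply Subtype.ext
    funext j
    exact incl_self h _
  res_res := by
    intro S S' S'' h h' κ
    apply Subtype.ext
    funext j
    exact incl_incl h h' _
  res_smul := by
    intro S S' h δ κ
    apply Subtype.ext
    funext j
    exact incl_mul h δ (κ.1 j)
  loc_surj := by
    intro S a b ha κ
    have h1 := fun j => hD S a b ha (κ.1 j)
    choose n δ hδ using h1
    have hne : S.Nonempty := ⟨a, ha⟩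
    set n0 := Finset.univ.sup n with hn0
    have hle : ∀ j, n j ≤ n0 := fun j => Finset.le_sup (Finset.mem_univ j)
    let δ' : Fin r → diffRing V c p S := fun j => ratioOp V c p b a ha ^ (n0 - n j) * δ j
    have hδ' : ∀ j, incl V c p (Set.subset_insert b S) (δ' j) =
        ratioOp V c p b a (Set.mem_insert_of_mem b ha) ^ n0 * κ.1 j := by
      intro j
      change incl V c p _ (_ * _) = _
      rw [incl_mul, incl_pow, incl_ratioOp, hδ, ← mul_assoc, ← pow_add,
        Nat.sub_add_cancel (hle j)]
    have hz : M.res (Set.subset_insert b S) (∑ j, δ' j • M.on (σ j) S) = 0 := by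
      rw [← sum_on_res M σ _ hne]
      simp only [hδ', mul_smul]
      rw [← Finset.smul_sum]
      have h2 := κ.2 (insert b S) (Set.Subset.refl _) ⟨b, Set.mem_insert b S⟩
      simp only [incl_self] at h2
      rw [h2, smul_zero]
    obtain ⟨N, hN⟩ := M.loc_inj S a b ha _ hz
    refine ⟨N + n0, ⟨fun j => ratioOp V c p b a ha ^ N * δ' j, ?_⟩, ?_⟩
    · intro S' h _
      rw [sum_on_res M σ h hne]
      simp only [mul_smul]
      rw [← Finset.smul_sum, hN, map_zero]
    · apply Subtype.ext
      funext j
      change incl V c p (Set.subset_insert b S) (ratioOp V c p b a ha ^ N * δ' j) =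
        ratioOp V c p b a (Set.mem_insert_of_mem b ha) ^ (N + n0) * κ.1 j
      rw [incl_mul, incl_pow, incl_ratioOp, hδ', ← mul_assoc, ← pow_add]
  loc_inj := by
    intro S a b ha κ h
    refine ⟨0, ?_⟩
    rw [pow_zero, one_smul]
    apply Subtype.ext
    funext j
    have h1 : incl V c p (Set.subset_insert b S) (κ.1 j) = incl V c p (Set.subset_insert b S) 0 :=
      congrArg (fun y : relK M σ (insert b S) => y.1 j) h
    exact incl_inj _ _ _ h1

end general

end Pool.Agent.H17DA
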