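import Pool.Agent.H17DA.INC

/-! The stub LOC of project DAQ: `D` is quasi-coherent, monomials. -/

set_option autoImplicit false
set_option linter.unusedSectionVars false

namespace Pool.Agent.H17DA.LOC

open Pool.Agent.H824 Pool.Agent.H17DA Finset

universe u v

variable {m : ℕ} {k : Type u} {R : Type v} [Field k] [CharP k 2] [CommRing R] [CharP R 2]
  [Algebra k R] {B : Module.Basis (Expo (Sg m)) k R}

theorem sum_bd (n : ℕ) (a b : Sg m) : ∑ x, (n : ℤ) * (ed b x - ed a x) = 0 := by
  rw [← mul_sum, sum_sub_distrib, sum_ed, sum_ed, sub_self, mul_zero]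

/-- a high power of `x_b / x_a` removes the poles at `b` -/
theorem remove (hB : Mult B) (S : Set (Sg m)) (a b : Sg m) (ha : a ∈ S) (y : R)
    (hy : y ∈ polesIn B (insert b S)) :
    ∃ n0 : ℕ, ∀ n : ℕ, n0 ≤ n →
      B (ex0 (fun x => (n : ℤ) * (ed b x - ed a x)) (sum_bd n a b)) * y ∈ polesIn B S := by
  unfold polesIn at hy
  induction hy using Submodule.span_induction with
  | mem x hx =>
    obtain ⟨i, hi, rfl⟩ := hx
    refine ⟨(-(i.v b)).toNat, fun n hn => ?_⟩
    rw [hB.mul0]
    apply Submodule.subset_span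
    refine ⟨_, ?_, rfl⟩
    intro d hd
    rw [shift_v] at hd
    by_contra hdS
    have hda : d ≠ a := fun h => hdS (h ▸ ha)
    rw [ed_ne a d hda] at hd
    by_cases hdb : d = b
    · subst hdb
      rw [ed_self] at hd
      have h1 := Int.self_le_toNat (-(i.v d))
      have h2 : (((-(i.v d)).toNat : ℕ) : ℤ) ≤ (n : ℤ) := by exact_mod_cast hn
      linarith
    · rw [ed_ne b d hdb] at hd
      have h1 : i.v d < 0 := by linarith
      rcases hi d h1 with h | h
      · exact hdb h
      · exact hdS h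
  | zero => exact ⟨0, fun n _ => by rw [mul_zero]; exact zero_mem _⟩
  | add x y _ _ hx hy =>
    obtain ⟨n1, h1⟩ := hx
    obtain ⟨n2, h2⟩ := hy
    refine ⟨max n1 n2, fun n hn => ?_⟩
    rw [mul_add]
    exact add_mem (h1 n (le_trans (le_max_left _ _) hn)) (h2 n (le_trans (le_max_right _ _) hn))
  | smul c x _ hx =>
    obtain ⟨n1, h1⟩ := hx
    refine ⟨n1, fun n hn => ?_⟩
    rw [mul_smul_comm]
    exact Submodule.smul_mem _ _ (h1 n hn)

/-- the reduced exponents -/
def red (q : ℕ) (a : Sg m) (f : Sg m → Fin q) (e : Fin 2) : Expo (Sg m) where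
  v := fun d => if d = a then -(∑ c ∈ univ.erase a, ((f c : ℕ) : ℤ)) - ((e : ℕ) : ℤ)
    else ((f d : ℕ) : ℤ)
  e := e
  h := by
    rw [← Finset.add_sum_erase univ _ (mem_univ a), if_pos rfl,
      Finset.sum_congr rfl (fun d hd => if_neg (Finset.ne_of_mem_erase hd))]
    ring

theorem t : Pool.Agent.H17DA.LOC.{u, v} := by
  classical
  intro m k R _ _ _ _ _ B hB e δ hlin hsm S a b ha hδ
  have hqpos : (0 : ℤ) < ((2 ^ e : ℕ) : ℤ) := by positivity
  have hred : ∀ (f : Sg m → Fin (2 ^ e)) (e' : Fin 2),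
      B (red (2 ^ e) a f e') ∈ polesIn B (insert b S) := by
    intro f e'
    apply Submodule.subset_span
    refine ⟨_, ?_, rfl⟩
    intro d hd
    by_cases hda : d = a
    · rw [hda]; exact Set.mem_insert_of_mem _ ha
    · exfalso
      have h1 : (red (2 ^ e) a f e').v d = ((f d : ℕ) : ℤ) := by
        change (if d = a then _ else _) = _
        rw [if_neg hda]
      rw [h1] at hd
      omega
  choose N hN using fun p : (Sg m → Fin (2 ^ e)) × Fin 2 =>
    remove hB S a b ha _ (hδ _ (hred p.1 p.2))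
  refine ⟨univ.sup N, fun h u hu => ?_⟩
  unfold polesIn at hu
  induction hu using Submodule.span_induction with
  | mem x hx =>
    obtain ⟨i, hi, rfl⟩ := hx
    set f : Sg m → Fin (2 ^ e) := fun d => ⟨(i.v d % ((2 ^ e : ℕ) : ℤ)).toNat, by
      have h1 := Int.emod_nonneg (i.v d) hqpos.ne'
      have h2 := Int.emod_lt_of_pos (i.v d) hqpos
      omega⟩ with hf
    have hfd : ∀ d, ((f d : ℕ) : ℤ) = i.v d % ((2 ^ e : ℕ) : ℤ) := by
      intro d
      have h1 := Int.emod_nonneg (i.v d) hqpos.ne'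
      rw [hf]
      exact Int.toNat_of_nonneg h1
    set w : Sg m → ℤ := fun d => if d = a then -∑ c ∈ univ.erase a, i.v c / ((2 ^ e : ℕ) : ℤ)
      else i.v d / ((2 ^ e : ℕ) : ℤ) with hwdef
    have hwa : w a = -∑ c ∈ univ.erase a, i.v c / ((2 ^ e : ℕ) : ℤ) := by rw [hwdef]; simp
    have hwb : ∀ d, d ≠ a → w d = i.v d / ((2 ^ e : ℕ) : ℤ) := by
      intro d hd; rw [hwdef]; simp only [if_neg hd]
    have hw : ∑ d, w d = 0 := by
      rw [← Finset.add_sum_erase univ w (mem_univ a), hwa,
        Finset.sum_congr rfl (fun d hd => hwb d (Finset.ne_of_mem_erase hd))]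
      ring
    have hq : ∑ d, (((2 ^ e : ℕ) : ℤ) * w d) = 0 := by rw [← mul_sum, hw, mul_zero]
    have hpt : ∀ d, d ≠ a →
        i.v d = (red (2 ^ e) a f i.e).v d + ((2 ^ e : ℕ) : ℤ) * w d := by
      intro d hd
      have h1 : (red (2 ^ e) a f i.e).v d = ((f d : ℕ) : ℤ) := by
        change (if d = a then _ else _) = _
        rw [if_neg hd]
      rw [h1, hfd, hwb d hd]
      exact (Int.emod_add_mul_ediv _ _).symm
    have hpa : i.v a = (red (2 ^ e) a f i.e).v a + ((2 ^ e : ℕ) : ℤ) * w a := by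
      have h1 := i.h
      have h2 := (red (2 ^ e) a f i.e).h
      rw [← Finset.add_sum_erase univ _ (mem_univ a)] at h1 h2 hq
      have h3 : ∑ d ∈ univ.erase a, i.v d = ∑ d ∈ univ.erase a, (red (2 ^ e) a f i.e).v d +
          ∑ d ∈ univ.erase a, ((2 ^ e : ℕ) : ℤ) * w d := by
        rw [← sum_add_distrib]
        exact sum_congr rfl (fun d hd => hpt d (Finset.ne_of_mem_erase hd))
      have h4 : (red (2 ^ e) a f i.e).e = i.e := rfl
      rw [h4] at h2
      linarith
    have h1 : B (ex0 w hw) ^ 2 ^ e = B (ex0 (fun d => ((2 ^ e : ℕ) : ℤ) * w d) hq) :=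
      pow_ex0 hB w hw _ hq
    have h2 : B i = B (ex0 w hw) ^ 2 ^ e * B (red (2 ^ e) a f i.e) := by
      rw [h1, hB.mul0]
      congr 1
      apply Expo.ext
      · funext d
        rw [shift_v]
        by_cases hd : d = a
        · rw [hd]; exact hpa
        · exact hpt d hd
      · rfl
    rw [h2, hlin, h1, mul_left_comm]
    refine INC.mul_poles hB (Set.Subset.refl S) _ hq ?_ _
      (hN (f, i.e) _ (Finset.le_sup (f := N) (mem_univ _)))
    intro d hd
    by_cases hda : d = a
    · rw [hda]; exact ha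
    · rw [hwb d hda] at hd
      have h3 : i.v d < 0 := by
        by_contra h3
        have h4 : 0 ≤ i.v d / ((2 ^ e : ℕ) : ℤ) := Int.ediv_nonneg (by omega) hqpos.le
        have h5 := mul_nonneg hqpos.le h4
        omega
      exact hi d h3
  | zero => rw [map_zero, mul_zero]; exact zero_mem _
  | add x y _ _ hx hy => rw [map_add, mul_add]; exact add_mem hx hy
  | smul c x _ hx => rw [hsm, mul_smul_comm]; exact Submodule.smul_mem _ _ hx

end Pool.Agent.H17DA.LOC
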