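import Pool.Agent.H17DA.Stm

set_option autoImplicit false
set_option linter.unusedSectionVars false

namespace Pool.Agent.H17DA

open Pool.Agent.H824 Finset

universe u v

section core

variable {m : ℕ} {k : Type u} {R : Type v} [Field k] [CharP k 2] [CommRing R] [CharP R 2]
  [Algebra k R] (B : Module.Basis (Expo (Sg m)) k R)

open Classical in
/-- a monomial operator: shift the exponents by `sh` and make `e'` the exponent of `ζ`, if the predicate
holds and the result has degree zero -/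
noncomputable def mo (Pd : Expo (Sg m) → Prop) (sh : Sg m → ℤ) (e' : Fin 2) : R →ₗ[k] R :=
  B.constr k (fun i => if h : Pd i ∧ (∑ x, (i.v x + sh x)) + ((e' : ℕ) : ℤ) = 0 then
    B ⟨fun x => i.v x + sh x, e', h.2⟩ else 0)

open Classical in
theorem mo_basis (Pd : Expo (Sg m) → Prop) (sh : Sg m → ℤ) (e' : Fin 2) (i : Expo (Sg m)) :
    mo B Pd sh e' (B i) = if h : Pd i ∧ (∑ x, (i.v x + sh x)) + ((e' : ℕ) : ℤ) = 0 then
      B ⟨fun x => i.v x + sh x, e', h.2⟩ else 0 := by
  unfold mo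
  rw [Module.Basis.constr_basis]

variable {B}

theorem mo_lin0 (hB : Mult B) (Pd : Expo (Sg m) → Prop) (sh : Sg m → ℤ) (e' : Fin 2)
    (Q : ℤ) (hPd : ∀ (w : Sg m → ℤ) (hw : ∑ x, Q * w x = 0) i,
      Pd (i.shift (fun x => Q * w x) hw) ↔ Pd i)
    (w : Sg m → ℤ) (hw : ∑ x, Q * w x = 0) (u : R) :
    mo B Pd sh e' (B (ex0 (fun x => Q * w x) hw) * u) =
      B (ex0 (fun x => Q * w x) hw) * mo B Pd sh e' u := by
  classical
  have h1 : (mo B Pd sh e') ∘ₗ (LinearMap.mulLeft k (B (ex0 (fun x => Q * w x) hw))) =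
      (LinearMap.mulLeft k (B (ex0 (fun x => Q * w x) hw))) ∘ₗ (mo B Pd sh e') := by
    apply B.ext
    intro i
    rw [LinearMap.comp_apply, LinearMap.comp_apply, LinearMap.mulLeft_apply,
      LinearMap.mulLeft_apply, hB.mul0, mo_basis, mo_basis]
    have hs : (∑ x, ((i.shift (fun x => Q * w x) hw).v x + sh x)) = ∑ x, (i.v x + sh x) := by
      have : ∀ x, (i.shift (fun x => Q * w x) hw).v x + sh x = Q * w x + (i.v x + sh x) := by
        intro x
        rw [shift_v]
        ring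
      simp only [this]
      rw [Finset.sum_add_distrib (f := fun x => Q * w x), hw, zero_add]
    by_cases hp : Pd i ∧ (∑ x, (i.v x + sh x)) + ((e' : ℕ) : ℤ) = 0
    · have hp' : Pd (i.shift (fun x => Q * w x) hw) ∧
          (∑ x, ((i.shift (fun x => Q * w x) hw).v x + sh x)) + ((e' : ℕ) : ℤ) = 0 := by
        rw [hPd, hs]
        exact hp
      rw [dif_pos hp, dif_pos hp', hB.mul0]
      congr 1
      apply Expo.ext
      · funext x
        change i.v x + Q * w x + sh x = i.v x + sh x + Q * w x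
        ring
      · rfl
    · have hp' : ¬ (Pd (i.shift (fun x => Q * w x) hw) ∧
          (∑ x, ((i.shift (fun x => Q * w x) hw).v x + sh x)) + ((e' : ℕ) : ℤ) = 0) := by
        rw [hPd, hs]
        exact hp
      rw [dif_neg hp, dif_neg hp', mul_zero]
  exact LinearMap.congr_fun h1 u

/-- linearity over the `2 q`-th powers -/
theorem lin_of_lin0 (hB : Mult B) (e : ℕ) (L : R →ₗ[k] R)
    (hL : ∀ (w : Sg m → ℤ) (hw : ∑ x, (2 ^ e : ℤ) * w x = 0) (u : R),
      L (B (ex0 (fun x => 2 ^ e * w x) hw) * u) = B (ex0 (fun x => 2 ^ e * w x) hw) * L u)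
    (x u : R) : L (x ^ 2 ^ (e + 1) * u) = x ^ 2 ^ (e + 1) * L u := by
  have hx : x ∈ Submodule.span k (Set.range B) := by
    rw [B.span_eq]
    trivial
  induction hx using Submodule.span_induction generalizing u with
  | mem x hx =>
    obtain ⟨i, rfl⟩ := hx
    rcases expo_cases i with ⟨w, hw, rfl⟩ | ⟨w, hw, rfl⟩
    · rw [powq_ex0 hB e w hw]
      have h2 : ∑ x, (2 ^ e : ℤ) * (2 * w x) = 0 := by
        rw [← Finset.mul_sum, ← Finset.mul_sum, hw, mul_zero, mul_zero]
      have e1 : ex0 (qu (2 ^ e) w) (sum_qu (2 ^ e) w hw) =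
          ex0 (fun x => (2 ^ e : ℤ) * (2 * w x)) h2 := by
        apply Expo.ext
        · funext x
          change 2 * 2 ^ e * w x = 2 ^ e * (2 * w x)
          ring
        · rfl
      rw [e1, hL]
    · rw [powq_ex1 hB e w hw, Finset.sum_mul, map_sum, Finset.sum_mul]
      apply Finset.sum_congr rfl
      intro l _
      have h2 : ∑ x, (2 ^ e : ℤ) * (2 * w x + pr l x) = 0 := by
        rw [← Finset.mul_sum, Finset.sum_add_distrib, ← Finset.mul_sum, hw, sum_pr]
        norm_num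
      have e1 : ex0 (q1 (2 ^ e) w l) (sum_q1 (2 ^ e) w hw l) =
          ex0 (fun x => (2 ^ e : ℤ) * (2 * w x + pr l x)) h2 := by
        apply Expo.ext
        · funext x
          change 2 * 2 ^ e * w x + 2 ^ e * pr l x = 2 ^ e * (2 * w x + pr l x)
          ring
        · rfl
      rw [e1, hL]
  | zero => simp
  | add x y _ _ hx hy =>
    rw [add_pow_char_pow, add_mul, add_mul, map_add, hx, hy]
  | smul c x _ hx =>
    rw [smul_pow, smul_mul_assoc, smul_mul_assoc, map_smul, hx]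

theorem mo_poles (Pd : Expo (Sg m) → Prop) (sh : Sg m → ℤ) (e' : Fin 2) (S : Set (Sg m))
    (h : ∀ i, NegIn S i → Pd i → ∀ d, d ∉ S → 0 ≤ i.v d + sh d) (u : R)
    (hu : u ∈ polesIn B S) : mo B Pd sh e' u ∈ polesIn B S := by
  classical
  unfold polesIn at hu
  induction hu using Submodule.span_induction with
  | mem x hx =>
    obtain ⟨i, hi, rfl⟩ := hx
    rw [mo_basis]
    split_ifs with hp
    · apply Submodule.subset_span
      refine ⟨_, ?_, rfl⟩
      intro d hd
      by_contra hdS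
      exact absurd (h i hi hp.1 d hdS) (not_le.mpr hd)
    · exact zero_mem _
  | zero =>
    rw [map_zero]
    exact zero_mem _
  | add x y _ _ hx hy =>
    rw [map_add]
    exact add_mem hx hy
  | smul c x _ hx =>
    rw [map_smul]
    exact Submodule.smul_mem _ _ hx

end core

namespace QA

theorem nonneg_of_dvd {Q X : ℤ} (h : Q ∣ X) (h2 : -Q < X) (hQ : 0 < Q) : 0 ≤ X := by
  obtain ⟨y, rfl⟩ := h
  have : -1 < y := by
    by_contra h3
    have h4 : y ≤ -1 := by omega
    have h5 : Q * y ≤ Q * (-1) := mul_le_mul_of_nonneg_left h4 hQ.le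
    linarith
  exact mul_nonneg hQ.le (by omega)

theorem t : QA.{u, v} := by
  classical
  intro m k R _ _ _ _ _ B hB n a
  let e : ℕ := n + 1
  have hne : (n : ℤ) < 2 ^ e := by
    have h1 : n + 1 < 2 ^ (n + 1) := Nat.lt_two_pow_self
    have h2 : n < 2 ^ e := by
      change n < 2 ^ (n + 1)
      omega
    exact_mod_cast h2
  have hQ : (0 : ℤ) < 2 ^ e := by positivity
  -- the data
  let I := (Sg m → Fin (2 ^ e)) × Fin 2
  let κ : I → ℤ := fun j => (∑ x, ((j.1 x : ℕ) : ℤ)) + ((j.2 : ℕ) : ℤ) - n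
  let Pφ : I → Sg m → Expo (Sg m) → Prop := fun j b i =>
    i.e = j.2 ∧ ∀ x, (2 ^ e : ℤ) ∣ i.v x + n * ed b x - ((j.1 x : ℕ) : ℤ)
  let sφ : I → Sg m → Sg m → ℤ := fun j b x => n * ed b x - ((j.1 x : ℕ) : ℤ) + κ j * ed a x
  let Pψ : I → Expo (Sg m) → Prop := fun j i =>
    i.e = 0 ∧ (∀ x, (2 ^ e : ℤ) ∣ i.v x) ∧ (2 ^ e : ℤ) ∣ κ j
  let sψ : I → Sg m → ℤ := fun j x => ((j.1 x : ℕ) : ℤ) - n * ed a x - κ j * ed a x
  have hκ : ∀ j b i, Pφ j b i → (2 ^ e : ℤ) ∣ κ j := by
    rintro j b i ⟨h1, h2⟩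
    have h3 : κ j = - ∑ x, (i.v x + n * ed b x - ((j.1 x : ℕ) : ℤ)) := by
      rw [Finset.sum_sub_distrib, Finset.sum_add_distrib, ← Finset.mul_sum, sum_ed]
      have h4 := i.h
      rw [h1] at h4
      change (∑ x, ((j.1 x : ℕ) : ℤ)) + ((j.2 : ℕ) : ℤ) - n = _
      linarith
    rw [h3]
    exact (Finset.dvd_sum (fun x _ => h2 x)).neg_right
  have hκ0 : ∀ j b i, Pφ j b i → 0 ≤ κ j := by
    intro j b i h
    apply nonneg_of_dvd (hκ j b i h) _ hQ
    have h1 : (0 : ℤ) ≤ ∑ x, ((j.1 x : ℕ) : ℤ) := Finset.sum_nonneg (fun x _ => by positivity)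
    have h2 : (0 : ℤ) ≤ ((j.2 : ℕ) : ℤ) := by positivity
    change _ < (∑ x, ((j.1 x : ℕ) : ℤ)) + ((j.2 : ℕ) : ℤ) - n
    linarith
  let Φ : I → Sg m → (R →ₗ[k] R) := fun j b => mo B (Pφ j b) (sφ j b) 0
  let Ψ : I → (R →ₗ[k] R) := fun j => mo B (Pψ j) (sψ j) j.2
  have hΦ1 : ∀ j b x u, Φ j b (x ^ 2 ^ (e + 1) * u) = x ^ 2 ^ (e + 1) * Φ j b u := by
    intro j b
    apply lin_of_lin0 hB e
    intro w hw u
    apply mo_lin0 hB _ _ _ _ _ w hw u
    intro w hw i
    refine and_congr Iff.rfl (forall_congr' fun x => ?_)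
    rw [shift_v]
    have h1 : i.v x + 2 ^ e * w x + n * ed b x - ((j.1 x : ℕ) : ℤ) =
        (i.v x + n * ed b x - ((j.1 x : ℕ) : ℤ)) + 2 ^ e * w x := by ring
    rw [h1]
    exact (Int.dvd_add_left (Dvd.intro _ rfl))
  have hΨ1 : ∀ j x u, Ψ j (x ^ 2 ^ (e + 1) * u) = x ^ 2 ^ (e + 1) * Ψ j u := by
    intro j
    apply lin_of_lin0 hB e
    intro w hw u
    apply mo_lin0 hB _ _ _ _ _ w hw u
    intro w hw i
    refine and_congr Iff.rfl (and_congr (forall_congr' fun x => ?_) Iff.rfl)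
    rw [shift_v]
    exact (Int.dvd_add_left (Dvd.intro _ rfl))
  have hΦ2 : ∀ j b, ∀ S : Set (Sg m), b ∈ S → ∀ u ∈ polesIn B S, Φ j b u ∈ polesIn B S := by
    intro j b S hb u hu
    apply mo_poles _ _ _ S _ u hu
    intro i hi hP d hd
    have hdb : d ≠ b := by
      rintro rfl
      exact hd hb
    have h0 : 0 ≤ i.v d := by
      by_contra h
      exact hd (hi d (not_le.mp h))
    have h1 := hP.2 d
    rw [ed_ne b d hdb, mul_zero, add_zero] at h1
    have h2 : ((j.1 d : ℕ) : ℤ) < 2 ^ e := by exact_mod_cast (j.1 d).2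
    have h3 := nonneg_of_dvd h1 (by linarith) hQ
    have h4 := mul_nonneg (hκ0 j b i hP) (ed_nonneg a d)
    change 0 ≤ i.v d + (n * ed b d - ((j.1 d : ℕ) : ℤ) + κ j * ed a d)
    rw [ed_ne b d hdb]
    linarith
  have hΨ2 : ∀ j, ∀ S : Set (Sg m), a ∈ S → ∀ u ∈ polesIn B S, Ψ j u ∈ polesIn B S := by
    intro j S ha u hu
    apply mo_poles _ _ _ S _ u hu
    intro i hi hP d hd
    have hda : d ≠ a := by
      rintro rfl
      exact hd ha
    have h0 : 0 ≤ i.v d := by
      by_contra h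
      exact hd (hi d (not_le.mp h))
    change 0 ≤ i.v d + (((j.1 d : ℕ) : ℤ) - n * ed a d - κ j * ed a d)
    rw [ed_ne a d hda]
    have : (0 : ℤ) ≤ ((j.1 d : ℕ) : ℤ) := by positivity
    linarith
  have hΦ3 : ∀ j b d (h : ∑ x, (n : ℤ) * (ed b x - ed d x) = 0) u,
      Φ j d (B (ex0 (fun x => (n : ℤ) * (ed b x - ed d x)) h) * u) = Φ j b u := by
    intro j b d h u
    have h1 : (Φ j d) ∘ₗ (LinearMap.mulLeft k
        (B (ex0 (fun x => (n : ℤ) * (ed b x - ed d x)) h))) = Φ j b := by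
      apply B.ext
      intro i
      rw [LinearMap.comp_apply, LinearMap.mulLeft_apply, hB.mul0]
      change mo B (Pφ j d) (sφ j d) 0 _ = mo B (Pφ j b) (sφ j b) 0 _
      rw [mo_basis, mo_basis]
      have hP : Pφ j d (i.shift (fun x => (n : ℤ) * (ed b x - ed d x)) h) ↔ Pφ j b i := by
        refine and_congr Iff.rfl (forall_congr' fun x => ?_)
        rw [shift_v]
        have h1 : i.v x + n * (ed b x - ed d x) + n * ed d x - ((j.1 x : ℕ) : ℤ) =
          i.v x + n * ed b x - ((j.1 x : ℕ) : ℤ) := by ring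
        rw [h1]
      have hv : ∀ x, (i.shift (fun x => (n : ℤ) * (ed b x - ed d x)) h).v x + sφ j d x =
          i.v x + sφ j b x := by
        intro x
        rw [shift_v]
        change i.v x + n * (ed b x - ed d x) +
          (n * ed d x - ((j.1 x : ℕ) : ℤ) + κ j * ed a x) = i.v x +
          (n * ed b x - ((j.1 x : ℕ) : ℤ) + κ j * ed a x)
        ring
      simp only [hP, hv]
      split_ifs <;> rfl
    exact LinearMap.congr_fun h1 u
  have hsum : ∀ u, ∑ j, Ψ j (Φ j a u) = u := by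
    intro u
    have h1 : ∑ j, (Ψ j) ∘ₗ (Φ j a) = LinearMap.id := by
      apply B.ext
      intro i
      rw [LinearMap.sum_apply, LinearMap.id_apply]
      have hr : ∀ x : Sg m, (i.v x + n * ed a x) % 2 ^ e < 2 ^ e := fun x =>
        Int.emod_lt_of_pos _ hQ
      have hr0 : ∀ x : Sg m, 0 ≤ (i.v x + n * ed a x) % 2 ^ e := fun x =>
        Int.emod_nonneg _ hQ.ne'
      let j0 : I := (fun x => ⟨((i.v x + n * ed a x) % 2 ^ e).toNat, by
        have h1 := hr x
        have h2 := hr0 x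
        zify
        rw [Int.toNat_of_nonneg h2]
        exact h1⟩, i.e)
      have hj0 : ∀ x, (((j0.1 x : Fin (2 ^ e)) : ℕ) : ℤ) = (i.v x + n * ed a x) % 2 ^ e := by
        intro x
        change ((((i.v x + n * ed a x) % 2 ^ e).toNat : ℕ) : ℤ) = _
        exact Int.toNat_of_nonneg (hr0 x)
      rw [Finset.sum_eq_single j0]
      · -- the term `j0`
        rw [LinearMap.comp_apply]
        have hP : Pφ j0 a i := by
          refine ⟨rfl, fun x => ?_⟩
          rw [hj0 x]
          exact Int.dvd_self_sub_emod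
        have hs : (∑ x, (i.v x + sφ j0 a x)) + (((0 : Fin 2) : ℕ) : ℤ) = 0 := by
          have h2 : ∑ x, (i.v x + sφ j0 a x) = (∑ x, i.v x) + n -
              (∑ x, (((j0.1 x : Fin (2 ^ e)) : ℕ) : ℤ)) + κ j0 := by
            change ∑ x, (i.v x + (n * ed a x - (((j0.1 x : Fin (2 ^ e)) : ℕ) : ℤ) +
              κ j0 * ed a x)) = _
            rw [Finset.sum_add_distrib, Finset.sum_add_distrib, Finset.sum_sub_distrib,
              ← Finset.mul_sum, ← Finset.mul_sum, sum_ed]
            ring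
          rw [h2]
          have h3 := i.h
          change (∑ x, i.v x) + n - (∑ x, (((j0.1 x : Fin (2 ^ e)) : ℕ) : ℤ)) +
            ((∑ x, (((j0.1 x : Fin (2 ^ e)) : ℕ) : ℤ)) + ((i.e : ℕ) : ℤ) - n) + 0 = 0
          linarith
        have e1 : Φ j0 a (B i) = B ⟨fun x => i.v x + sφ j0 a x, 0, hs⟩ := by
          change mo B (Pφ j0 a) (sφ j0 a) 0 _ = _
          rw [mo_basis, dif_pos ⟨hP, hs⟩]
        have hP2 : Pψ j0 ⟨fun x => i.v x + sφ j0 a x, 0, hs⟩ := by
          refine ⟨rfl, fun x => ?_, hκ j0 a i hP⟩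
          change (2 ^ e : ℤ) ∣ i.v x + (n * ed a x - (((j0.1 x : Fin (2 ^ e)) : ℕ) : ℤ) +
              κ j0 * ed a x)
          have h4 : i.v x + (n * ed a x - (((j0.1 x : Fin (2 ^ e)) : ℕ) : ℤ) + κ j0 * ed a x) =
              (i.v x + n * ed a x - (((j0.1 x : Fin (2 ^ e)) : ℕ) : ℤ)) + κ j0 * ed a x := by
            ring
          rw [h4]
          exact dvd_add (hP.2 x) (Dvd.dvd.mul_right (hκ j0 a i hP) _)
        have hv : ∀ x, (i.v x + sφ j0 a x) + sψ j0 x = i.v x := by
          intro x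
          change (i.v x + (n * ed a x - (((j0.1 x : Fin (2 ^ e)) : ℕ) : ℤ) + κ j0 * ed a x)) +
            ((((j0.1 x : Fin (2 ^ e)) : ℕ) : ℤ) - n * ed a x - κ j0 * ed a x) = i.v x
          ring
        have hs2 : (∑ x, ((i.v x + sφ j0 a x) + sψ j0 x)) + ((j0.2 : ℕ) : ℤ) = 0 := by
          simp only [hv]
          exact i.h
        rw [e1]
        change mo B (Pψ j0) (sψ j0) j0.2 _ = _
        rw [mo_basis, dif_pos ⟨hP2, hs2⟩]
        congr 1
        apply Expo.ext
        · funext x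
          exact hv x
        · rfl
      · intro j _ hj
        rw [LinearMap.comp_apply]
        have e1 : Φ j a (B i) = 0 := by
          change mo B (Pφ j a) (sφ j a) 0 _ = _
          rw [mo_basis, dif_neg]
          rintro ⟨⟨h1, h2⟩, _⟩
          apply hj
          apply Prod.ext
          · funext x
            apply Fin.ext
            zify
            rw [hj0 x]
            have h3 := h2 x
            have h4 : ((j.1 x : ℕ) : ℤ) < 2 ^ e := by exact_mod_cast (j.1 x).2
            have h5 : (0 : ℤ) ≤ ((j.1 x : ℕ) : ℤ) := by positivity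
            obtain ⟨y, hy⟩ := h3
            have h6 : i.v x + n * ed a x = ((j.1 x : ℕ) : ℤ) + 2 ^ e * y := by linarith
            rw [h6, Int.add_mul_emod_self_left, Int.emod_eq_of_lt h5 h4]
          · exact h1.symm
        rw [e1, map_zero]
      · intro h
        exact absurd (Finset.mem_univ _) h
    have h2 := LinearMap.congr_fun h1 u
    rw [LinearMap.sum_apply] at h2
    exact h2
  let F := Fintype.equivFin I
  refine ⟨Fintype.card I, fun j b => (Φ (F.symm j) b).toAddMonoidHom,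
    fun j => (Ψ (F.symm j)).toAddMonoidHom, e + 1, fun j b => hΦ1 _ b, fun j => hΨ1 _,
    fun j b => hΦ2 _ b, fun j => hΨ2 _, fun j b d h u => hΦ3 _ b d h u, ?_⟩
  intro u
  exact (Equiv.sum_comp F.symm (fun j => Ψ j (Φ j a u))).trans (hsum u)

end QA

end Pool.Agent.H17DA
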