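import Pool.Agent.H17DA.KMod

set_option autoImplicit false

namespace Pool.Agent.H17DA

open Pool.Agent.H824 Finset MvPolynomial

universe u v w x

section general

variable {k : Type u} [Field k] {ι : Type v} {τ : Type w} {V : ProjVariety k ι} {c : τ → ι} {p : ℕ}

theorem ratioOp_mul_swap (hne : ∀ a, V.el (X (c a)) ≠ 0) {S : Set τ} (a b : τ) (ha : a ∈ S)
    (hb : b ∈ S) : ratioOp V c p a b hb * ratioOp V c p b a ha = 1 := by
  apply Subtype.ext
  apply AddMonoidHom.ext
  intro u
  change ratio V c a b * (ratio V c b a * u) = u
  have h : ratio V c a b * ratio V c b a = 1 := by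
    apply Subtype.ext
    change V.el (X (c a)) / V.el (X (c b)) * (V.el (X (c b)) / V.el (X (c a))) = 1
    rw [div_mul_div_comm, mul_comm, div_self]
    exact mul_ne_zero (hne b) (hne a)
  rw [← mul_assoc, h, one_mul]

theorem ratioOp_comm {S : Set τ} (a b a' b' : τ) (ha : a ∈ S) (ha' : a' ∈ S) :
    ratioOp V c p b a ha * ratioOp V c p b' a' ha' =
      ratioOp V c p b' a' ha' * ratioOp V c p b a ha := by
  apply Subtype.ext
  apply AddMonoidHom.ext
  intro u
  change ratio V c b a * (ratio V c b' a' * u) = ratio V c b' a' * (ratio V c b a * u)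
  ring

theorem ratioOp_pow_swap (hne : ∀ a, V.el (X (c a)) ≠ 0) {S : Set τ} (a b : τ) (ha : a ∈ S)
    (hb : b ∈ S) (n : ℕ) : ratioOp V c p a b hb ^ n * ratioOp V c p b a ha ^ n = 1 := by
  have h : Commute (ratioOp V c p a b hb) (ratioOp V c p b a ha) := ratioOp_comm _ _ _ _ _ _
  rw [← h.mul_pow, ratioOp_mul_swap hne, one_pow]

theorem res_span (M : DMod.{x} V c p) {S S' : Set τ} (h : S ⊆ S') (hne : S.Nonempty)
    (y : M.carrier S)
    (hy : y ∈ Submodule.span (diffRing V c p S) (Set.range fun s : M.GlobalSection => M.on s S)) :
    M.res h y ∈ Submodule.span (diffRing V c p S')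
      (Set.range fun s : M.GlobalSection => M.on s S') := by
  induction hy using Submodule.span_induction with
  | mem y hy =>
    obtain ⟨s, rfl⟩ := hy
    simp only
    rw [M.res_on s _ hne]
    exact Submodule.subset_span ⟨s, rfl⟩
  | zero =>
    rw [map_zero]
    exact zero_mem _
  | add y y' _ _ h h' =>
    rw [map_add]
    exact add_mem h h'
  | smul δ y _ h =>
    rw [M.res_smul]
    exact Submodule.smul_mem _ _ h

end general

namespace SPAN

theorem t : SPAN.{u, v, w, x} := by
  intro k _ ι τ _ V c p hne M hgen S hS
  classical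
  obtain ⟨a, ha⟩ := hS
  have hfin : S.Finite := Set.toFinite S
  have main : ∀ S' : Set τ, S'.Finite → ∀ z : M.carrier (insert a S'),
      z ∈ Submodule.span (diffRing V c p (insert a S'))
        (Set.range fun s : M.GlobalSection => M.on s (insert a S')) := by
    intro S' hS'
    induction S', hS' using Set.Finite.induction_on with
    | empty =>
      have e : insert a (∅ : Set τ) = {a} := by simp
      rw [e]
      intro z
      have h1 := hgen a z
      have h2 : (fun s : M.GlobalSection => M.on s {a}) = fun s : M.GlobalSection => s.1 a := by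
        funext s
        rw [M.on_eq s {a} a (Set.mem_singleton a), M.res_self]
      rw [h2]
      exact h1
    | @insert b S' hb _ ih =>
      intro z
      have e : insert a (insert b S') = insert b (insert a S') := Set.insert_comm a b S'
      revert z
      rw [e]
      intro z
      have haS : a ∈ insert a S' := Set.mem_insert a S'
      obtain ⟨n, y, hy⟩ := M.loc_surj (insert a S') a b haS z
      have h1 := ih y
      have h2 := res_span M (Set.subset_insert b (insert a S')) ⟨a, haS⟩ y h1
      rw [hy] at h2
      have h3 := Submodule.smul_mem _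
        (ratioOp V c p a b (S := insert b (insert a S')) (Set.mem_insert b _) ^ n) h2
      rw [← mul_smul, ratioOp_pow_swap hne, one_smul] at h3
      exact h3
  have h := main S hfin
  rwa [Set.insert_eq_of_mem ha] at h

end SPAN

end Pool.Agent.H17DA
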