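import Pool.Agent.H17DA.KMod

/-!
# Descending induction
-/

set_option autoImplicit false
set_option linter.unusedSectionVars false

namespace Pool.Agent.H17DA

open Pool.Agent.H824 Finset MvPolynomial

universe u v w x

section general

variable {k : Type u} [Field k] {ι : Type v} {τ : Type w} {V : ProjVariety k ι} {c : τ → ι} {p : ℕ}

variable [LinearOrder τ]

variable (V c p) in
/-- `H^i(D) = 0` -/
def DVanish (i : ℕ) : Prop := ∀ F : Finset τ → Op V c,
  (∀ T : Finset τ, T.card = i + 1 → F T ∈ diffRing V c p (T : Set τ)) →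
  (∀ T : Finset τ, T.card = i + 2 → cO F T = 0) →
  ∃ G : Finset τ → Op V c, (∀ T : Finset τ, T.card = i → G T ∈ diffRing V c p (T : Set τ)) ∧
    ∀ T : Finset τ, T.card = i + 1 → cO G T = F T

/-- the differential of a family of operators -/
noncomputable def dD (D : ∀ T : Finset τ, diffRing V c p (T : Set τ)) (T : Finset τ) :
    diffRing V c p (T : Set τ) :=
  ∑ a ∈ T, DMod.sgn T a •
    incl V c p (Finset.coe_subset.mpr (Finset.erase_subset a T)) (D (T.erase a))

theorem dD_val (D : ∀ T : Finset τ, diffRing V c p (T : Set τ)) (T : Finset τ) :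
    (dD D T).1 = cO (fun T' => (D T').1) T := by
  unfold dD cO
  rw [AddSubmonoidClass.coe_finsetSum]
  rfl

theorem nonempty_erase {T : Finset τ} {i : ℕ} (hi : 1 ≤ i) (hT : T.card = i + 1) {a : τ}
    (ha : a ∈ T) : ((T.erase a : Finset τ) : Set τ).Nonempty := by
  have h1 : (T.erase a).card = i := by
    rw [Finset.card_erase_of_mem ha, hT]
    rfl
  rw [Finset.coe_nonempty, ← Finset.card_pos]
  omega

/-- the differential of a combination of global sections -/
theorem cechDiff_comb (M : DMod.{x} V c p) {r : ℕ} (σ : Fin r → M.GlobalSection)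
    (D : Fin r → ∀ T : Finset τ, diffRing V c p (T : Set τ))
    (f : ∀ T : Finset τ, M.carrier (T : Set τ)) (T : Finset τ)
    (hf : ∀ a ∈ T, f (T.erase a) = ∑ j, D j (T.erase a) • M.on (σ j) (T.erase a : Finset τ))
    (hne : ∀ a ∈ T, ((T.erase a : Finset τ) : Set τ).Nonempty) :
    M.cechDiff f T = ∑ j, dD (D j) T • M.on (σ j) (T : Set τ) := by
  unfold DMod.cechDiff dD
  simp only [Finset.sum_smul]
  rw [Finset.sum_comm]
  apply Finset.sum_congr rfl
  intro a ha
  rw [hf a ha, ← sum_on_res M σ _ (hne a ha), Finset.smul_sum]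
  apply Finset.sum_congr rfl
  intro j _
  rw [smul_assoc]

theorem exists_comb [Fintype τ] (M : DMod.{x} V c p)
    (hspan : ∀ (S : Set τ), S.Nonempty → ∀ z : M.carrier S,
      z ∈ Submodule.span (diffRing V c p S) (Set.range fun s : M.GlobalSection => M.on s S))
    (f : ∀ T : Finset τ, M.carrier (T : Set τ)) :
    ∃ (r : ℕ) (σ : Fin r → M.GlobalSection) (D : Fin r → ∀ T : Finset τ, diffRing V c p (T : Set τ)),
      ∀ T : Finset τ, T.Nonempty → f T = ∑ j, D j T • M.on (σ j) (T : Set τ) := by
  classical
  have h1 : ∀ T : Finset τ, ∃ g : M.GlobalSection →₀ diffRing V c p (T : Set τ),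
      T.Nonempty → (g.sum fun s δ => δ • M.on s (T : Set τ)) = f T := by
    intro T
    by_cases hT : T.Nonempty
    · obtain ⟨g, hg⟩ := (Finsupp.mem_span_range_iff_exists_finsupp).mp
        (hspan (T : Set τ) (Finset.coe_nonempty.mpr hT) (f T))
      exact ⟨g, fun _ => hg⟩
    · exact ⟨0, fun h => absurd h hT⟩
  choose g hg using h1
  let J : Finset M.GlobalSection := Finset.univ.biUnion fun T => (g T).support
  refine ⟨J.card, fun j => (J.equivFin.symm j).1, fun j T => g T (J.equivFin.symm j).1, ?_⟩
  intro T hT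
  rw [← hg T hT]
  have h2 : (g T).support ⊆ J :=
    Finset.subset_biUnion_of_mem (fun T => (g T).support) (Finset.mem_univ T)
  rw [Finsupp.sum_of_support_subset (g T) h2 (fun s δ => δ • M.on s (T : Set τ))
    (fun s _ => zero_smul _ _)]
  rw [← Finset.sum_coe_sort J (fun s => g T s • M.on s (T : Set τ))]
  exact (Equiv.sum_comp J.equivFin.symm (fun s : J => g T s.1 • M.on s.1 (T : Set τ))).symm

theorem step [Fintype τ] (hDD : DD.{w, max u v}) (hD : ∀ i, 1 ≤ i → DVanish V c p i)
    (hloc : DLoc V c p) (M : DMod.{x} V c p)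
    (hspan : ∀ (S : Set τ), S.Nonempty → ∀ z : M.carrier S,
      z ∈ Submodule.span (diffRing V c p S) (Set.range fun s : M.GlobalSection => M.on s S))
    (i : ℕ) (hi : 1 ≤ i) (hK : ∀ K : DMod.{max u v} V c p, K.HZero (i + 1)) : M.HZero i := by
  classical
  intro f hf
  obtain ⟨r, σ, D, hfD⟩ := exists_comb M hspan f
  -- the relations
  let K := KMod hloc M σ
  have hrel : ∀ T : Finset τ, T.card = i + 2 →
      (fun j => dD (D j) T) ∈ relK M σ (T : Set τ) := by
    intro T hT S' h hne
    have hTne : (T : Set τ).Nonempty := by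
      rw [Finset.coe_nonempty, ← Finset.card_pos]
      omega
    rw [sum_on_res M σ h hTne (fun j => dD (D j) T),
      ← cechDiff_comb M σ D f T, hf T hT, map_zero]
    · intro a ha
      exact hfD _ (Finset.coe_nonempty.mp (nonempty_erase (i := i + 1) (by omega) hT ha))
    · intro a ha
      exact nonempty_erase (i := i + 1) (by omega) hT ha
  let h : ∀ T : Finset τ, K.carrier (T : Set τ) := fun T =>
    if hT : T.card = i + 2 then (⟨fun j => dD (D j) T, hrel T hT⟩ : relK M σ (T : Set τ))
      else (0 : relK M σ (T : Set τ))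
  have hval : ∀ (y : ∀ T : Finset τ, relK M σ (T : Set τ)) (T : Finset τ) (j : Fin r),
      (show relK M σ (T : Set τ) from K.cechDiff y T).1 j = dD (fun T' => (y T').1 j) T := by
    intro y T j
    change (((∑ a ∈ T, DMod.sgn T a • relRes M σ _ (y (T.erase a)) : relK M σ (T : Set τ))).1) j = _
    rw [AddSubmonoidClass.coe_finsetSum, Finset.sum_apply]
    rfl
  have hval2 : ∀ (y : ∀ T : Finset τ, relK M σ (T : Set τ)) (T : Finset τ) (j : Fin r),
      ((show relK M σ (T : Set τ) from K.cechDiff y T).1 j).1 = cO (fun T' => ((y T').1 j).1) T := by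
    intro y T j
    rw [hval, dD_val]
  have hcoc : ∀ T : Finset τ, T.card = i + 1 + 2 → K.cechDiff h T = 0 := by
    intro T hT
    apply Subtype.ext
    funext j
    apply Subtype.ext
    have h1 := hval2 h T j
    refine h1.trans ?_
    have h2 : cO (fun T' => ((h T').1 j).1) T = cO (cO fun T' => (D j T').1) T := by
      unfold cO
      apply Finset.sum_congr rfl
      intro a ha
      congr 1
      have h3 : (T.erase a).card = i + 2 := by
        rw [Finset.card_erase_of_mem ha, hT]
        rfl
      change ((h (T.erase a)).1 j).1 = cO (fun T' => (D j T').1) (T.erase a)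
      rw [← dD_val]
      simp only [h]
      rw [dif_pos h3]
    rw [h2]
    exact hDD τ _ _ T
  obtain ⟨κ, hκ⟩ := hK K h hcoc
  -- the corrected family
  let F : Fin r → Finset τ → Op V c := fun j T => (D j T).1 - ((κ T).1 j).1
  have hF : ∀ j, ∀ T : Finset τ, T.card = i + 1 → F j T ∈ diffRing V c p (T : Set τ) := by
    intro j T _
    exact sub_mem (D j T).2 ((κ T).1 j).2
  have hF0 : ∀ j, ∀ T : Finset τ, T.card = i + 2 → cO (F j) T = 0 := by
    intro j T hT
    have h1 : cO (F j) T = cO (fun T' => (D j T').1) T - cO (fun T' => ((κ T').1 j).1) T := by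
      unfold cO
      rw [← Finset.sum_sub_distrib]
      apply Finset.sum_congr rfl
      intro a _
      exact zsmul_sub ((D j (T.erase a)).1 : Op V c) (((κ (T.erase a)).1 j).1 : Op V c)
        (DMod.sgn T a)
    have h2 := hval2 κ T j
    have h3 : K.cechDiff κ T = h T := hκ T (by omega)
    rw [h3] at h2
    rw [h1, ← h2, ← dD_val]
    simp only [h]
    rw [dif_pos hT]
    exact sub_self _
  have hG := fun j => hD i hi (F j) (hF j) (hF0 j)
  choose G hGmem hG using hG
  let G' : Fin r → ∀ T : Finset τ, diffRing V c p (T : Set τ) := fun j T =>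
    if hT : T.card = i then ⟨G j T, hGmem j T hT⟩ else 0
  refine ⟨fun T => ∑ j, G' j T • M.on (σ j) (T : Set τ), ?_⟩
  intro T hT
  have hTne : T.Nonempty := by
    rw [← Finset.card_pos]
    omega
  rw [cechDiff_comb M σ G' _ T (fun a _ => rfl) (fun a ha => nonempty_erase hi hT ha)]
  have h1 : ∀ j, dD (G' j) T = D j T - (κ T).1 j := by
    intro j
    apply Subtype.ext
    rw [dD_val]
    have h2 : cO (fun T' => (G' j T').1) T = cO (G j) T := by
      unfold cO
      apply Finset.sum_congr rfl
      intro a ha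
      congr 1
      have h3 : (T.erase a).card = i := by
        rw [Finset.card_erase_of_mem ha, hT]
        rfl
      simp only [G']
      rw [dif_pos h3]
    rw [h2, hG j T hT]
    rfl
  simp only [h1, sub_smul, Finset.sum_sub_distrib]
  rw [← hfD T hTne]
  have h4 := (κ T).2 (T : Set τ) (Set.Subset.refl _) (Finset.coe_nonempty.mpr hTne)
  simp only [incl_self] at h4
  rw [h4, sub_zero]

end general

end Pool.Agent.H17DA
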