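import Pool.Agent.H17DA.NZ
import Pool.Agent.H17DA.Step
import Pool.Agent.H17DA.DD
import Pool.Agent.H17DA.HOM
import Pool.Agent.H17DA.EXT
import Pool.Agent.H17DA.GEN
import Pool.Agent.H17DA.SPAN
import Pool.Agent.H17DA.QA
import Pool.Agent.H17DA.INC
import Pool.Agent.H17DA.LOC
import Pool.Agent.H17DA.FS
import Pool.Agent.H17DA.HD

/-!
# Assembly: quadrics of odd dimension in characteristic two
-/

set_option autoImplicit false
set_option linter.unusedSectionVars false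

namespace Pool.Agent.H17DA

open Pool.Agent.H824 Finset MvPolynomial

universe u x

section quad

variable {k : Type u} [Field k] {m : ℕ}

theorem quad_ne (a : Sg m) : (quadVar k m).el (X (xyIdx m a)) ≠ 0 := xi_some_ne a

theorem ratio_pow [CharP k 2] (b d : Sg m) (n : ℕ) (h : ∑ x, (n : ℤ) * (ed b x - ed d x) = 0) :
    (ratio (quadVar k m) (xyIdx m) b d ^ n : (quadVar k m).OpenRing (xyIdx m)) =
      (BU k m (ex0 (fun x => (n : ℤ) * (ed b x - ed d x)) h) : RU k m) := by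
  have h1 : ∑ x, (ed b x - ed d x) = 0 := by
    rw [Finset.sum_sub_distrib, sum_ed, sum_ed, sub_self]
  have h2 : (ratio (quadVar k m) (xyIdx m) b d : RU k m) =
      BU k m (ex0 (fun x => ed b x - ed d x) h1) := by
    rw [BU_apply]
    apply Subtype.ext
    change xi k m (some b) / xi k m (some d) = mon k m (ex0 (fun x => ed b x - ed d x) h1)
    have e1 : mon k m (ex0 (fun x => ed b x - ed d x) h1) =
        monZ k m (Pi.single b 1 + Pi.single d (-1)) := by
      unfold mon ex0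
      simp only [Fin.val_zero, pow_zero, mul_one]
      congr 1
      funext x
      simp only [ed, Pi.add_apply, Pi.single_apply]
      split_ifs <;> norm_num
    rw [e1, monZ_add, monZ_single, monZ_single, zpow_one, zpow_neg, zpow_one, div_eq_mul_inv]
  have h3 := pow_ex0 (mult_BU (k := k) (m := m)) (fun x => ed b x - ed d x) h1 n h
  rw [← h3, ← h2]
  rfl

theorem quasiAffine_quad [CharP k 2] : QuasiAffine (quadVar k m) (xyIdx m) 2 := by
  intro n a
  obtain ⟨r, φ, ψ, e, h1, h2, h3, h4, h5, h6⟩ :=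
    QA.t m k (RU k m) (BU k m) (mult_BU (k := k) (m := m)) n a
  have hφ : ∀ j b, (φ j b : Op (quadVar k m) (xyIdx m)) ∈
      diffRing (quadVar k m) (xyIdx m) 2 {b} := by
    intro j b
    refine ⟨⟨e, h1 j b⟩, ?_⟩
    rw [preserves_iff]
    intro S' hS' _ u hu
    exact h3 j b S' (hS' rfl) u hu
  have hψ : ∀ j, (ψ j : Op (quadVar k m) (xyIdx m)) ∈
      diffRing (quadVar k m) (xyIdx m) 2 {a} := by
    intro j
    refine ⟨⟨e, h2 j⟩, ?_⟩
    rw [preserves_iff]
    intro S' hS' _ u hu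
    exact h4 j S' (hS' rfl) u hu
  refine ⟨r, fun j b => ⟨φ j b, hφ j b⟩, fun j => ⟨ψ j, hψ j⟩, ?_, h6⟩
  intro j b d u
  have h : ∑ x, (n : ℤ) * (ed b x - ed d x) = 0 := by
    rw [← Finset.mul_sum, Finset.sum_sub_distrib, sum_ed, sum_ed, sub_self, mul_zero]
  rw [ratio_pow b d n h]
  exact h5 j b d h u

theorem op_smul [IsAlgClosed k] (δ : RU k m →+ RU k m) (e : ℕ)
    (h : ∀ x u, δ (x ^ 2 ^ e * u) = x ^ 2 ^ e * δ u) (c : k) (u : RU k m) : δ (c • u) = c • δ u :=
  lin_smul δ e h c u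

theorem dLoc_quad [IsAlgClosed k] [CharP k 2] : DLoc (quadVar k m) (xyIdx m) 2 := by
  intro S a b ha δ
  obtain ⟨δ0, ⟨e, he⟩, hp⟩ := δ
  have hB := mult_BU (k := k) (m := m)
  let D : RU k m →+ RU k m := δ0
  have hlin : ∀ x u, D (x ^ 2 ^ e * u) = x ^ 2 ^ e * D u := he
  rw [preserves_iff] at hp
  obtain ⟨n, hn⟩ := LOC.t m k (RU k m) (BU k m) hB e D hlin (op_smul D e hlin) S a b ha
    (fun u hu => hp (insert b S) (Set.Subset.refl _) (Set.insert_nonempty b S) u hu)
  have h : ∑ x, (n : ℤ) * (ed b x - ed a x) = 0 := by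
    rw [← Finset.mul_sum, Finset.sum_sub_distrib, sum_ed, sum_ed, sub_self, mul_zero]
  let t : RU k m := BU k m (ex0 (fun x => (n : ℤ) * (ed b x - ed a x)) h)
  let D' : RU k m →+ RU k m := (AddMonoidHom.mulLeft t).comp D
  have hD' : ∀ u, D' u = t * D u := fun _ => rfl
  have hlin' : ∀ x u, D' (x ^ 2 ^ e * u) = x ^ 2 ^ e * D' u := by
    intro x u
    rw [hD', hD', hlin]
    ring
  have hmem : (D' : Op (quadVar k m) (xyIdx m)) ∈ diffRing (quadVar k m) (xyIdx m) 2 S := by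
    refine ⟨⟨e, hlin'⟩, ?_⟩
    rw [preserves_iff]
    intro S' hS' _ u hu
    exact INC.t m k (RU k m) (BU k m) hB e D' hlin' (op_smul D' e hlin') S S' ⟨a, ha⟩ hS'
      (fun u hu => hn h u hu) u hu
  refine ⟨n, ⟨D', hmem⟩, ?_⟩
  apply Subtype.ext
  apply AddMonoidHom.ext
  intro u
  change t * D u = (ratioOp (quadVar k m) (xyIdx m) 2 b a
    (Set.mem_insert_of_mem b ha) ^ n).1 (δ0 u)
  rw [ratioOp_pow_apply, ratio_pow b a n h]
  rfl

theorem dVanish_quad [IsAlgClosed k] [CharP k 2] [LinearOrder (Sg m)] (i : ℕ) :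
    DVanish (quadVar k m) (xyIdx m) 2 i := by
  intro F hF hd
  obtain ⟨G, hG, hGF⟩ := HD.t HOM.t m k i F (by
    intro T hT
    obtain ⟨h1, h2⟩ := hF T hT
    rw [preserves_iff] at h2
    exact ⟨h1, h2⟩) hd
  refine ⟨G, ?_, hGF⟩
  intro T hT
  obtain ⟨h1, h2⟩ := hG T hT
  refine ⟨h1, ?_⟩
  rw [preserves_iff]
  exact h2

theorem generated_quad [CharP k 2] (M : DMod.{x} (quadVar k m) (xyIdx m) 2) : M.Generated :=
  GEN.t k _ _ _ _ _ M (EXT.t k _ _ _ _ _ quad_ne M) quasiAffine_quad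

theorem step_quad [IsAlgClosed k] [CharP k 2] [LinearOrder (Sg m)] (i : ℕ) (hi : 1 ≤ i)
    (hK : ∀ K : DMod.{u} (quadVar k m) (xyIdx m) 2, K.HZero (i + 1))
    (M : DMod.{x} (quadVar k m) (xyIdx m) 2) : M.HZero i :=
  step DD.t (fun i _ => dVanish_quad i) dLoc_quad M
    (SPAN.t k _ _ _ _ _ quad_ne M (generated_quad M)) i hi hK

theorem hZero_quad [IsAlgClosed k] [CharP k 2] [LinearOrder (Sg m)] (n : ℕ) :
    ∀ i, 1 ≤ i → Fintype.card (Sg m) ≤ i + n → ∀ M : DMod.{u} (quadVar k m) (xyIdx m) 2,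
      M.HZero i := by
  induction n with
  | zero =>
    intro i _ h M f _
    refine ⟨f, ?_⟩
    intro T hT
    have : T.card ≤ Fintype.card (Sg m) := Finset.card_le_univ T
    omega
  | succ n ih =>
    intro i hi h M
    exact step_quad i hi (ih (i + 1) (by omega) (by omega)) M

theorem isDAffine_quad [IsAlgClosed k] [CharP k 2] [LinearOrder (Sg m)] :
    IsDAffine.{x} (quadVar k m) (xyIdx m) 2 := by
  intro M
  refine ⟨generated_quad M, ?_⟩
  intro i hi
  exact step_quad i hi (hZero_quad (Fintype.card (Sg m)) (i + 1) (by omega) (by omega)) M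

theorem fSplit_quad [IsAlgClosed k] [CharP k 2] : FSplit (quadVar k m) (xyIdx m) 2 := by
  obtain ⟨σ, h1, h2, h3⟩ := FS.t m k (RU k m) (BU k m) (mult_BU (k := k) (m := m))
  refine ⟨σ, h1, h2, ?_⟩
  rw [preserves_iff]
  exact fun S' _ _ u hu => h3 S' u hu

end quad

end Pool.Agent.H17DA
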