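import Pool.Agent.H17DA.Stm

/-!
# `H¹(D^(e)) ≠ 0` for the quadric
-/

set_option autoImplicit false
set_option linter.unusedSectionVars false

namespace Pool.Agent.H17DA

open Pool.Agent.H824 Finset MvPolynomial

section weights

variable {m : ℕ}

theorem pr_nonneg (l : Fin (m + 1)) (b : Sg m) : 0 ≤ pr l b := by
  unfold pr
  split_ifs <;> norm_num

theorem pr_le (l : Fin (m + 1)) (b : Sg m) : pr l b ≤ 1 := by
  unfold pr
  split_ifs <;> norm_num

/-- the weights -/
theorem exists_weights (hm : 1 ≤ m) (s : ℕ) (hs : 1 ≤ s) :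
    ∃ (mu nu : Sg m → ℤ) (N : ℤ), ∑ b, nu b = 2 * 2 ^ s ∧ (∀ b, 0 ≤ mu b) ∧ (∀ b, 0 ≤ nu b) ∧
      (∀ b, mu b + nu b < 2 ^ s) ∧ 2 ^ s * ((m : ℤ) + 1) + ∑ b, mu b = 2 * 2 ^ s * N := by
  obtain ⟨r, rfl⟩ : ∃ r, s = r + 1 := ⟨s - 1, by omega⟩
  have hpos : (0 : ℤ) < 2 ^ r := by positivity
  let l0 : Fin (m + 1) := ⟨0, by omega⟩
  let l1 : Fin (m + 1) := ⟨1, by omega⟩
  have h01 : ∀ b : Sg m, pr l0 b + pr l1 b ≤ 1 := by
    intro b
    unfold pr
    have : l0 ≠ l1 := by
      intro h
      have := congrArg Fin.val h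
      simp [l0, l1] at this
    by_cases h0 : b.1 = l0
    · have h1 : b.1 ≠ l1 := by rw [h0]; exact this
      rw [if_pos h0, if_neg h1]
      norm_num
    · rw [if_neg h0]
      split_ifs <;> norm_num
  have hnu : ∑ b : Sg m, (2 ^ r * (pr l0 b + pr l1 b) : ℤ) = 2 * 2 ^ (r + 1) := by
    rw [← Finset.mul_sum, Finset.sum_add_distrib, sum_pr, sum_pr]
    ring
  rcases Nat.even_or_odd m with he | ho
  · obtain ⟨t, ht⟩ := he
    have hm2 : 2 ≤ m := by omega
    let l2 : Fin (m + 1) := ⟨2, by omega⟩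
    refine ⟨fun b => 2 ^ r * pr l2 b, fun b => 2 ^ r * (pr l0 b + pr l1 b), t + 1, hnu, ?_, ?_, ?_,
      ?_⟩
    · intro b
      exact mul_nonneg hpos.le (pr_nonneg _ _)
    · intro b
      exact mul_nonneg hpos.le (add_nonneg (pr_nonneg _ _) (pr_nonneg _ _))
    · intro b
      have h3 : pr l2 b + (pr l0 b + pr l1 b) ≤ 1 := by
        by_cases h2 : b.1 = l2
        · have e0 : pr l0 b = 0 := by
            unfold pr
            rw [if_neg]
            rw [h2]
            intro h
            have := congrArg Fin.val h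
            simp [l0, l2] at this
          have e1 : pr l1 b = 0 := by
            unfold pr
            rw [if_neg]
            rw [h2]
            intro h
            have := congrArg Fin.val h
            simp [l1, l2] at this
          rw [e0, e1]
          have := pr_le l2 b
          linarith
        · have e2 : pr l2 b = 0 := by
            unfold pr
            rw [if_neg h2]
          rw [e2]
          have := h01 b
          linarith
      calc (2 : ℤ) ^ r * pr l2 b + 2 ^ r * (pr l0 b + pr l1 b)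
          = 2 ^ r * (pr l2 b + (pr l0 b + pr l1 b)) := by ring
        _ ≤ 2 ^ r * 1 := mul_le_mul_of_nonneg_left h3 hpos.le
        _ < 2 ^ (r + 1) := by
            rw [pow_succ]
            linarith
    · rw [← Finset.mul_sum, sum_pr, ht]
      push_cast
      ring
  · obtain ⟨t, ht⟩ := ho
    refine ⟨fun _ => 0, fun b => 2 ^ r * (pr l0 b + pr l1 b), t + 1, hnu, ?_, ?_, ?_, ?_⟩
    · intro b
      exact le_refl _
    · intro b
      exact mul_nonneg hpos.le (add_nonneg (pr_nonneg _ _) (pr_nonneg _ _))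
    · intro b
      calc (0 : ℤ) + 2 ^ r * (pr l0 b + pr l1 b)
          = 2 ^ r * (pr l0 b + pr l1 b) := by ring
        _ ≤ 2 ^ r * 1 := mul_le_mul_of_nonneg_left (h01 b) hpos.le
        _ < 2 ^ (r + 1) := by
            rw [pow_succ]
            linarith
    · rw [Finset.sum_const_zero, ht]
      push_cast
      ring

end weights

section quad

variable {k : Type*} [Field k] {m : ℕ}

theorem preserves_iff [CharP k 2] (S : Set (Sg m)) (δ : RU k m →+ RU k m) :
    Preserves (quadVar k m) (xyIdx m) S δ ↔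
      ∀ S' : Set (Sg m), S ⊆ S' → S'.Nonempty → ∀ u ∈ polesIn (BU k m) S', δ u ∈ polesIn (BU k m) S' := by
  constructor
  · intro h S' hS hne u hu
    rw [polesIn_iff _ hne] at hu ⊢
    exact h S' hS hne u hu
  · intro h S' hS hne u hu
    have hu' := (polesIn_iff S' hne u).mpr hu
    exact (polesIn_iff S' hne _).mp (h S' hS hne u hu')

theorem level_ne_zero [IsAlgClosed k] [CharP k 2] (hm : 1 ≤ m) (s : ℕ) (hs : 1 ≤ s) :
    ¬ LevelH1Zero (quadVar k m) (xyIdx m) (2 ^ (s + 1)) := by
  intro hz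
  obtain ⟨mu, nu, N, hnu, hmu0, hnu0, hmn, hN⟩ := exists_weights hm s hs
  have hT : (0 : ℤ) < 2 ^ s := by positivity
  have hB := mult_BU (k := k) (m := m)
  let D : Sg m → (RU k m →+ RU k m) := fun a =>
    (Dl (BU k m) (2 ^ s) mu nu hnu a).toAddMonoidHom
  have hD : ∀ a u, D a u = Dl (BU k m) (2 ^ s) mu nu hnu a u := fun _ _ => rfl
  let f : Sg m → Sg m → (RU k m →+ RU k m) := fun a b => D b - D a
  have hf : ∀ a b u, f a b u = Dl (BU k m) (2 ^ s) mu nu hnu b u -
      Dl (BU k m) (2 ^ s) mu nu hnu a u := fun _ _ _ => rfl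
  have key : ∀ (a b : Sg m) (x u : RU k m),
      f a b (x ^ 2 ^ (s + 1) * u) = x ^ 2 ^ (s + 1) * f a b u := by
    intro a b x u
    rw [hf, hf, mul_sub]
    have := comm_indep hB s mu nu hnu a b x u
    linear_combination -this
  obtain ⟨g, hg, hgf⟩ := hz f (by
    intro a b
    constructor
    · exact fun x u => key a b x u
    · rw [preserves_iff]
      intro S' hS _ u hu
      rw [hf]
      exact sub_mem (Dl_poles _ hT mu nu hnu hmu0 hnu0 hmn b S' (hS (by simp)) u hu)
        (Dl_poles _ hT mu nu hnu hmu0 hnu0 hmn a S' (hS (by simp)) u hu)) (by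
    intro a b d
    change (D d - D b) - (D d - D a) + (D b - D a) = 0
    abel)
  refine no_split hB s mu nu hnu hmu0 hnu0 hmn N hN g ?_ ?_ ?_
  · intro a x u
    exact (hg a).1 x u
  · intro a u hu
    have h1 := (preserves_iff {a} (g a)).mp (hg a).2
    exact h1 {a} (le_refl _) (Set.singleton_nonempty a) u hu
  · intro a b u
    rw [← hf a b u]
    have := hgf a b
    rw [this]
    rfl

end quad

end Pool.Agent.H17DA
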