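import Pool.Agent.H17DA.Defs

/-!
# `D`-modules on a projective variety in characteristic `p`, and `D`-affinity

The notation is that of `H17DA/Defs.lean`: `V` is a projective variety, `c : τ → ι` a finite family of
homogeneous coordinates such that the affine open sets `U_a = {x_{c a} ≠ 0}` cover `V`, and `U_S` is the
intersection of the `U_a`, `a ∈ S`.
-/

set_option autoImplicit false

namespace Pool.Agent.H17DA

open MvPolynomial Pool.Agent.H824

universe v

variable {k : Type*} [Field k] {ι τ : Type*} (V : ProjVariety k ι)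

/-- The ring `D(U_S)` of the differential operators on `U_S` (`diffRing`), as a type. -/
def DRing (c : τ → ι) (p : ℕ) (S : Set τ) : Type _ := diffRing V c p S

noncomputable instance instDRing (c : τ → ι) (p : ℕ) (S : Set τ) : Ring (DRing V c p S) :=
  (inferInstance : Ring (diffRing V c p S))

/-- The inclusion `D(U_S) ⊆ D(U_{S'})`, `S ⊆ S'`. -/
def inclD (c : τ → ι) (p : ℕ) {S S' : Set τ} (h : S ⊆ S') (δ : DRing V c p S) : DRing V c p S' :=
  incl V c p h δ

/-- The multiplication by `(x_{c b} / x_{c a}) ^ n`, a differential operator on `U_S` if `a ∈ S`. -/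
noncomputable def ratioD (c : τ → ι) (p : ℕ) (b a : τ) {S : Set τ} (ha : a ∈ S) (n : ℕ) :
    DRing V c p S :=
  (ratioOp V c p b a ha ^ n : diffRing V c p S)

theorem sub_insert (b : τ) (S : Set τ) : S ⊆ insert b S := Set.subset_insert b S

theorem mem_ins {a : τ} (b : τ) {S : Set τ} (ha : a ∈ S) : a ∈ insert b S :=
  Set.mem_insert_of_mem b ha

theorem pairL (a b : τ) : ({a} : Set τ) ⊆ {a, b} := by simp

theorem pairR (a b : τ) : ({b} : Set τ) ⊆ {a, b} := by simp

/-- A presheaf of modules over the rings `D(U_S)`, without its axioms: the groups of sections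
`carrier S` on `U_S`, which are modules over `D(U_S)`, and the restriction maps. -/
structure PreMod (c : τ → ι) (p : ℕ) where
  /-- the sections on `U_S` -/
  carrier : Set τ → Type v
  /-- the addition -/
  [grp : ∀ S, AddCommGroup (carrier S)]
  /-- the action of the differential operators -/
  [mod : ∀ S, Module (DRing V c p S) (carrier S)]
  /-- the restriction -/
  res : ∀ {S S' : Set τ}, S ⊆ S' → carrier S →+ carrier S'

attribute [instance] PreMod.grp PreMod.mod

namespace PreMod

variable {V} {c : τ → ι} {p : ℕ} (M : PreMod.{v} V c p)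

/-- The action of a differential operator on a section. -/
noncomputable def act {S : Set τ} (δ : DRing V c p S) (x : M.carrier S) : M.carrier S := δ • x

/-- The restriction of a section. -/
def rs {S S' : Set τ} (h : S ⊆ S') (x : M.carrier S) : M.carrier S' := M.res h x

/-- The restriction maps are functorial. -/
def Functorial : Prop :=
  (∀ (S : Set τ) (h : S ⊆ S) (x : M.carrier S), M.rs h x = x) ∧
    ∀ (S S' S'' : Set τ) (h : S ⊆ S') (h' : S' ⊆ S'') (x : M.carrier S),
      M.rs h' (M.rs h x) = M.rs (h.trans h') x

/-- The restriction maps are compatible with the actions of `D(U_S) ⊆ D(U_{S'})`. -/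
def Compatible : Prop :=
  ∀ (S S' : Set τ) (h : S ⊆ S') (δ : DRing V c p S) (x : M.carrier S),
    M.rs h (M.act δ x) = M.act (inclD V c p h δ) (M.rs h x)

/-- Quasi-coherence, first half: for a section `x` on `U_{S ∪ {b}}` and `a ∈ S`, a multiple
`(x_{c b} / x_{c a}) ^ n x` extends to `U_S`. -/
def LocSurj : Prop :=
  ∀ (S : Set τ) (a b : τ) (ha : a ∈ S) (x : M.carrier (insert b S)),
    ∃ (n : ℕ) (y : M.carrier S), M.rs (sub_insert b S) y = M.act (ratioD V c p b a (mem_ins b ha) n) x

/-- Quasi-coherence, second half: a section `x` on `U_S` whose restriction to `U_{S ∪ {b}}` is zero is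
killed by `(x_{c b} / x_{c a}) ^ n` for some `n`, `a ∈ S`. -/
def LocInj : Prop :=
  ∀ (S : Set τ) (a b : τ) (ha : a ∈ S) (x : M.carrier S),
    M.rs (sub_insert b S) x = 0 → ∃ n : ℕ, M.act (ratioD V c p b a ha n) x = 0

/-- `M` is a `D`-module on `V`, quasi-coherent as an `O`-module. -/
def IsDMod : Prop := M.Functorial ∧ M.Compatible ∧ M.LocSurj ∧ M.LocInj

/-- A global section: a family of sections on the `U_a` that agree on the `U_a ∩ U_b`. -/
structure GSec where
  /-- the sections on the `U_a` -/
  val : ∀ a : τ, M.carrier {a}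
  glue : ∀ a b : τ, M.rs (pairL a b) (val a) = M.rs (pairR a b) (val b)

/-- `M` is generated by its global sections: on each `U_a`, every section is a combination of global
sections with coefficients in `D(U_a)`. -/
def Generated : Prop :=
  ∀ (a : τ) (x : M.carrier {a}), ∃ (r : ℕ) (s : Fin r → M.GSec) (δ : Fin r → DRing V c p {a}),
    x = ∑ j, M.act (δ j) ((s j).val a)

variable [LinearOrder τ]

theorem erase_sub (T : Finset τ) (a : τ) : ((T.erase a : Finset τ) : Set τ) ⊆ (T : Set τ) :=
  Finset.coe_subset.mpr (Finset.erase_subset a T)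

/-- The Čech differential: for a family `f` of sections on the `U_T`, and `T = {a_0 < … < a_n}`, the
sum of the `(-1) ^ j f (T \ {a_j})` on `U_T`. -/
def cechDiff (f : ∀ T : Finset τ, M.carrier (T : Set τ)) (T : Finset τ) : M.carrier (T : Set τ) :=
  ∑ a ∈ T, (-1 : ℤ) ^ (T.filter (· < a)).card • M.rs (erase_sub T a) (f (T.erase a))

/-- The `i`-th Čech cohomology group is zero, `i ≥ 1`: a family of sections on the open sets `U_T`,
with `T` of `i + 1` elements, whose differential is zero is a differential. -/
def HZero (i : ℕ) : Prop :=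
  ∀ f : ∀ T : Finset τ, M.carrier (T : Set τ),
    (∀ T : Finset τ, T.card = i + 2 → M.cechDiff f T = 0) →
      ∃ g : ∀ T : Finset τ, M.carrier (T : Set τ),
        ∀ T : Finset τ, T.card = i + 1 → M.cechDiff g T = f T

end PreMod

/-- `V` is `D`-affine: every `D`-module, quasi-coherent as an `O`-module, is generated by its global
sections and has no higher cohomology. -/
def DAffine [LinearOrder τ] (c : τ → ι) (p : ℕ) : Prop :=
  ∀ M : PreMod.{v} V c p, M.IsDMod → M.Generated ∧ ∀ i : ℕ, 1 ≤ i → M.HZero i

end Pool.Agent.H17DA
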