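import Pool.Agent.H17DA.Pub
import Pool.Agent.H17DA.Main

set_option autoImplicit false
set_option linter.unusedSectionVars false

namespace Pool.Agent.H17DA

open MvPolynomial Pool.Agent.H824

universe u v w x

section general

variable {k : Type u} [Field k] {ι : Type v} {τ : Type w} {V : ProjVariety k ι} {c : τ → ι} {p : ℕ}

/-- the two definitions agree -/
noncomputable def PreMod.toDMod (M : PreMod.{x} V c p) (hM : M.IsDMod) : DMod.{x} V c p where
  carrier := M.carrier
  grp := M.grp
  mod := fun S => (M.mod S : Module (DRing V c p S) (M.carrier S))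
  res := M.res
  res_self := fun h x => hM.1.1 _ h x
  res_res := fun h h' x => hM.1.2 _ _ _ h h' x
  res_smul := fun h δ x => hM.2.1 _ _ h δ x
  loc_surj := hM.2.2.1
  loc_inj := hM.2.2.2

theorem generated_of (M : PreMod.{x} V c p) (hM : M.IsDMod) (h : (M.toDMod hM).Generated) :
    M.Generated := by
  intro a z
  have h1 := h a z
  obtain ⟨g, hg⟩ := (Finsupp.mem_span_range_iff_exists_finsupp).mp h1
  let J := g.support
  let gs : (M.toDMod hM).GlobalSection → M.GSec := fun s => ⟨s.1, fun a b => s.2 a b⟩
  refine ⟨J.card, fun j => gs (J.equivFin.symm j).1, fun j => g (J.equivFin.symm j).1, ?_⟩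
  have h2 : z = ∑ s ∈ J, M.act (g s) ((gs s).val a) := hg.symm
  rw [h2, ← Finset.sum_coe_sort J (fun s => M.act (g s) ((gs s).val a))]
  exact (Equiv.sum_comp J.equivFin.symm
    (fun s : J => M.act (g s.1) ((gs s.1).val a))).symm

theorem hZero_of [LinearOrder τ] (M : PreMod.{x} V c p) (hM : M.IsDMod) (i : ℕ)
    (h : (M.toDMod hM).HZero i) : M.HZero i := h

end general

theorem dAffine_quad {k : Type u} [Field k] [IsAlgClosed k] [CharP k 2] {m : ℕ}
    [LinearOrder (Sg m)] : DAffine.{x} (quadVar k m) (xyIdx m) 2 := by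
  intro M hM
  have h := isDAffine_quad (k := k) (m := m) (M.toDMod hM)
  exact ⟨generated_of M hM h.1, fun i hi => hZero_of M hM i (h.2 i hi)⟩

end Pool.Agent.H17DA
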