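import Pool.Agent.H17DA.Defs
import Pool.Agent.H17DA.Inst

/-!
# Project DAQ (helper17, MP_5ac764_ag Q2): quadrics in characteristic two are `D`-affine, stubs

Prove `theorem t : STUB` (universe-polymorphic where the stub is: e.g. `theorem t : DD.{u, v}`) in
`Pool/Agent/H17DA/<Stub>.lean` (import `Pool.Agent.H17DA.Stm`), namespace `Pool.Agent.H17DA.<Stub>`.
The definitions are in `H17DA/Defs.lean` (general variety), `H17DA/Core.lean`, `Core3.lean` (monomials:
`Sg m = Fin (m+1) × Fin 2`, `ed a` = unit vector, `pr l = ed (l,0) + ed (l,1)`, `ex0 w`, `ex1 w` the exponents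
`ξ^w`, `ξ^w ζ` of degree zero, `Mult B` = the multiplication rules, `Expo.shift`, `polesIn B S` = span of the
`B i` whose negative exponents lie in `S`) and `H824/DaffA.lean`. Useful: `Core.repr_shift`, `shift_v`,
`shift_shift`, `Core2.expo_cases`, `Core2.pow_ex0` (`B (ex0 w) ^ n = B (ex0 (n w))`).
-/

set_option autoImplicit false

namespace Pool.Agent.H17DA

open Pool.Agent.H824 Finset MvPolynomial

universe u v w x

/-- the ordered Čech differential with values in a group -/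
def cO {τ : Type u} [LinearOrder τ] {A : Type v} [AddCommGroup A] (F : Finset τ → A)
    (T : Finset τ) : A :=
  ∑ a ∈ T, DMod.sgn T a • F (T.erase a)

/-- the homotopy -/
def hO {τ : Type u} [LinearOrder τ] [Fintype τ] {A : Type v} [AddCommGroup A] (P : τ → A →+ A)
    (F : Finset τ → A) (T : Finset τ) : A :=
  ∑ a : τ, if a ∈ T then 0 else DMod.sgn (insert a T) a • P a (F (insert a T))

/-- **DD**: `d ∘ d = 0`. The sum over the ordered pairs `a ≠ b` in `T` is antisymmetric:
`sgn T a * sgn (T.erase a) b = - sgn T b * sgn (T.erase b) a` (if `b < a` the first is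
`sgn T a * sgn T b`, the second `sgn T b * (- sgn T a)`), and `(T.erase a).erase b = (T.erase b).erase a`
(`Finset.sum_involution` on `T.sigma`, or `Finset.sum_comm'`). -/
def DD : Prop := ∀ (τ : Type u) [LinearOrder τ] (A : Type v) [AddCommGroup A] (F : Finset τ → A)
  (T : Finset τ), cO (cO F) T = 0

/-- **HOM**: contracting homotopy of the ordered Čech complex. For `T.card = n + 1`:
`cO (hO P F) T = ∑_{b ∈ T} sgn T b • ∑_{a ∉ T \ b} sgn (T \ b ∪ a) a • P a (F (T \ b ∪ a))`. The terms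
`a = b` give `∑_{b ∈ T} P b (F T)` (the two signs are equal). For `a ∉ T` apply `P a` to
`cO F (T ∪ a) = 0` (`card = n + 2`):
`sgn (T ∪ a) a • P a (F T) = - ∑_{b ∈ T} sgn (T ∪ a) b • P a (F (T ∪ a \ b))`, and
`sgn T b * sgn (T \ b ∪ a) a = - sgn (T ∪ a) a * sgn (T ∪ a) b` (check `a < b` and `b < a`), hence the
terms with `a ∉ T` give `P a (F T)`. The total is `∑ a, P a (F T) = F T`. -/
def HOM : Prop := ∀ (τ : Type u) [LinearOrder τ] [Fintype τ] (A : Type v) [AddCommGroup A]
  (P : τ → A →+ A) (n : ℕ) (F : Finset τ → A),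
  (∀ T : Finset τ, T.card = n + 1 → ∑ a, P a (F T) = F T) →
  (∀ T : Finset τ, T.card = n + 2 → cO F T = 0) →
  ∀ T : Finset τ, T.card = n + 1 → cO (hO P F) T = F T

section general

variable {k : Type u} [Field k] {ι : Type v} {τ : Type w} {V : ProjVariety k ι} {c : τ → ι} {p : ℕ}

/-- every section on `U_a` extends to a section of a twist by `n`, given by sections `y b` on the `U_b`
with `y d = (x_b / x_d) ^ n y b` on `U_b ∩ U_d` -/
def Extends (M : DMod.{x} V c p) : Prop :=
  ∀ (a : τ) (z : M.carrier {a}), ∃ (n : ℕ) (y : ∀ b, M.carrier {b}), y a = z ∧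
    ∀ b d, M.res (S' := {b, d}) (by simp) (y d) =
      ratioOp V c p b d (S := {b, d}) (by simp) ^ n • M.res (S' := {b, d}) (by simp) (y b)

/-- the identity of `O(n)` factors through `O`, by global differential operators `O(n) → O` and local ones
`O → O(n)` -/
def QuasiAffine (V : ProjVariety k ι) (c : τ → ι) (p : ℕ) : Prop :=
  ∀ (n : ℕ) (a : τ), ∃ (r : ℕ) (φ : Fin r → ∀ b, diffRing V c p {b})
    (ψ : Fin r → diffRing V c p {a}),
    (∀ j b d u, (φ j d).1 (ratio V c b d ^ n * u) = (φ j b).1 u) ∧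
      ∀ u, ∑ j, (ψ j).1 ((φ j a).1 u) = u

open Classical in
/-- a global section on `U_S` (zero if `S` is empty) -/
noncomputable def DMod.on (M : DMod.{x} V c p) (s : M.GlobalSection) (S : Set τ) : M.carrier S :=
  if h : S.Nonempty then M.res (Set.singleton_subset_iff.mpr h.some_mem) (s.1 h.some) else 0

theorem DMod.on_eq (M : DMod.{x} V c p) (s : M.GlobalSection) (S : Set τ) (a : τ) (ha : a ∈ S) :
    M.on s S = M.res (Set.singleton_subset_iff.mpr ha) (s.1 a) := by
  have h : S.Nonempty := ⟨a, ha⟩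
  unfold DMod.on
  rw [dif_pos h]
  have h1 := s.2 h.some a
  have h2 : ({h.some, a} : Set τ) ⊆ S := by
    intro b hb
    rcases hb with rfl | hb
    · exact h.some_mem
    · rw [Set.mem_singleton_iff.mp hb]
      exact ha
  have h3 := congrArg (M.res h2) h1
  rwa [M.res_res, M.res_res] at h3

theorem DMod.res_on (M : DMod.{x} V c p) (s : M.GlobalSection) {S S' : Set τ} (h : S ⊆ S')
    (hne : S.Nonempty) : M.res h (M.on s S) = M.on s S' := by
  obtain ⟨a, ha⟩ := hne
  rw [M.on_eq s S a ha, M.on_eq s S' a (h ha), M.res_res]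

end general

/-- **EXT**. Write `t b a = ratioOp b a` (multiplication by `x_b / x_a`, for `a ∈ S`); from `hne`:
`t b d * t a b = t a d` (as operators, over `{a, b, d}`). For `b : τ` apply `loc_surj {b} b a` to
`res z ∈ M_{a, b}` (`insert a {b} = {a, b}`): there are `n_b`, `y'_b ∈ M_b` with
`res y'_b = t a b ^ n_b • res z`. Multiplying `y'_b` by a power of `t a b` we can take `n_b = n` for all `b`
(`τ` finite). For all `b`, `d` the element `D = res y'_d - t b d ^ n • res y'_b` of `M_{b, d}` restricts to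
`t a d ^ n • z - t b d ^ n • t a b ^ n • z = 0` on `M_{a, b, d}`, so by `loc_inj {b, d} d a` there is `N`
with `t a d ^ N • D = 0`; again `N` may be taken independent of `b`, `d`. Put
`y b = t a b ^ N • y'_b`, with exponent `n + N`: on `{b, d}`, `y d - t b d ^ (n + N) • y b =
t a d ^ N • (y'_d - t b d ^ n • y'_b) = 0`. Finally `y a = z`: `res y'_a = t a a ^ n • res z = res z` along
`{a} ⊆ {a, a}`, and this `res` is injective (compose with `res` along `{a, a} ⊆ {a}`). -/
def EXT : Prop := ∀ (k : Type u) [Field k] (ι : Type v) (τ : Type w) [Finite τ]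
  (V : ProjVariety k ι) (c : τ → ι) (p : ℕ) (_ : ∀ a, V.el (X (c a)) ≠ 0) (M : DMod.{x} V c p),
  Extends M

/-- **GEN**. Given `a`, `z ∈ M_a` take `n`, `y` from `Extends`, and `r`, `φ`, `ψ` from `QuasiAffine n a`.
For each `j`, `s_j b = φ j b • y b` is a global section: on `{b, d}`,
`res (φ j d • y d) = incl (φ j d) • res (y d) = incl (φ j d) • t b d ^ n • res (y b) =
(incl (φ j d) * t b d ^ n) • res (y b) = incl (φ j b) • res (y b)` (equality in the ring `diffRing {b, d}`,
by the first property of `φ`). And `z = y a = ∑ j, ψ j • φ j a • y a = ∑ j, ψ j • s_j a`. -/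
def GEN : Prop := ∀ (k : Type u) [Field k] (ι : Type v) (τ : Type w)
  (V : ProjVariety k ι) (c : τ → ι) (p : ℕ) (M : DMod.{x} V c p),
  Extends M → QuasiAffine V c p → M.Generated

/-- **SPAN**. By induction on the finite set `S`, from a singleton: for `S = {a}` it is `Generated`
(and `M.on s {a} = s.1 a`). For `insert b S`, `a ∈ S`: for `z ∈ M_{insert b S}` there are `n`, `y ∈ M_S`
with `res y = t b a ^ n • z`; `y` is a combination of the `M.on s S`, so `res y` is a combination of the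
`M.on s (insert b S)` (`res_smul`, `res_on`), and `z = t a b ^ n • res y` (as `t a b * t b a = 1` in
`diffRing (insert b S)`, from `hne`). -/
def SPAN : Prop := ∀ (k : Type u) [Field k] (ι : Type v) (τ : Type w) [Finite τ]
  (V : ProjVariety k ι) (c : τ → ι) (p : ℕ) (_ : ∀ a, V.el (X (c a)) ≠ 0) (M : DMod.{x} V c p),
  M.Generated → ∀ (S : Set τ), S.Nonempty → ∀ z : M.carrier S,
    z ∈ Submodule.span (diffRing V c p S) (Set.range fun s : M.GlobalSection => M.on s S)

section monomials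

/-- **QA** (quasi-affinity, monomials). Let `q = 2 ^ e > n` (and `e ≥ 1`). Index the `j` by the
`(v0, e0) ∈ (Sg m → Fin q) × Fin 2` (`Fintype.equivFin`). Let `φ j b` be the `k`-linear map with
`φ j b (B i) = B (i.v + n ed b - v0 + (|v0| + e0 - n) ed a, e = 0)` if `i.e = e0` and
`q ∣ i.v + n ed b - v0` (all coordinates), and `0` otherwise (the degree is
`|i.v| + n - |v0| + |v0| + e0 - n = |i.v| + e0 = 0`), and `ψ j` the `k`-linear map with
`ψ j (B i') = B (i'.v - n ed a + v0 - (|v0| + e0 - n) ed a, e = e0)` if `i'.e = 0`,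
`q ∣ i'.v` (all coordinates) and `q ∣ |v0| + e0 - n`, and `0` otherwise. Then
`∑ j, ψ j (φ j a (B i)) = B i`: only the class of `i.v + n ed a` mod `q`, `e0 = i.e`, contributes
(note that if `q ∣ i.v + n ed b - v0`, `i.e = e0` then summing the coordinates
`q ∣ -e0 + n - |v0|`). The maps are linear over the `B (ex0 (q w))`, hence over all `x ^ (2 q)`
(`Core2.powq_ex0`, `powq_ex1`: the `2 q`-th powers of the `B i` are sums of `B (ex0 (q w))`), so the
exponent `e + 1` works in the statement. Poles: for `φ j b`, `b ∈ S`, `i` with negative exponents in `S`,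
`d ∉ S`: `i.v d ≥ 0`, `(i.v + n ed b - v0) d = q w_d` with `q w_d = i.v d - v0 d > -q`, so `≥ 0`, and
adding `(|v0| + e0 - n) ed a`: it is divisible by `q` and `> -q`, hence `≥ 0`. For `ψ j`, `a ∈ S`:
the exponents at `d ∉ S` are `i'.v d + v0 d ≥ 0`. Shift: `φ j d (ξ^(n (ed b - ed d)) u) = φ j b u` is
clear from the formula. -/
def QA : Prop := ∀ (m : ℕ) (k : Type u) (R : Type v) [Field k] [CharP k 2] [CommRing R] [CharP R 2]
  [Algebra k R] (B : Module.Basis (Expo (Sg m)) k R), Mult B → ∀ (n : ℕ) (a : Sg m),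
  ∃ (r : ℕ) (φ : Fin r → Sg m → (R →+ R)) (ψ : Fin r → (R →+ R)) (e : ℕ),
    (∀ j b x u, φ j b (x ^ 2 ^ e * u) = x ^ 2 ^ e * φ j b u) ∧
    (∀ j x u, ψ j (x ^ 2 ^ e * u) = x ^ 2 ^ e * ψ j u) ∧
    (∀ j b, ∀ S : Set (Sg m), b ∈ S → ∀ u ∈ polesIn B S, φ j b u ∈ polesIn B S) ∧
    (∀ j, ∀ S : Set (Sg m), a ∈ S → ∀ u ∈ polesIn B S, ψ j u ∈ polesIn B S) ∧
    (∀ j b d (h : ∑ x, (n : ℤ) * (ed b x - ed d x) = 0) u,
      φ j d (B (ex0 (fun x => (n : ℤ) * (ed b x - ed d x)) h) * u) = φ j b u) ∧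
    ∀ u, ∑ j, ψ j (φ j a u) = u

/-- **INC** (localisation of operators, monomials). By linearity take `u = B i` with the negative exponents
of `i` in `S'`; let `a ∈ S`, `q = 2 ^ e`. Choose `N ≥ 0` with `i.v b ≥ -N` for all `b`, and `w` with
`w b = -N` if `b ≠ a` and `i.v b < 0`, `w b = 0` for the other `b ≠ a`, and `w a = - ∑_{b ≠ a} w b ≥ 0`.
Then `B i = B (ex0 w) ^ q * B i'` (`pow_ex0`), with `i' = i - q w`, whose exponents at `b ≠ a` are `≥ 0`,
so `B i' ∈ polesIn B {a} ⊆ polesIn B S`, `δ (B i) = B (ex0 w) ^ q * δ (B i')`, `δ (B i') ∈ polesIn B S`, and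
multiplication by `B (ex0 (q w))`, whose negative exponents are in `S'`, maps `polesIn B S` to
`polesIn B S'`. -/
def INC : Prop := ∀ (m : ℕ) (k : Type u) (R : Type v) [Field k] [CharP k 2] [CommRing R] [CharP R 2]
  [Algebra k R] (B : Module.Basis (Expo (Sg m)) k R), Mult B → ∀ (e : ℕ) (δ : R →+ R),
  (∀ x u, δ (x ^ 2 ^ e * u) = x ^ 2 ^ e * δ u) → (∀ (c : k) u, δ (c • u) = c • δ u) →
  ∀ S S' : Set (Sg m), S.Nonempty → S ⊆ S' → (∀ u ∈ polesIn B S, δ u ∈ polesIn B S) →
    ∀ u ∈ polesIn B S', δ u ∈ polesIn B S'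

/-- **LOC** (`D` is quasi-coherent, monomials). `q = 2 ^ e`. If `b ∈ S` take `n = 0`. Otherwise: for `i` with
negative exponents in `S` write `i.v = v0 + q w`, `0 ≤ v0 < q` (`Int.emod`), `κ = (|v0| + i.e) / q ≥ 0`
(so `|w| = -κ`), `w' = w + κ ed a` (sum zero), `i0 = (v0 - q κ ed a, i.e)`: then
`B i = B (ex0 w') ^ q * B i0`, and `i0` ranges over a finite set (determined by `v0`, `i.e`) independent
of `i`. Each `δ (B i0)` is in `polesIn B (insert b S)` (as `a ∈ S`), a finite combination of monomials, so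
there is `n` such that the exponents at `b` of all the monomials of all the `δ (B i0)` are `≥ -n`
(`polesIn` is a span: use `Module.Basis.mem_span_image` / `repr`, or show by span induction that for each
`y ∈ polesIn B (insert b S)` there is `n` with `B (ex0 (n' (ed b - ed a))) * y ∈ polesIn B S` for all
`n' ≥ n`). Then `B (ex0 (n (ed b - ed a))) * δ (B i) = B (ex0 (q w')) * (B (ex0 (n (ed b - ed a))) *
δ (B i0))`, the last factor is in `polesIn B S`, and `w' d = w d ≥ 0` for `d ∉ S` (as `i.v d ≥ 0`). -/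
def LOC : Prop := ∀ (m : ℕ) (k : Type u) (R : Type v) [Field k] [CharP k 2] [CommRing R] [CharP R 2]
  [Algebra k R] (B : Module.Basis (Expo (Sg m)) k R), Mult B → ∀ (e : ℕ) (δ : R →+ R),
  (∀ x u, δ (x ^ 2 ^ e * u) = x ^ 2 ^ e * δ u) → (∀ (c : k) u, δ (c • u) = c • δ u) →
  ∀ (S : Set (Sg m)) (a b : Sg m), a ∈ S →
    (∀ u ∈ polesIn B (insert b S), δ u ∈ polesIn B (insert b S)) →
    ∃ n : ℕ, ∀ (h : ∑ x, (n : ℤ) * (ed b x - ed a x) = 0), ∀ u ∈ polesIn B S,
      B (ex0 (fun x => (n : ℤ) * (ed b x - ed a x)) h) * δ u ∈ polesIn B S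

/-- **FS** (the quadric is `F`-split, monomials). For `w : Sg m → ℤ` of sum `0` (resp. `-2`) let
`H w = B (ex0 (w / 2))` (resp. `H1 w = B (ex1 (w / 2))`) if all the `w b` are even, and `0` otherwise.
Put `s (ξ^v) = H v + H1 (v - pr 0) + ∑_{l ≠ 0} H (v - pr 0 + pr l)`, `s (ξ^v ζ) = 0`, and
`σ (∑ c_i B i) = ∑ √c_i s (B i)` (`√ = (frobeniusEquiv k 2).symm`). `σ (f ^ 2 g) = f σ g`: for
`f = c` clear, for `f = ξ^w` clear, sums clear in characteristic two (`(f + f')^2 = f^2 + f'^2`); for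
`f = ξ^w ζ` it is `∑_l s (ξ^(v + pr l)) = ζ s (ξ^v)` (and `0 = 0` on `ξ^v ζ`), by `Mult`: the
part with `ζ`: `∑_l H1 (v + pr l - pr 0) = ζ (H v + ∑_{l ≠ 0} H (v + pr l - pr 0))`, clear; the part
without `ζ`: `∑_l H (v + pr l) + ∑_l ∑_{j ≠ 0} H (v + pr l + pr j - pr 0) =
∑_l H (v - pr 0 + 2 pr l)`: the terms `l = 0` of the double sum cancel the `H (v + pr j)`, `j ≠ 0`, and
the terms `(l, j)`, `(j, l)` with `0 ≠ l ≠ j ≠ 0` cancel, in characteristic two. `σ 1 = 1` since the
exponents `- pr 0`, `pr l - pr 0` are not even. Poles: if `w b` is even and `w b ≥ -1` then `w b / 2 ≥ 0`. -/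
def FS : Prop := ∀ (m : ℕ) (k : Type u) (R : Type v) [Field k] [IsAlgClosed k] [CharP k 2]
  [CommRing R] [CharP R 2] [Algebra k R] (B : Module.Basis (Expo (Sg m)) k R), Mult B →
  ∃ σ : R →+ R, (∀ f g, σ (f ^ 2 * g) = f * σ g) ∧ σ 1 = 1 ∧
    ∀ S : Set (Sg m), ∀ u ∈ polesIn B S, σ u ∈ polesIn B S

end monomials

/-- **HD** (`H^i(D) = 0` for the quadric, ordered Čech complex; adapt `H824/DaffF.lean`,
`diff_vanishing`). Take `E` = the maximum of the `e` over the finitely many `T` with `card = n + 1`,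
`P a = aproj (BU k m) (2 ^ E) a`, and `G = hO P F` (by `HOM`; `∑ a, P a (F T) = F T` by
`sum_aproj`). For `card T = n`: `G T` is linear over the `2 ^ (E + 1)`-th powers (`lin_of_comm`, as in
`DaffF`), and for `S' ⊇ T` nonempty, `a ∉ T`: `F (insert a T)` preserves `polesIn (insert a S')` (as
`insert a T ⊆ insert a S'`), hence `P a (F (insert a T))` preserves `polesIn S'` (`aproj_polesIn`). -/
def HD : Prop := HOM.{0, u} → ∀ (m : ℕ) (k : Type u) [Field k] [IsAlgClosed k] [CharP k 2]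
  [LinearOrder (Sg m)] (n : ℕ) (F : Finset (Sg m) → (RU k m →+ RU k m)),
  (∀ T : Finset (Sg m), T.card = n + 1 → (∃ e : ℕ, ∀ x u, F T (x ^ 2 ^ e * u) = x ^ 2 ^ e * F T u) ∧
    ∀ S' : Set (Sg m), (T : Set (Sg m)) ⊆ S' → S'.Nonempty → ∀ u ∈ polesIn (BU k m) S',
      F T u ∈ polesIn (BU k m) S') →
  (∀ T : Finset (Sg m), T.card = n + 2 → cO F T = 0) →
  ∃ G : Finset (Sg m) → (RU k m →+ RU k m),
    (∀ T : Finset (Sg m), T.card = n → (∃ e : ℕ, ∀ x u, G T (x ^ 2 ^ e * u) = x ^ 2 ^ e * G T u) ∧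
      ∀ S' : Set (Sg m), (T : Set (Sg m)) ⊆ S' → S'.Nonempty → ∀ u ∈ polesIn (BU k m) S',
        G T u ∈ polesIn (BU k m) S') ∧
    ∀ T : Finset (Sg m), T.card = n + 1 → cO G T = F T

end Pool.Agent.H17DA
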